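import Pool.Agent.Lib.MP_3da8ac_lc.MTile

/-!
# A tiling gives a small closed set of residues
-/

set_option autoImplicit false

namespace Pool.Agent.Lib.MP_3da8ac_lc

namespace TileSys

variable (𝒯 : TileSys)

/-- A tiling gives a closed set with `3M + 1` elements. -/
theorem exists_closed_of_tiling {N X : ℕ} (hN : 2 ≤ N) (hX : 1 ≤ X) (hXN : X < N ^ 2 + 1)
    {τ : ℕ → 𝒯.T} (hτ : 𝒯.Tiling N X τ) :
    ∃ P : Finset (ZMod ((N ^ 2 + 1) * (8 * 𝒯.Q))), P.Nonempty ∧
      P.card ≤ 3 * (N ^ 2 + 1) + 1 ∧ Closed (𝒯.rules N X) P := by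
  classical
  obtain ⟨hper, hwin, hsp0, hsp, hpin⟩ := hτ
  obtain ⟨M, hM⟩ : ∃ M, M = N ^ 2 + 1 := ⟨_, rfl⟩
  obtain ⟨L, hL⟩ : ∃ L, L = 8 * 𝒯.Q := ⟨_, rfl⟩
  obtain ⟨W, hW⟩ : ∃ W, W = M * L := ⟨_, rfl⟩
  have hMpos : 0 < M := by rw [hM]; positivity
  have hp3 : ∀ t, 3 ≤ 𝒯.p t := 𝒯.three_le_p
  have hpQ : ∀ t, 𝒯.p t < 𝒯.Q := 𝒯.p_lt
  have hLW : L ≤ W := by rw [hW]; exact Nat.le_mul_of_pos_left L hMpos
  rw [← hM, ← hL, ← hW]
  let b0 : ℕ → ZMod W := fun c => ((c * L : ℕ) : ZMod W)
  let b1 : ℕ → ZMod W := fun c => ((c * L + 𝒯.p (τ c) : ℕ) : ZMod W)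
  let b2 : ℕ → ZMod W := fun c => ((c * L + 𝒯.p (τ c) + 𝒯.Q : ℕ) : ZMod W)
  let P : Finset (ZMod W) := (((Finset.range M).image b0 ∪ (Finset.range M).image b1) ∪
    (Finset.range M).image b2) ∪ {((1 : ℕ) : ZMod W)}
  have hperM : Function.Periodic τ M := by
    intro c
    rw [hM]
    exact hper c
  have hτmod : ∀ c, τ (c % M) = τ c := hperM.map_mod_nat
  have hcast : ∀ c e : ℕ, (((c % M) * L + e : ℕ) : ZMod W) = ((c * L + e : ℕ) : ZMod W) := by
    intro c e
    have h1 : c * L + e = ((c % M) * L + e) + W * (c / M) := by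
      have h2 : c = c % M + M * (c / M) := (Nat.mod_add_div c M).symm
      calc c * L + e = (c % M + M * (c / M)) * L + e := by rw [← h2]
        _ = ((c % M) * L + e) + W * (c / M) := by rw [hW]; ring
    rw [h1]
    push_cast
    simp
  have m0 : ∀ c : ℕ, ((c * L : ℕ) : ZMod W) ∈ P := by
    intro c
    have h1 := hcast c 0
    simp only [add_zero] at h1
    rw [← h1]
    refine Finset.mem_union_left _ (Finset.mem_union_left _ (Finset.mem_union_left _ ?_))
    exact Finset.mem_image.2 ⟨c % M, Finset.mem_range.2 (Nat.mod_lt _ hMpos), rfl⟩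
  have m1 : ∀ c : ℕ, ((c * L + 𝒯.p (τ c) : ℕ) : ZMod W) ∈ P := by
    intro c
    have h1 := hcast c (𝒯.p (τ c))
    rw [← h1]
    refine Finset.mem_union_left _ (Finset.mem_union_left _ (Finset.mem_union_right _ ?_))
    refine Finset.mem_image.2 ⟨c % M, Finset.mem_range.2 (Nat.mod_lt _ hMpos), ?_⟩
    simp only [b1, hτmod]
  have m2 : ∀ c : ℕ, ((c * L + 𝒯.p (τ c) + 𝒯.Q : ℕ) : ZMod W) ∈ P := by
    intro c
    have h1 := hcast c (𝒯.p (τ c) + 𝒯.Q)
    rw [add_assoc, ← h1]
    refine Finset.mem_union_left _ (Finset.mem_union_right _ ?_)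
    refine Finset.mem_image.2 ⟨c % M, Finset.mem_range.2 (Nat.mod_lt _ hMpos), ?_⟩
    simp only [b2, hτmod, add_assoc]
  have m3 : ((1 : ℕ) : ZMod W) ∈ P := Finset.mem_union_right _ (Finset.mem_singleton_self _)
  have key : ∀ (a d k : ℕ), a + d = k → ((k : ℕ) : ZMod W) ∈ P →
      ((a : ℕ) : ZMod W) + ((d : ℕ) : ZMod W) ∈ P := by
    intro a d k hk hmem
    rw [← Nat.cast_add, hk]
    exact hmem
  refine ⟨P, ⟨_, m3⟩, ?_, ?_⟩
  · have hc : ∀ f : ℕ → ZMod W, ((Finset.range M).image f).card ≤ M := by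
      intro f
      exact Finset.card_image_le.trans (by rw [Finset.card_range])
    have h1 := Finset.card_union_le ((Finset.range M).image b0) ((Finset.range M).image b1)
    have h2 := Finset.card_union_le ((Finset.range M).image b0 ∪ (Finset.range M).image b1)
      ((Finset.range M).image b2)
    have h3 := Finset.card_union_le (((Finset.range M).image b0 ∪ (Finset.range M).image b1) ∪
      (Finset.range M).image b2) {((1 : ℕ) : ZMod W)}
    have h4 : ({((1 : ℕ) : ZMod W)} : Finset (ZMod W)).card = 1 := Finset.card_singleton _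
    have h5 := hc b0
    have h6 := hc b1
    have h7 := hc b2
    change ((((Finset.range M).image b0 ∪ (Finset.range M).image b1) ∪
      (Finset.range M).image b2) ∪ {((1 : ℕ) : ZMod W)}).card ≤ _
    omega
  · intro x hx
    have hx' : (((∃ c, c < M ∧ b0 c = x) ∨ (∃ c, c < M ∧ b1 c = x)) ∨ (∃ c, c < M ∧ b2 c = x)) ∨
        x = ((1 : ℕ) : ZMod W) := by
      simpa only [P, Finset.mem_union, Finset.mem_image, Finset.mem_range,
        Finset.mem_singleton] using hx
    rcases hx' with ((⟨c, hc, rfl⟩ | ⟨c, hc, rfl⟩) | ⟨c, hc, rfl⟩) | rfl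
    · refine ⟨𝒯.ruleM N (τ c, τ (c + 1), τ (c + N), τ (c + N + 1)), ?_, ?_⟩
      · refine List.mem_append_left _ (List.mem_map.2 ⟨_, ?_, rfl⟩)
        unfold windows
        rw [Finset.mem_toList, Finset.mem_filter]
        exact ⟨Finset.mem_univ _, hwin c⟩
      · intro d hd
        unfold ruleM at hd
        rw [List.mem_append] at hd
        rcases hd with hd | hd
        · by_cases hs : 𝒯.sp (τ c)
          · rw [if_pos hs, List.mem_singleton] at hd
            have hc0 : c = 0 := by
              by_contra hc0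
              exact hsp c (Nat.pos_of_ne_zero hc0) (hM ▸ hc) hs
            refine key _ _ 1 ?_ m3
            rw [hd, hc0]
            omega
          · rw [if_neg hs] at hd
            simp at hd
        · rw [← hM, ← hL, ← hW] at hd
          simp only [List.mem_cons, List.not_mem_nil, or_false] at hd
          rcases hd with h | h | h | h | h | h | h | h | h | h | h | h <;> rw [h]
          · exact key _ _ _ rfl (m1 c)
          · exact key _ _ _ (by ring) (m2 c)
          · exact key _ _ ((c + 1) * L) (by ring) (m0 _)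
          · exact key _ _ ((c + 1) * L + 𝒯.p (τ (c + 1))) (by ring) (m1 _)
          · exact key _ _ ((c + 1) * L + 𝒯.p (τ (c + 1)) + 𝒯.Q) (by ring) (m2 _)
          · exact key _ _ ((c + N) * L) (by ring) (m0 _)
          · exact key _ _ ((c + N) * L + 𝒯.p (τ (c + N))) (by ring) (m1 _)
          · exact key _ _ ((c + N) * L + 𝒯.p (τ (c + N)) + 𝒯.Q) (by ring) (m2 _)
          · exact key _ _ ((c + N + 1) * L) (by ring) (m0 _)
          · exact key _ _ ((c + N + 1) * L + 𝒯.p (τ (c + N + 1))) (by ring) (m1 _)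
          · exact key _ _ ((c + N + 1) * L + 𝒯.p (τ (c + N + 1)) + 𝒯.Q) (by ring) (m2 _)
          · exact key _ _ ((c + M) * L) (by rw [hW]; ring) (m0 _)
    · refine ⟨𝒯.ruleD N (τ c), ?_, ?_⟩
      · refine List.mem_append_right _ (List.mem_append_left _ (List.mem_map.2 ⟨_, ?_, rfl⟩))
        unfold tiles
        exact Finset.mem_toList.2 (Finset.mem_univ _)
      · intro d hd
        unfold ruleD at hd
        rw [← hM, ← hL, ← hW] at hd
        simp only [List.mem_cons, List.not_mem_nil, or_false] at hd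
        have h3 := hp3 (τ c)
        have h4 := hpQ (τ c)
        have e1 : (c + 1) * L = c * L + L := by ring
        have e2 : (c + M) * L = c * L + W := by rw [hW]; ring
        rcases hd with h | h | h | h <;> rw [h]
        · exact key _ _ _ rfl (m2 c)
        · exact key _ _ ((c + 1) * L) (by omega) (m0 _)
        · exact key _ _ ((c + M) * L) (by omega) (m0 _)
        · refine key _ _ ((c + M) * L + 𝒯.p (τ (c + M))) ?_ (m1 _)
          rw [hperM c]
          omega
    · refine ⟨𝒯.ruleD' N (τ c), ?_, ?_⟩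
      · refine List.mem_append_right _ (List.mem_append_right _
          (List.mem_append_left _ (List.mem_map.2 ⟨_, ?_, rfl⟩)))
        unfold tiles
        exact Finset.mem_toList.2 (Finset.mem_univ _)
      · intro d hd
        unfold ruleD' at hd
        rw [← hM, ← hL, ← hW] at hd
        simp only [List.mem_cons, List.not_mem_nil, or_false] at hd
        have h3 := hp3 (τ c)
        have h4 := hpQ (τ c)
        have e1 : (c + 1) * L = c * L + L := by ring
        have e2 : (c + M) * L = c * L + W := by rw [hW]; ring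
        rcases hd with h | h | h | h <;> rw [h]
        · refine key _ _ ((c + M) * L + 𝒯.p (τ (c + M))) ?_ (m1 _)
          rw [hperM c]
          omega
        · exact key _ _ ((c + 1) * L) (by omega) (m0 _)
        · exact key _ _ ((c + M) * L) (by omega) (m0 _)
        · refine key _ _ ((c + M) * L + 𝒯.p (τ (c + M)) + 𝒯.Q) ?_ (m2 _)
          rw [hperM c]
          omega
    · refine ⟨𝒯.ruleE N X (τ 0, τ X), ?_, ?_⟩
      · refine List.mem_append_right _ (List.mem_append_right _
          (List.mem_append_right _ (List.mem_map.2 ⟨_, ?_, rfl⟩)))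
        unfold pins
        rw [Finset.mem_toList, Finset.mem_filter]
        exact ⟨Finset.mem_univ _, hsp0, hpin⟩
      · intro d hd
        unfold ruleE at hd
        rw [← hM, ← hL, ← hW] at hd
        simp only [List.mem_cons, List.not_mem_nil, or_false] at hd
        have h3 := hp3 (τ 0)
        have h4 := hpQ (τ 0)
        have h3' := hp3 (τ X)
        have h4' := hpQ (τ X)
        have e1 : 1 * L = L := one_mul L
        have e0 : 0 * L = 0 := zero_mul L
        rcases hd with h | h | h | h | h | h | h <;> rw [h]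
        · refine key _ _ (M * L) ?_ (m0 _)
          omega
        · exact key _ _ (1 * L) (by omega) (m0 _)
        · exact key _ _ (0 * L + 𝒯.p (τ 0)) (by omega) (m1 _)
        · exact key _ _ (0 * L + 𝒯.p (τ 0) + 𝒯.Q) (by omega) (m2 _)
        · exact key _ _ (X * L + 𝒯.p (τ X)) (by omega) (m1 _)
        · exact key _ _ (X * L + 𝒯.p (τ X) + 𝒯.Q) (by omega) (m2 _)
        · have : ((1 : ℕ) : ZMod W) + ((W : ℕ) : ZMod W) = ((1 : ℕ) : ZMod W) := by
            simp
          rw [this]
          exact m3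

end TileSys

end Pool.Agent.Lib.MP_3da8ac_lc
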