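import Mathlib
import Pool.Prelude.Def_F_458e953d

/-!
# Two-dimensional bootstrap percolation: stable directions and the difficulty

Update families are given as lists of lists of points of `ℤ × ℤ`.
-/

set_option autoImplicit false

namespace Pool.Agent.Lib.MP_3da8ac_lc

/-- A list of lists of lattice points. -/
abbrev Family : Type := List (List (ℤ × ℤ))

/-- The list presents an update family: it is nonempty and its members are nonempty lists without
repetitions that do not contain the origin. -/
def IsFamily (F : Family) : Prop :=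
  F ≠ [] ∧ ∀ U ∈ F, U ≠ [] ∧ U.Nodup ∧ ((0, 0) : ℤ × ℤ) ∉ U

/-- One step of the process: `A_{t+1}` from `A_t`. -/
def step (F : Family) (A : Set (ℤ × ℤ)) : Set (ℤ × ℤ) :=
  A ∪ {x | ∃ U ∈ F, ∀ u ∈ U, x + u ∈ A}

/-- The closure `[A] = ⋃ t, A_t`. -/
def closure (F : Family) (A : Set (ℤ × ℤ)) : Set (ℤ × ℤ) := ⋃ t : ℕ, (step F)^[t] A

/-- The unit circle `S¹`. -/
def circle : Set (ℝ × ℝ) := {u | u.1 ^ 2 + u.2 ^ 2 = 1}

/-- The open half plane `ℍ_u` of the lattice points `x` with `⟨x, u⟩ < 0`. -/
def halfPlane (u : ℝ × ℝ) : Set (ℤ × ℤ) := {x | (x.1 : ℝ) * u.1 + (x.2 : ℝ) * u.2 < 0}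

/-- Stable directions. -/
def Stable (F : Family) (u : ℝ × ℝ) : Prop := closure F (halfPlane u) = halfPlane u

/-- The open semicircle with midpoint `v`. -/
def semicircle (v : ℝ × ℝ) : Set (ℝ × ℝ) := {u | u ∈ circle ∧ 0 < u.1 * v.1 + u.2 * v.2}

/-- Critical families: some open semicircle contains only finitely many stable directions and
every open semicircle contains at least one stable direction. -/
def Critical (F : Family) : Prop :=
  (∃ v ∈ circle, {u | u ∈ semicircle v ∧ Stable F u}.Finite) ∧
    ∀ v ∈ circle, ∃ u ∈ semicircle v, Stable F u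

/-- Isolated stable directions. -/
def IsolatedStable (F : Family) (u : ℝ × ℝ) : Prop :=
  Stable F u ∧ ∃ ε : ℝ, 0 < ε ∧ ∀ w ∈ circle, Stable F w → dist w u < ε → w = u

/-- The sets `Z` outside of `ℍ_u` which, together with `ℍ_u`, infect infinitely many points
outside of `ℍ_u`. -/
def Growing (F : Family) (u : ℝ × ℝ) (Z : Set (ℤ × ℤ)) : Prop :=
  Disjoint Z (halfPlane u) ∧ (closure F (halfPlane u ∪ Z) \ halfPlane u).Infinite

open Classical in
/-- The difficulty `α(u)` of a direction. -/
noncomputable def alpha (F : Family) (u : ℝ × ℝ) : ℕ∞ :=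
  if ¬ Stable F u then 0
  else if IsolatedStable F u then ⨅ Z : {Z : Set (ℤ × ℤ) // Growing F u Z}, Z.1.encard
  else ⊤

/-- The difficulty `α(𝒰)`: the infimum over the open semicircles `C` of the supremum of `α` over
`C`. -/
noncomputable def difficulty (F : Family) : ℕ∞ :=
  ⨅ v : {v : ℝ × ℝ // v ∈ circle}, ⨆ u : {u : ℝ × ℝ // u ∈ semicircle v.1}, alpha F u.1

/-- `L` answers the question `α(𝒰) ≤ k` correctly for all critical families; the instances are
encoded by the bit strings of the Prelude. -/
def Decides (L : List Bool → Bool) : Prop :=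
  ∀ (F : Family) (k : ℕ), IsFamily F → Critical F →
    (L (N487b59b3.bitEncode (F, k)) = true ↔ difficulty F ≤ (k : ℕ∞))

end Pool.Agent.Lib.MP_3da8ac_lc
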