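import Pool.Agent.Lib.MP_3da8ac_lc.Defs

/-!
# One-dimensional rules as two-dimensional update families
-/

set_option autoImplicit false

namespace Pool.Agent.Lib.MP_3da8ac_lc

/-- The update family of a list of lists of distances: for every list `s` the two rules
`{(0, -1)} ∪ {(d, 0) | d ∈ s}` and `{(0, -1)} ∪ {(-d, 0) | d ∈ s}`. -/
def fam (S : List (List ℕ)) : Family :=
  S.flatMap (fun s => [((0 : ℤ), (-1 : ℤ)) :: s.map (fun d => ((d : ℤ), (0 : ℤ))),
    ((0 : ℤ), (-1 : ℤ)) :: s.map (fun d => (-(d : ℤ), (0 : ℤ)))])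

/-- Sets of residues in which every element is supported by a rule. -/
def Closed {W : ℕ} (S : List (List ℕ)) (P : Finset (ZMod W)) : Prop :=
  ∀ x ∈ P, ∃ s ∈ S, ∀ d ∈ s, x + (d : ZMod W) ∈ P

private lemma fam_mem_iff {S : List (List ℕ)} {U : List (ℤ × ℤ)} :
    U ∈ fam S ↔ ∃ s ∈ S, U = ((0 : ℤ), (-1 : ℤ)) :: s.map (fun d : ℕ => ((d : ℤ), (0 : ℤ))) ∨
      U = ((0 : ℤ), (-1 : ℤ)) :: s.map (fun d : ℕ => (-(d : ℤ), (0 : ℤ))) := by
  have hcast : ∀ s : List ℕ, (do let a ← s; pure (a : ℤ) : List ℤ) =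
      s.map (fun d : ℕ => (d : ℤ)) := by
    intro s
    induction s with
    | nil => rfl
    | cons a s ih =>
      rw [List.map_cons, ← ih]
      rfl
  unfold fam
  simp only [List.mem_flatMap, List.mem_cons, List.not_mem_nil, or_false, hcast, List.map_map,
    Function.comp_def]

theorem isFamily_fam {S : List (List ℕ)} (hS : S ≠ []) (h : ∀ s ∈ S, s.Nodup ∧ 0 ∉ s) :
    IsFamily (fam S) := by
  refine ⟨?_, ?_⟩
  · obtain ⟨s, hs⟩ := List.exists_mem_of_ne_nil S hS
    exact List.ne_nil_of_mem (fam_mem_iff.mpr ⟨s, hs, Or.inl rfl⟩)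
  · intro U hU
    obtain ⟨s, hs, hU⟩ := fam_mem_iff.mp hU
    obtain ⟨hnd, h0⟩ := h s hs
    rcases hU with rfl | rfl
    · refine ⟨List.cons_ne_nil _ _, List.nodup_cons.mpr ⟨?_, ?_⟩, ?_⟩
      · intro hm
        obtain ⟨d, _, hd⟩ := List.mem_map.mp hm
        have := (Prod.ext_iff.mp hd).2
        simp at this
      · refine hnd.map ?_
        intro a b hab
        have := (Prod.ext_iff.mp hab).1
        simpa using this
      · intro hm
        rcases List.mem_cons.mp hm with hm | hm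
        · have := (Prod.ext_iff.mp hm).2
          simp at this
        · obtain ⟨d, hd, hde⟩ := List.mem_map.mp hm
          have := (Prod.ext_iff.mp hde).1
          have hd0 : d = 0 := by simpa using this
          exact h0 (hd0 ▸ hd)
    · refine ⟨List.cons_ne_nil _ _, List.nodup_cons.mpr ⟨?_, ?_⟩, ?_⟩
      · intro hm
        obtain ⟨d, _, hd⟩ := List.mem_map.mp hm
        have := (Prod.ext_iff.mp hd).2
        simp at this
      · refine hnd.map ?_
        intro a b hab
        have := (Prod.ext_iff.mp hab).1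
        simpa using this
      · intro hm
        rcases List.mem_cons.mp hm with hm | hm
        · have := (Prod.ext_iff.mp hm).2
          simp at this
        · obtain ⟨d, hd, hde⟩ := List.mem_map.mp hm
          have := (Prod.ext_iff.mp hde).1
          have hd0 : d = 0 := by simpa using this
          exact h0 (hd0 ▸ hd)

private lemma fam_stable_iff_step (F : Family) (u : ℝ × ℝ) :
    Stable F u ↔ ∀ x : ℤ × ℤ, (∃ U ∈ F, ∀ p ∈ U, x + p ∈ halfPlane u) → x ∈ halfPlane u := by
  constructor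
  · intro h x hx
    have h1 : step F (halfPlane u) ⊆ closure F (halfPlane u) := by
      intro y hy
      exact Set.mem_iUnion.mpr ⟨1, hy⟩
    have h2 : x ∈ step F (halfPlane u) := Or.inr hx
    have h3 := h1 h2
    unfold Stable at h
    rwa [h] at h3
  · intro h
    have hst : step F (halfPlane u) = halfPlane u := by
      apply Set.Subset.antisymm
      · rintro x (hx | hx)
        · exact hx
        · exact h x hx
      · exact Set.subset_union_left
    have hit : ∀ t : ℕ, (step F)^[t] (halfPlane u) = halfPlane u := by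
      intro t
      induction t with
      | zero => rfl
      | succ t ih => rw [Function.iterate_succ_apply', ih, hst]
    unfold Stable closure
    simp only [hit]
    exact Set.iUnion_const _

private lemma fam_mem_halfPlane (x : ℤ × ℤ) (u : ℝ × ℝ) :
    x ∈ halfPlane u ↔ (x.1 : ℝ) * u.1 + (x.2 : ℝ) * u.2 < 0 := Iff.rfl

/-- The stable directions of `fam S` are `(0, 1)` and the directions of the closed lower
semicircle. -/
theorem stable_fam_iff {S : List (List ℕ)} (hS : S ≠ []) (h : ∀ s ∈ S, s ≠ [] ∧ 0 ∉ s)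
    {u : ℝ × ℝ} (hu : u ∈ circle) : Stable (fam S) u ↔ u = (0, 1) ∨ u.2 ≤ 0 := by
  rw [fam_stable_iff_step]
  have hu' : u.1 ^ 2 + u.2 ^ 2 = 1 := hu
  constructor
  · intro hst
    by_contra hcon
    rw [not_or, not_le] at hcon
    obtain ⟨hne, h2⟩ := hcon
    have h1 : u.1 ≠ 0 := by
      intro h1
      apply hne
      have h3 : u.2 ^ 2 = 1 := by rw [h1] at hu'; linarith
      have h4 : u.2 = 1 := by
        have h5 : (u.2 - 1) * (u.2 + 1) = 0 := by ring_nf; linarith
        rcases mul_eq_zero.mp h5 with h6 | h6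
        · linarith
        · linarith
      exact Prod.ext h1 h4
    obtain ⟨s, hs⟩ := List.exists_mem_of_ne_nil S hS
    obtain ⟨_, h0⟩ := h s hs
    have h00 : ((0, 0) : ℤ × ℤ) ∈ halfPlane u := by
      apply hst
      rcases lt_or_gt_of_ne h1 with h1 | h1
      · refine ⟨_, fam_mem_iff.mpr ⟨s, hs, Or.inl rfl⟩, ?_⟩
        intro p hp
        rcases List.mem_cons.mp hp with rfl | hp
        · rw [fam_mem_halfPlane]
          simp only [Prod.fst_add, Prod.snd_add]
          push_cast
          linarith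
        · obtain ⟨d, hd, rfl⟩ := List.mem_map.mp hp
          have hd0 : 0 < d := Nat.pos_of_ne_zero fun e => h0 (e ▸ hd)
          have hd1 : (0 : ℝ) < d := by exact_mod_cast hd0
          rw [fam_mem_halfPlane]
          simp only [Prod.fst_add, Prod.snd_add]
          push_cast
          nlinarith
      · refine ⟨_, fam_mem_iff.mpr ⟨s, hs, Or.inr rfl⟩, ?_⟩
        intro p hp
        rcases List.mem_cons.mp hp with rfl | hp
        · rw [fam_mem_halfPlane]
          simp only [Prod.fst_add, Prod.snd_add]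
          push_cast
          linarith
        · obtain ⟨d, hd, rfl⟩ := List.mem_map.mp hp
          have hd0 : 0 < d := Nat.pos_of_ne_zero fun e => h0 (e ▸ hd)
          have hd1 : (0 : ℝ) < d := by exact_mod_cast hd0
          rw [fam_mem_halfPlane]
          simp only [Prod.fst_add, Prod.snd_add]
          push_cast
          nlinarith
    rw [fam_mem_halfPlane] at h00
    simp at h00
  · rintro (rfl | h2) x ⟨U, hU, hx⟩
    · obtain ⟨s, hs, hU⟩ := fam_mem_iff.mp hU
      obtain ⟨d, hd⟩ := List.exists_mem_of_ne_nil s (h s hs).1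
      rcases hU with rfl | rfl
      · have := hx ((d : ℤ), (0 : ℤ))
          (List.mem_cons_of_mem _ (List.mem_map.mpr ⟨d, hd, rfl⟩))
        rw [fam_mem_halfPlane] at this ⊢
        simpa using this
      · have := hx (-(d : ℤ), (0 : ℤ))
          (List.mem_cons_of_mem _ (List.mem_map.mpr ⟨d, hd, rfl⟩))
        rw [fam_mem_halfPlane] at this ⊢
        simpa using this
    · obtain ⟨s, hs, hU⟩ := fam_mem_iff.mp hU
      have hm : ((0 : ℤ), (-1 : ℤ)) ∈ U := by
        rcases hU with rfl | rfl <;> exact List.mem_cons_self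
      have := hx _ hm
      rw [fam_mem_halfPlane] at this ⊢
      simp only [Prod.fst_add, Prod.snd_add] at this
      push_cast at this
      linarith

private lemma fam_top_mem_circle : ((0, 1) : ℝ × ℝ) ∈ circle := by
  change (0 : ℝ) ^ 2 + 1 ^ 2 = 1
  norm_num

theorem critical_fam {S : List (List ℕ)} (hS : S ≠ []) (h : ∀ s ∈ S, s ≠ [] ∧ 0 ∉ s) :
    Critical (fam S) := by
  refine ⟨⟨(0, 1), fam_top_mem_circle, ?_⟩, ?_⟩
  · refine (Set.finite_singleton ((0, 1) : ℝ × ℝ)).subset ?_
    rintro u ⟨⟨hu, hu2⟩, hst⟩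
    rcases (stable_fam_iff hS h hu).mp hst with h1 | h1
    · exact h1
    · simp only [mul_zero, mul_one, zero_add] at hu2
      linarith
  · intro v hv
    have hv' : v.1 ^ 2 + v.2 ^ 2 = 1 := hv
    rcases le_or_gt v.2 0 with h2 | h2
    · refine ⟨v, ⟨hv, ?_⟩, (stable_fam_iff hS h hv).mpr (Or.inr h2)⟩
      nlinarith
    · refine ⟨(0, 1), ⟨fam_top_mem_circle, ?_⟩,
        (stable_fam_iff hS h fam_top_mem_circle).mpr (Or.inl rfl)⟩
      simpa using h2

/-- Small rotations of a direction of the closed lower half plane which stay in it. -/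
private lemma fam_rotate {u : ℝ × ℝ} (hu : u ∈ circle) (h2 : u.2 ≤ 0) {ε : ℝ} (hε : 0 < ε) :
    ∃ w ∈ circle, w.2 ≤ 0 ∧ dist w u < ε ∧ w ≠ u := by
  have hu' : u.1 ^ 2 + u.2 ^ 2 = 1 := hu
  obtain ⟨t, ht0, ht1, htε⟩ : ∃ t : ℝ, 0 < t ∧ t < 1 ∧ 4 * t < ε := by
    refine ⟨min (1 / 2) (ε / 8), by positivity, ?_, ?_⟩
    · exact lt_of_le_of_lt (min_le_left _ _) (by norm_num)
    · have := min_le_right (1 / 2 : ℝ) (ε / 8)
      linarith
  have hden : 0 < 1 + t ^ 2 := by positivity
  set c : ℝ := (1 - t ^ 2) / (1 + t ^ 2) with hc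
  set s : ℝ := 2 * t / (1 + t ^ 2) with hs
  have hcs : c ^ 2 + s ^ 2 = 1 := by
    rw [hc, hs]; field_simp; ring
  have hs0 : 0 < s := by rw [hs]; positivity
  have hc0 : 0 < c := by
    rw [hc]; apply div_pos _ hden; nlinarith
  have hc1 : c < 1 := by
    rw [hc, div_lt_one hden]; nlinarith
  have hs1 : s ≤ 2 * t := by
    rw [hs, div_le_iff₀ hden]; nlinarith [mul_pos ht0 (pow_pos ht0 2)]
  have hc2 : 1 - c ≤ 2 * t := by
    have : 1 - c = 2 * t ^ 2 / (1 + t ^ 2) := by rw [hc]; field_simp; ring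
    rw [this, div_le_iff₀ hden]
    nlinarith [mul_pos ht0 (pow_pos ht0 2)]
  have hb1 : |u.1| ≤ 1 := by
    rw [abs_le]; constructor <;> nlinarith [sq_nonneg u.2]
  have hb2 : |u.2| ≤ 1 := by
    rw [abs_le]; constructor <;> nlinarith [sq_nonneg u.1]
  -- sign of the rotation
  obtain ⟨σ, hσ, hσu⟩ : ∃ σ : ℝ, (σ = s ∨ σ = -s) ∧ u.1 * σ ≤ 0 := by
    rcases le_or_gt u.1 0 with h1 | h1
    · exact ⟨s, Or.inl rfl, mul_nonpos_of_nonpos_of_nonneg h1 hs0.le⟩
    · exact ⟨-s, Or.inr rfl, by nlinarith⟩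
  have hσ2 : σ ^ 2 = s ^ 2 := by
    rcases hσ with rfl | rfl <;> ring
  have hσabs : |σ| = s := by
    rcases hσ with rfl | rfl
    · exact abs_of_pos hs0
    · rw [abs_neg]; exact abs_of_pos hs0
  refine ⟨(u.1 * c - u.2 * σ, u.1 * σ + u.2 * c), ?_, ?_, ?_, ?_⟩
  · change (u.1 * c - u.2 * σ) ^ 2 + (u.1 * σ + u.2 * c) ^ 2 = 1
    have : (u.1 * c - u.2 * σ) ^ 2 + (u.1 * σ + u.2 * c) ^ 2 =
        (u.1 ^ 2 + u.2 ^ 2) * (c ^ 2 + σ ^ 2) := by ring
    rw [this, hu', hσ2, hcs]; norm_num
  · change u.1 * σ + u.2 * c ≤ 0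
    have : u.2 * c ≤ 0 := mul_nonpos_of_nonpos_of_nonneg h2 hc0.le
    linarith
  · rw [Prod.dist_eq, max_lt_iff]
    have hkey : ∀ a b : ℝ, |a| ≤ 1 → |b| ≤ 1 → ∀ τ : ℝ, |τ| = s → |a * (c - 1) + b * τ| < ε := by
      intro a b ha hb τ hτ
      calc |a * (c - 1) + b * τ| ≤ |a * (c - 1)| + |b * τ| := abs_add_le _ _
        _ = |a| * (1 - c) + |b| * s := by
            rw [abs_mul, abs_mul, hτ, abs_of_neg (by linarith : c - 1 < 0)]; ring
        _ ≤ 1 * (1 - c) + 1 * s := by
            refine add_le_add (mul_le_mul_of_nonneg_right ha (by linarith))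
              (mul_le_mul_of_nonneg_right hb hs0.le)
        _ < ε := by linarith
    constructor
    · rw [Real.dist_eq]
      have := hkey u.1 u.2 hb1 hb2 (-σ) (by rw [abs_neg]; exact hσabs)
      have he : u.1 * c - u.2 * σ - u.1 = u.1 * (c - 1) + u.2 * -σ := by ring
      rw [he]; exact this
    · rw [Real.dist_eq]
      have := hkey u.2 u.1 hb2 hb1 σ hσabs
      have he : u.1 * σ + u.2 * c - u.2 = u.2 * (c - 1) + u.1 * σ := by ring
      rw [he]; exact this
  · intro he
    have h3 := (Prod.ext_iff.mp he).1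
    have h4 := (Prod.ext_iff.mp he).2
    simp only at h3 h4
    have h5 : (u.1 ^ 2 + u.2 ^ 2) * c = u.1 ^ 2 + u.2 ^ 2 := by
      linear_combination u.1 * h3 + u.2 * h4
    rw [hu'] at h5
    linarith

private lemma fam_alpha_low {S : List (List ℕ)} (hS : S ≠ []) (h : ∀ s ∈ S, s ≠ [] ∧ 0 ∉ s)
    {u : ℝ × ℝ} (hu : u ∈ circle) (h2 : u.2 ≤ 0) : alpha (fam S) u = ⊤ := by
  have hst : Stable (fam S) u := (stable_fam_iff hS h hu).mpr (Or.inr h2)
  have hni : ¬ IsolatedStable (fam S) u := by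
    rintro ⟨_, ε, hε, hiso⟩
    obtain ⟨w, hw, hw2, hd, hne⟩ := fam_rotate hu h2 hε
    exact hne (hiso w hw ((stable_fam_iff hS h hw).mpr (Or.inr hw2)) hd)
  unfold alpha
  rw [if_neg (not_not.mpr hst), if_neg hni]

private lemma fam_alpha_top {S : List (List ℕ)} (hS : S ≠ []) (h : ∀ s ∈ S, s ≠ [] ∧ 0 ∉ s) :
    alpha (fam S) (0, 1) = ⨅ Z : {Z : Set (ℤ × ℤ) // Growing (fam S) (0, 1) Z}, Z.1.encard := by
  have hst : Stable (fam S) (0, 1) :=
    (stable_fam_iff hS h fam_top_mem_circle).mpr (Or.inl rfl)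
  have hiso : IsolatedStable (fam S) (0, 1) := by
    refine ⟨hst, 1 / 2, by norm_num, ?_⟩
    intro w hw hws hd
    rcases (stable_fam_iff hS h hw).mp hws with h1 | h1
    · exact h1
    · exfalso
      rw [Prod.dist_eq, max_lt_iff] at hd
      have h3 := hd.2
      rw [Real.dist_eq, abs_lt] at h3
      linarith [h3.1]
  unfold alpha
  rw [if_neg (not_not.mpr hst), if_pos hiso]

private lemma fam_alpha_le {S : List (List ℕ)} (hS : S ≠ []) (h : ∀ s ∈ S, s ≠ [] ∧ 0 ∉ s)
    {u : ℝ × ℝ} (hu : u ∈ circle) (h2 : 0 < u.2) :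
    alpha (fam S) u ≤ alpha (fam S) (0, 1) := by
  by_cases hne : u = (0, 1)
  · rw [hne]
  · have hns : ¬ Stable (fam S) u := by
      intro hst
      rcases (stable_fam_iff hS h hu).mp hst with h1 | h1
      · exact hne h1
      · linarith
    have : alpha (fam S) u = 0 := by
      unfold alpha
      rw [if_pos hns]
    rw [this]
    exact bot_le

theorem difficulty_fam {S : List (List ℕ)} (hS : S ≠ []) (h : ∀ s ∈ S, s ≠ [] ∧ 0 ∉ s) :
    difficulty (fam S) =
      ⨅ Z : {Z : Set (ℤ × ℤ) // Growing (fam S) (0, 1) Z}, Z.1.encard := by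
  rw [← fam_alpha_top hS h]
  unfold difficulty
  apply le_antisymm
  · refine iInf_le_of_le (⟨(0, 1), fam_top_mem_circle⟩ : {v : ℝ × ℝ // v ∈ circle}) ?_
    refine iSup_le ?_
    rintro ⟨u, hu, hu2⟩
    simp only [mul_zero, mul_one, zero_add] at hu2
    exact fam_alpha_le hS h hu hu2
  · refine le_iInf ?_
    rintro ⟨v, hv⟩
    have hv' : v.1 ^ 2 + v.2 ^ 2 = 1 := hv
    by_cases hvt : v = (0, 1)
    · refine le_iSup_of_le (⟨(0, 1), fam_top_mem_circle, ?_⟩ :
        {u : ℝ × ℝ // u ∈ semicircle v}) le_rfl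
      rw [hvt]; norm_num
    · obtain ⟨u, hu, hu2⟩ : ∃ u ∈ semicircle v, u.2 ≤ 0 := by
        rcases le_or_gt v.2 0 with h2 | h2
        · refine ⟨v, ⟨hv, ?_⟩, h2⟩
          nlinarith
        · have h1 : v.1 ≠ 0 := by
            intro h1
            apply hvt
            have h4 : v.2 = 1 := by
              have h5 : (v.2 - 1) * (v.2 + 1) = 0 := by
                rw [h1] at hv'; ring_nf; linarith
              rcases mul_eq_zero.mp h5 with h6 | h6
              · linarith
              · linarith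
            exact Prod.ext h1 h4
          rcases lt_or_gt_of_ne h1 with h1 | h1
          · refine ⟨(-1, 0), ⟨?_, ?_⟩, le_rfl⟩
            · change (-1 : ℝ) ^ 2 + 0 ^ 2 = 1
              norm_num
            · simp only
              linarith
          · refine ⟨(1, 0), ⟨?_, ?_⟩, le_rfl⟩
            · change (1 : ℝ) ^ 2 + 0 ^ 2 = 1
              norm_num
            · simp only
              linarith
      refine le_iSup_of_le (⟨u, hu⟩ : {u : ℝ × ℝ // u ∈ semicircle v}) ?_
      rw [fam_alpha_low hS h hu.1 hu2]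
      exact le_top

end Pool.Agent.Lib.MP_3da8ac_lc
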