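import Mathlib
import Pool.Agent.Lib.PolyTime.Reduce

/-!
# Iterating a polynomial-time function
-/

set_option autoImplicit false

namespace Pool.Agent.Lib.MP_3da8ac_lc

open Pool.Agent.Lib.PolyTime Function Encodable

/-- Iteration of a polynomial-time function, when the number of iterations is given in unary and
the intermediate results are of polynomial length. -/
theorem isPoly_iterate {α S A B C : Type} [Encodable A] [Fintype A] [Encodable B] [Fintype B]
    [Encodable C] [Fintype C] {X : α → Prop} {ea : α → List A} {es : S → List B} {Y : S → Prop}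
    {init : α → S} {f : S → S} {cnt : α → List C} (b : Polynomial ℕ)
    (hf : IsPoly Y es (fun s => es (f s))) (hYf : ∀ s, Y s → Y (f s))
    (hinit : IsPoly X ea (fun a => es (init a))) (hY : ∀ a, X a → Y (init a))
    (hcnt : IsPoly X ea cnt)
    (hb : ∀ a, X a → ∀ i ≤ (cnt a).length, (es (f^[i] (init a))).length ≤ b.eval (ea a).length) :
    IsPoly X ea (fun a => es (f^[(cnt a).length] (init a))) := by
  obtain ⟨ι, τ, hι, hτ, τ₀, p, hlen, h⟩ := hf
  obtain ⟨ι', τ', hι', hτ', τ₀', p', hlen', h'⟩ := hinit
  obtain ⟨ι'', τ'', hι'', hτ'', τ₀'', p'', hlen'', h''⟩ := hcnt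
  refine ⟨(ι ⊕ ι') ⊕ (ι'' ⊕ Fin 4), (Option C × Option B) × (τ × (τ' × τ'')), inferInstance,
    inferInstance, ((none, none), (τ₀, (τ₀', τ₀''))),
    p'' + p' + (p.comp b + (9 * b + 8)) * p'' + (7 * b + 6), ?_, ?_⟩
  · intro a ha
    have h1 := hb a ha (cnt a).length le_rfl
    simp only [Polynomial.eval_add, Polynomial.eval_mul, Polynomial.eval_ofNat]
    omega
  · intro K σ _ inp out loc L h1 h2 h3 h4
    set Cs : K := loc (Sum.inr (Sum.inr 0)) with hCs
    set Ss : K := loc (Sum.inr (Sum.inr 1)) with hSs
    set Ts : K := loc (Sum.inr (Sum.inr 2)) with hTs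
    set Us : K := loc (Sum.inr (Sum.inr 3)) with hUs
    have nCI : Cs ≠ inp := h3 _
    have nSI : Ss ≠ inp := h3 _
    have nTI : Ts ≠ inp := h3 _
    have nUI : Us ≠ inp := h3 _
    have nCO : Cs ≠ out := h4 _
    have nSO : Ss ≠ out := h4 _
    have nTO : Ts ≠ out := h4 _
    have nUO : Us ≠ out := h4 _
    have nCS : Cs ≠ Ss := h2.ne (by simp)
    have nCT : Cs ≠ Ts := h2.ne (by simp)
    have nCU : Cs ≠ Us := h2.ne (by simp)
    have nST : Ss ≠ Ts := h2.ne (by simp)
    have nSU : Ss ≠ Us := h2.ne (by simp)
    have nTU : Ts ≠ Us := h2.ne (by simp)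
    let cur : Lens σ (Option C) := L.fst.fst
    let reg : Lens σ (Option B) := L.fst.snd
    obtain ⟨c, hc, hrun⟩ := h K σ Ss Ts (fun i => loc (Sum.inl (Sum.inl i))) L.snd.fst
      nST (h2.comp (Sum.inl_injective.comp Sum.inl_injective)) (fun i => h2.ne (by simp))
      (fun i => h2.ne (by simp))
    obtain ⟨c', hc', hrun'⟩ := h' K σ inp Ss (fun i => loc (Sum.inl (Sum.inr i))) L.snd.snd.fst
      nSI.symm (h2.comp (Sum.inl_injective.comp Sum.inr_injective)) (fun i => h3 _)
      (fun i => h2.ne (by simp))
    obtain ⟨c'', hc'', hrun''⟩ := h'' K σ inp Cs (fun i => loc (Sum.inr (Sum.inl i)))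
      L.snd.snd.snd nCI.symm (h2.comp (Sum.inr_injective.comp Sum.inl_injective))
      (fun i => h3 _) (fun i => h2.ne (by simp))
    let body : Cmd K σ := .seq c (.seq (clear reg Ss) (.seq (mv2 reg Ts Us) (mv2 reg Us Ss)))
    refine ⟨.seq c'' (.seq c' (.seq (each cur Cs body) (.seq (mv2 reg Ss Ts)
      (mv2 reg Ts out)))), ?_, ?_⟩
    · have oC : Cs = inp ∨ Cs = out ∨ ∃ i, Cs = loc i := Or.inr (Or.inr ⟨_, hCs⟩)
      have oS : Ss = inp ∨ Ss = out ∨ ∃ i, Ss = loc i := Or.inr (Or.inr ⟨_, hSs⟩)
      have oT : Ts = inp ∨ Ts = out ∨ ∃ i, Ts = loc i := Or.inr (Or.inr ⟨_, hTs⟩)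
      have oU : Us = inp ∨ Us = out ∨ ∃ i, Us = loc i := Or.inr (Or.inr ⟨_, hUs⟩)
      refine ⟨hc''.mono ?_, hc'.mono ?_, ⟨trivial, ⟨hc.mono ?_, ⟨trivial, trivial, trivial⟩,
        ⟨trivial, oU, trivial⟩, ⟨trivial, oS, trivial⟩⟩, trivial⟩, ⟨trivial, oT, trivial⟩,
        ⟨trivial, Or.inr (Or.inl rfl), trivial⟩⟩
      · rintro k (h | h | ⟨i, h⟩)
        · exact Or.inl h
        · exact h ▸ oC
        · exact Or.inr (Or.inr ⟨_, h⟩)
      · rintro k (h | h | ⟨i, h⟩)
        · exact Or.inl h
        · exact h ▸ oS
        · exact Or.inr (Or.inr ⟨_, h⟩)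
      · rintro k (h | h | ⟨i, h⟩)
        · exact h ▸ oS
        · exact h ▸ oT
        · exact Or.inr (Or.inr ⟨_, h⟩)
    · intro a ha v S hv hinp hloc
      let st : List ℕ → List ℕ → List ℕ → List ℕ → List ℕ → K → List ℕ :=
        fun xc xs xt xu xo k => if k = Cs then xc else if k = Ss then xs else
          if k = Ts then xt else if k = Us then xu else if k = out then xo else S k
      have gC : ∀ xc xs xt xu xo, st xc xs xt xu xo Cs = xc := by
        intros; simp [st]
      have gS : ∀ xc xs xt xu xo, st xc xs xt xu xo Ss = xs := by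
        intros; simp [st, nCS.symm]
      have gT : ∀ xc xs xt xu xo, st xc xs xt xu xo Ts = xt := by
        intros; simp [st, nCT.symm, nST.symm]
      have gU : ∀ xc xs xt xu xo, st xc xs xt xu xo Us = xu := by
        intros; simp [st, nCU.symm, nSU.symm, nTU.symm]
      have gO : ∀ xc xs xt xu xo, st xc xs xt xu xo out = xo := by
        intros; simp [st, nCO.symm, nSO.symm, nTO.symm, nUO.symm]
      have gI : ∀ xc xs xt xu xo, st xc xs xt xu xo inp = S inp := by
        intros; simp [st, nCI.symm, nSI.symm, nTI.symm, nUI.symm, h1]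
      have gloc : ∀ xc xs xt xu xo i, (∀ j : Fin 4, i ≠ Sum.inr (Sum.inr j)) →
          st xc xs xt xu xo (loc i) = [] := by
        intro xc xs xt xu xo i hi
        have e1 : loc i ≠ Cs := h2.ne (hi 0)
        have e2 : loc i ≠ Ss := h2.ne (hi 1)
        have e3 : loc i ≠ Ts := h2.ne (hi 2)
        have e4 : loc i ≠ Us := h2.ne (hi 3)
        have e5 : loc i ≠ out := h4 _
        simp only [st, e1, e2, e3, e4, e5, if_false]
        exact hloc _
      have uC : ∀ xc xs xt xu xo y, update (st xc xs xt xu xo) Cs y = st y xs xt xu xo := by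
        intros; funext k; by_cases e : k = Cs
        · subst e; simp [st]
        · simp [st, e]
      have uS : ∀ xc xs xt xu xo y, update (st xc xs xt xu xo) Ss y = st xc y xt xu xo := by
        intros; funext k; by_cases e : k = Ss
        · subst e; simp [gS]
        · simp [st, e]
      have uT : ∀ xc xs xt xu xo y, update (st xc xs xt xu xo) Ts y = st xc xs y xu xo := by
        intros; funext k; by_cases e : k = Ts
        · subst e; simp [gT]
        · simp [st, e]
      have uU : ∀ xc xs xt xu xo y, update (st xc xs xt xu xo) Us y = st xc xs xt y xo := by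
        intros; funext k; by_cases e : k = Us
        · subst e; simp [gU]
        · simp [st, e]
      have uO : ∀ xc xs xt xu xo y, update (st xc xs xt xu xo) out y = st xc xs xt xu y := by
        intros; funext k; by_cases e : k = out
        · subst e; simp [gO]
        · simp [st, e]
      have hS0 : S = st [] [] [] [] (S out) := by
        funext k
        by_cases e1 : k = Cs
        · subst e1; rw [gC]; exact hloc _
        by_cases e2 : k = Ss
        · subst e2; rw [gS]; exact hloc _
        by_cases e3 : k = Ts
        · subst e3; rw [gT]; exact hloc _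
        by_cases e4 : k = Us
        · subst e4; rw [gU]; exact hloc _
        by_cases e5 : k = out
        · subst e5; rw [gO]
        · simp [st, e1, e2, e3, e4, e5]
      have hcur0 : cur.get v = none := by
        simp only [cur]
        rw [L.fst.fst_get_of (L.fst_get_of hv)]
      have hreg0 : reg.get v = none := by
        simp only [reg]
        rw [L.fst.snd_get_of (L.fst_get_of hv)]
      have hregcur : ∀ w y, reg.get (cur.put y w) = reg.get w := by
        intro w y
        exact L.fst.snd_get_fst_put y w
      have hgcur : ∀ w y, L.snd.fst.get (cur.put y w) = L.snd.fst.get w := by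
        intro w y
        simp [cur, Lens.fst, Lens.snd]
      have hv2 : L.snd.get v = (τ₀, (τ₀', τ₀'')) := L.snd_get_of hv
      have hg0 : L.snd.fst.get v = τ₀ := L.snd.fst_get_of hv2
      have hv3 : L.snd.snd.get v = (τ₀', τ₀'') := L.snd.snd_get_of hv2
      set n := (ea a).length with hn
      -- counter
      have r1 := hrun'' a ha v S (L.snd.snd.snd_get_of hv3) hinp (fun i => hloc _)
      have e1 : update S Cs ((cnt a).map encode ++ S Cs) =
          st ((cnt a).map encode) [] [] [] (S out) := by
        rw [show S Cs = [] from hloc _, List.append_nil]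
        conv_lhs => rw [hS0]
        rw [uC]
      rw [e1] at r1
      -- initial state
      have r2 := hrun' a ha v (st ((cnt a).map encode) [] [] [] (S out))
        (L.snd.snd.fst_get_of hv3) (by rw [gI]; exact hinp) (fun i => gloc _ _ _ _ _ _ (by simp))
      rw [uS, gS, List.append_nil] at r2
      -- the loop
      have hYi : ∀ i, Y (f^[i] (init a)) := by
        intro i
        induction i with
        | zero => exact hY a ha
        | succ i ih =>
          rw [iterate_succ_apply']
          exact hYf _ ih
      obtain ⟨v', S', hloop, hP⟩ := runs_each cur Cs body (p.eval (b.eval n) + (9 * b.eval n + 6))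
        (fun l w T => ∃ i, i + l.length = (cnt a).length ∧ cur.put none w = v ∧
          T = st (l.map encode) ((es (f^[i] (init a))).map encode) [] [] (S out))
        (by
          rintro l w T ⟨i, -, -, rfl⟩
          rw [gC])
        (by
          rintro x l w T ⟨i, hi, hw, rfl⟩
          rw [List.length_cons] at hi
          have hregw : reg.get w = none := by
            rw [← hregcur w none, hw]
            exact hreg0
          have hgw : L.snd.fst.get w = τ₀ := by
            rw [← hgcur w none, hw]
            exact hg0
          set w1 := cur.put (some x) w with hw1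
          have hreg1 : reg.get w1 = none := by rw [hw1, hregcur]; exact hregw
          have hg1 : L.snd.fst.get w1 = τ₀ := by rw [hw1, hgcur]; exact hgw
          rw [uC]
          have s1 := hrun (f^[i] (init a)) (hYi i) w1
            (st (l.map encode) ((es (f^[i] (init a))).map encode) [] [] (S out)) hg1
            (gS _ _ _ _ _) (fun i => gloc _ _ _ _ _ _ (by simp))
          rw [uT, gT, List.append_nil] at s1
          have s2 := runs_clear reg (k := Ss) (v := w1)
            (S := st (l.map encode) ((es (f^[i] (init a))).map encode)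
              ((es (f (f^[i] (init a)))).map encode) [] (S out))
            (l := es (f^[i] (init a))) hreg1 (gS _ _ _ _ _)
          rw [uS] at s2
          have s3 := runs_mv2 reg (k₁ := Ts) (k₂ := Us) nTU (v := w1)
            (S := st (l.map encode) []
              ((es (f (f^[i] (init a)))).map encode) [] (S out))
            (l := es (f (f^[i] (init a)))) hreg1 (gT _ _ _ _ _)
          rw [uT, uU, gU, List.append_nil] at s3
          have s4 := runs_mv2 reg (k₁ := Us) (k₂ := Ss) nSU.symm (v := w1)
            (S := st (l.map encode) [] []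
              ((es (f (f^[i] (init a)))).reverse.map encode) (S out))
            (l := (es (f (f^[i] (init a)))).reverse) hreg1 (gU _ _ _ _ _)
          rw [uU, uS, gS, List.append_nil, List.reverse_reverse] at s4
          refine ⟨w1, _, (s1.seq (s2.seq (s3.seq s4))).mono ?_, i + 1, by omega, ?_, ?_⟩
          · have b1 := hb a ha i (by omega)
            have b2 := hb a ha (i + 1) (by omega)
            rw [iterate_succ_apply'] at b2
            have b3 := eval_mono p b1
            rw [← hn] at b1 b2 b3
            simp only [List.length_reverse]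
            omega
          · rw [hw1, cur.put_put]
            exact hw
          · rw [iterate_succ_apply'])
        (cnt a) v _ ⟨0, by simp, cur.put_eq hcur0, rfl⟩
      obtain ⟨i, hi, hv', rfl⟩ := hP
      rw [hv'] at hloop
      rw [List.length_nil, Nat.add_zero] at hi
      subst hi
      set z := es (f^[(cnt a).length] (init a)) with hz
      have r3 := runs_mv2 reg (k₁ := Ss) (k₂ := Ts) nST (v := v)
        (S := st (([] : List C).map encode) (z.map encode) [] [] (S out)) (l := z) hreg0
        (gS _ _ _ _ _)
      rw [uS, uT, gT, List.append_nil] at r3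
      have r4 := runs_mv2 reg (k₁ := Ts) (k₂ := out) nTO (v := v)
        (S := st (([] : List C).map encode) [] (z.reverse.map encode) [] (S out))
        (l := z.reverse) hreg0 (gT _ _ _ _ _)
      rw [uT, uO, gO, List.reverse_reverse] at r4
      refine ((r1.seq (r2.seq (hloop.seq (r3.seq r4)))).of_eq rfl ?_).mono ?_
      · conv_rhs => rw [hS0, uO]
        rw [gO]
        rfl
      · have b1 := hb a ha _ le_rfl
        have b4 := hlen'' a ha
        rw [← hn] at b1 b4
        rw [← hz] at b1
        simp only [← hn, List.length_reverse, Polynomial.eval_add, Polynomial.eval_mul,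
          Polynomial.eval_ofNat, Polynomial.eval_comp]
        have b5 : (p.eval (b.eval n) + (9 * b.eval n + 6) + 2) * (cnt a).length ≤
            (p.eval (b.eval n) + (9 * b.eval n + 8)) * p''.eval n :=
          Nat.mul_le_mul (by omega) b4
        omega

end Pool.Agent.Lib.MP_3da8ac_lc
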