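import Pool.Agent.Lib.MP_3da8ac_lc.Fam

/-!
# Tile systems and their rules
-/

set_option autoImplicit false

namespace Pool.Agent.Lib.MP_3da8ac_lc

/-- The value of a binary word (least significant bit first). -/
def val : List Bool → ℕ
  | [] => 0
  | b :: l => b.toNat + 2 * val l

/-- A tile system: a finite set of tiles with a condition on windows of four tiles (at positions
`c`, `c + 1`, `c + N`, `c + N + 1`), special tiles and pinned tiles. -/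
structure TileSys where
  /-- tiles -/
  T : Type
  [fin : Fintype T]
  [dec : DecidableEq T]
  /-- special tiles -/
  sp : T → Prop
  /-- pinned tiles -/
  pin : T → Prop
  /-- the window condition -/
  R : T → T → T → T → Prop
  /-- parity -/
  par : T → Bool
  hpar : ∀ t₁ t₂ t₃ t₄, R t₁ t₂ t₃ t₄ → ¬ sp t₂ → par t₂ = !par t₁

attribute [instance] TileSys.fin TileSys.dec

namespace TileSys

variable (𝒯 : TileSys)

/-- A tiling of the cyclic strip of length `N² + 1` by the tiles, with exactly one special tile, at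
position `0`, and a pinned tile at position `X`. -/
def Tiling (N X : ℕ) (τ : ℕ → 𝒯.T) : Prop :=
  (∀ c, τ (c + (N ^ 2 + 1)) = τ c) ∧ (∀ c, 𝒯.R (τ c) (τ (c + 1)) (τ (c + N)) (τ (c + N + 1))) ∧
    𝒯.sp (τ 0) ∧ (∀ c, 0 < c → c < N ^ 2 + 1 → ¬ 𝒯.sp (τ c)) ∧ 𝒯.pin (τ X)

/-- The number of tiles. -/
abbrev n : ℕ := Fintype.card 𝒯.T

/-- The word of a tile: a unit vector between two bits `true`. -/
noncomputable def word (t : 𝒯.T) : List Bool :=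
  true :: (List.ofFn (fun i : Fin 𝒯.n => decide (i = Fintype.equivFin 𝒯.T t)) ++ [true])

/-- The number of a tile. -/
noncomputable def p (t : 𝒯.T) : ℕ := val (𝒯.word t)

/-- The basic length. -/
def Q : ℕ := 2 ^ (𝒯.n + 2)

open Classical in
/-- The rule at the start of a block with a window. -/
noncomputable def ruleM (N : ℕ) (w : 𝒯.T × 𝒯.T × 𝒯.T × 𝒯.T) : List ℕ :=
  (if 𝒯.sp w.1 then [1] else []) ++
  [𝒯.p w.1, 𝒯.p w.1 + 𝒯.Q,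
    8 * 𝒯.Q, 8 * 𝒯.Q + 𝒯.p w.2.1, 8 * 𝒯.Q + 𝒯.p w.2.1 + 𝒯.Q,
    N * (8 * 𝒯.Q), N * (8 * 𝒯.Q) + 𝒯.p w.2.2.1, N * (8 * 𝒯.Q) + 𝒯.p w.2.2.1 + 𝒯.Q,
    (N + 1) * (8 * 𝒯.Q), (N + 1) * (8 * 𝒯.Q) + 𝒯.p w.2.2.2,
    (N + 1) * (8 * 𝒯.Q) + 𝒯.p w.2.2.2 + 𝒯.Q,
    (N ^ 2 + 1) * (8 * 𝒯.Q)]

/-- The rule at the first data point of a block. -/
noncomputable def ruleD (N : ℕ) (t : 𝒯.T) : List ℕ :=
  [𝒯.Q, 8 * 𝒯.Q - 𝒯.p t, (N ^ 2 + 1) * (8 * 𝒯.Q) - 𝒯.p t, (N ^ 2 + 1) * (8 * 𝒯.Q)]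

/-- The rule at the second data point of a block. -/
noncomputable def ruleD' (N : ℕ) (t : 𝒯.T) : List ℕ :=
  [(N ^ 2 + 1) * (8 * 𝒯.Q) - 𝒯.Q, 8 * 𝒯.Q - 𝒯.p t - 𝒯.Q,
    (N ^ 2 + 1) * (8 * 𝒯.Q) - 𝒯.p t - 𝒯.Q, (N ^ 2 + 1) * (8 * 𝒯.Q)]

/-- The rule at the extra point, for a special tile and a pinned tile. -/
noncomputable def ruleE (N X : ℕ) (w : 𝒯.T × 𝒯.T) : List ℕ :=
  [(N ^ 2 + 1) * (8 * 𝒯.Q) - 1, 8 * 𝒯.Q - 1, 𝒯.p w.1 - 1, 𝒯.p w.1 + 𝒯.Q - 1,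
    X * (8 * 𝒯.Q) + 𝒯.p w.2 - 1, X * (8 * 𝒯.Q) + 𝒯.p w.2 + 𝒯.Q - 1, (N ^ 2 + 1) * (8 * 𝒯.Q)]

open Classical in
/-- The allowed windows. -/
noncomputable def windows : List (𝒯.T × 𝒯.T × 𝒯.T × 𝒯.T) :=
  (Finset.univ.filter (fun w : 𝒯.T × 𝒯.T × 𝒯.T × 𝒯.T => 𝒯.R w.1 w.2.1 w.2.2.1 w.2.2.2)).toList

open Classical in
/-- The pairs of a special and a pinned tile. -/
noncomputable def pins : List (𝒯.T × 𝒯.T) :=
  (Finset.univ.filter (fun w : 𝒯.T × 𝒯.T => 𝒯.sp w.1 ∧ 𝒯.pin w.2)).toList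

/-- All tiles. -/
noncomputable def tiles : List 𝒯.T := (Finset.univ : Finset 𝒯.T).toList

/-- The rules of a tile system. -/
noncomputable def rules (N X : ℕ) : List (List ℕ) :=
  𝒯.windows.map (𝒯.ruleM N) ++ (𝒯.tiles.map (𝒯.ruleD N) ++ (𝒯.tiles.map (𝒯.ruleD' N) ++
    𝒯.pins.map (𝒯.ruleE N X)))

end TileSys

end Pool.Agent.Lib.MP_3da8ac_lc
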