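import Mathlib
import Pool.Agent.Lib.MP_3da8ac_lc.TileDefs
import Pool.Agent.Lib.PolyTime.Tableau

section

/-!
# The numbers of the tiles, and elementary properties of the rules
-/

set_option autoImplicit false

namespace Pool.Agent.Lib.MP_3da8ac_lc

theorem val_append (l l' : List Bool) : val (l ++ l') = val l + 2 ^ l.length * val l' := by
  induction l with
  | nil => simp [val]
  | cons b l ih =>
    rw [List.cons_append, val, val, ih, List.length_cons, pow_succ]
    ring

theorem val_lt (l : List Bool) : val l < 2 ^ l.length := by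
  induction l with
  | nil => simp [val]
  | cons b l ih =>
    rw [val, List.length_cons, pow_succ]
    have : b.toNat ≤ 1 := Bool.toNat_le b
    omega

private theorem val_inj_of_length : ∀ {l l' : List Bool}, l.length = l'.length →
    val l = val l' → l = l' := by
  intro l
  induction l with
  | nil =>
    intro l' h _
    cases l' with
    | nil => rfl
    | cons b l' => simp at h
  | cons b l ih =>
    intro l' h hv
    cases l' with
    | nil => simp at h
    | cons b' l' =>
      rw [List.length_cons, List.length_cons] at h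
      rw [val, val] at hv
      have h1 : b.toNat ≤ 1 := Bool.toNat_le b
      have h2 : b'.toNat ≤ 1 := Bool.toNat_le b'
      have h3 : b.toNat = b'.toNat := by omega
      have h4 : val l = val l' := by omega
      rw [ih (by omega) h4]
      congr 1
      cases b <;> cases b' <;> simp_all

namespace TileSys

variable (𝒯 : TileSys)

theorem length_word (t : 𝒯.T) : (𝒯.word t).length = 𝒯.n + 2 := by
  simp [word]

/-- The numbers of the tiles are distinct. -/
theorem p_injective : Function.Injective 𝒯.p := by
  intro t t' h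
  have h1 : 𝒯.word t = 𝒯.word t' := by
    refine val_inj_of_length ?_ h
    rw [length_word, length_word]
  unfold word at h1
  rw [List.cons.injEq] at h1
  have h2 := List.append_cancel_right h1.2
  have h3 := List.ofFn_injective h2
  have h4 := congrFun h3 (Fintype.equivFin 𝒯.T t)
  simp only [decide_true] at h4
  have h5 : Fintype.equivFin 𝒯.T t = Fintype.equivFin 𝒯.T t' := of_decide_eq_true h4.symm
  exact (Fintype.equivFin 𝒯.T).injective h5

private theorem p_eq (t : 𝒯.T) : ∃ v, 𝒯.p t = 1 + 2 * (v + 2 ^ 𝒯.n) := by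
  refine ⟨val (List.ofFn (fun i : Fin 𝒯.n => decide (i = Fintype.equivFin 𝒯.T t))), ?_⟩
  unfold p word
  rw [val, val_append]
  simp [val]

theorem three_le_p (t : 𝒯.T) : 3 ≤ 𝒯.p t := by
  obtain ⟨v, hv⟩ := 𝒯.p_eq t
  have : 1 ≤ 2 ^ 𝒯.n := Nat.one_le_two_pow
  omega

theorem p_lt (t : 𝒯.T) : 𝒯.p t < 𝒯.Q := by
  have := val_lt (𝒯.word t)
  rw [length_word] at this
  exact this

private theorem nodup_of_isChain {l : List ℕ} (h : l.IsChain (· < ·)) : l.Nodup :=
  (List.isChain_iff_pairwise.1 h).imp (fun {_ _} hab => ne_of_lt hab)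

/-- Elementary properties of the rules. -/
theorem rules_ok {N X : ℕ} (hN : 2 ≤ N) (hX : 1 ≤ X) (hXN : X < N ^ 2 + 1) :
    ∀ s ∈ 𝒯.rules N X, s.Nodup ∧ 0 ∉ s ∧ (N ^ 2 + 1) * (8 * 𝒯.Q) ∈ s ∧
      ∀ d ∈ s, d ≤ (N ^ 2 + 1) * (8 * 𝒯.Q) := by
  intro s hs
  have e1 : (N + 1) * (8 * 𝒯.Q) = N * (8 * 𝒯.Q) + 8 * 𝒯.Q := by ring
  have b1 : 2 * (8 * 𝒯.Q) ≤ N * (8 * 𝒯.Q) := Nat.mul_le_mul_right _ hN
  have b2 : N * (8 * 𝒯.Q) + 2 * (8 * 𝒯.Q) ≤ (N ^ 2 + 1) * (8 * 𝒯.Q) := by
    rw [← add_mul]
    exact Nat.mul_le_mul_right _ (by nlinarith)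
  have b3 : 8 * 𝒯.Q ≤ X * (8 * 𝒯.Q) := Nat.le_mul_of_pos_left _ hX
  have b4 : X * (8 * 𝒯.Q) + 8 * 𝒯.Q ≤ (N ^ 2 + 1) * (8 * 𝒯.Q) := by
    have : (X + 1) * (8 * 𝒯.Q) ≤ (N ^ 2 + 1) * (8 * 𝒯.Q) := Nat.mul_le_mul_right _ (by omega)
    rwa [add_mul, one_mul] at this
  unfold rules at hs
  simp only [List.mem_append, List.mem_map] at hs
  rcases hs with ⟨w, _, rfl⟩ | ⟨t, _, rfl⟩ | ⟨t, _, rfl⟩ | ⟨w, _, rfl⟩
  · have p1 := 𝒯.three_le_p w.1
    have p1' := 𝒯.p_lt w.1
    have p2 := 𝒯.three_le_p w.2.1
    have p2' := 𝒯.p_lt w.2.1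
    have p3 := 𝒯.three_le_p w.2.2.1
    have p3' := 𝒯.p_lt w.2.2.1
    have p4 := 𝒯.three_le_p w.2.2.2
    have p4' := 𝒯.p_lt w.2.2.2
    unfold ruleM
    rw [e1]
    generalize 𝒯.p w.1 = q1 at *
    generalize 𝒯.p w.2.1 = q2 at *
    generalize 𝒯.p w.2.2.1 = q3 at *
    generalize 𝒯.p w.2.2.2 = q4 at *
    generalize N * (8 * 𝒯.Q) = B at *
    generalize (N ^ 2 + 1) * (8 * 𝒯.Q) = C at *
    generalize 𝒯.Q = Q at *
    refine ⟨?_, ?_, ?_, ?_⟩
    · refine nodup_of_isChain ?_
      split_ifs
      · simp only [List.cons_append, List.nil_append, List.isChain_cons_cons,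
          List.isChain_singleton, and_true]
        omega
      · simp only [List.nil_append, List.isChain_cons_cons,
          List.isChain_singleton, and_true]
        omega
    · split_ifs
      · simp only [List.cons_append, List.nil_append, List.mem_cons, List.not_mem_nil, or_false]
        omega
      · simp only [List.nil_append, List.mem_cons, List.not_mem_nil, or_false]
        omega
    · simp
    · intro d hd
      split_ifs at hd
      · simp only [List.cons_append, List.nil_append, List.mem_cons, List.not_mem_nil,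
          or_false] at hd
        omega
      · simp only [List.nil_append, List.mem_cons, List.not_mem_nil, or_false] at hd
        omega
  · have p1 := 𝒯.three_le_p t
    have p1' := 𝒯.p_lt t
    unfold ruleD
    generalize 𝒯.p t = q1 at *
    generalize N * (8 * 𝒯.Q) = B at *
    generalize (N ^ 2 + 1) * (8 * 𝒯.Q) = C at *
    generalize 𝒯.Q = Q at *
    refine ⟨?_, ?_, ?_, ?_⟩
    · simp only [List.nodup_cons, List.mem_cons, List.not_mem_nil, or_false, not_false_eq_true,
        List.nodup_nil, and_true]
      omega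
    · simp only [List.mem_cons, List.not_mem_nil, or_false]
      omega
    · simp
    · intro d hd
      simp only [List.mem_cons, List.not_mem_nil, or_false] at hd
      omega
  · have p1 := 𝒯.three_le_p t
    have p1' := 𝒯.p_lt t
    unfold ruleD'
    generalize 𝒯.p t = q1 at *
    generalize N * (8 * 𝒯.Q) = B at *
    generalize (N ^ 2 + 1) * (8 * 𝒯.Q) = C at *
    generalize 𝒯.Q = Q at *
    refine ⟨?_, ?_, ?_, ?_⟩
    · simp only [List.nodup_cons, List.mem_cons, List.not_mem_nil, or_false, not_false_eq_true,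
        List.nodup_nil, and_true]
      omega
    · simp only [List.mem_cons, List.not_mem_nil, or_false]
      omega
    · simp
    · intro d hd
      simp only [List.mem_cons, List.not_mem_nil, or_false] at hd
      omega
  · have p1 := 𝒯.three_le_p w.1
    have p1' := 𝒯.p_lt w.1
    have p2 := 𝒯.three_le_p w.2
    have p2' := 𝒯.p_lt w.2
    unfold ruleE
    generalize 𝒯.p w.1 = q1 at *
    generalize 𝒯.p w.2 = q2 at *
    generalize N * (8 * 𝒯.Q) = B at *
    generalize X * (8 * 𝒯.Q) = E at *
    generalize (N ^ 2 + 1) * (8 * 𝒯.Q) = C at *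
    generalize 𝒯.Q = Q at *
    refine ⟨?_, ?_, ?_, ?_⟩
    · simp only [List.nodup_cons, List.mem_cons, List.not_mem_nil, or_false, not_false_eq_true,
        List.nodup_nil, and_true]
      omega
    · simp only [List.mem_cons, List.not_mem_nil, or_false]
      omega
    · simp
    · intro d hd
      simp only [List.mem_cons, List.not_mem_nil, or_false] at hd
      omega

/-- There is at least one rule (if there is a tile). -/
theorem rules_ne_nil [Nonempty 𝒯.T] (N X : ℕ) : 𝒯.rules N X ≠ [] := by
  intro h
  obtain ⟨t⟩ := (inferInstance : Nonempty 𝒯.T)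
  have h1 : 𝒯.ruleD N t ∈ 𝒯.rules N X := by
    unfold rules
    simp only [List.mem_append, List.mem_map]
    right
    left
    exact ⟨t, by simp [tiles], rfl⟩
  rw [h] at h1
  simp at h1

end TileSys

end Pool.Agent.Lib.MP_3da8ac_lc
end

section

section

/-!
# Space-time diagrams of flat machines
-/

set_option autoImplicit false

namespace Pool.Agent.Lib.MP_3da8ac_lc

open Pool.Agent.Lib.PolyTime

variable (M : Flat) (kin : M.K) (q₀ : M.Q) (acc : M.Q → (M.K → Option M.A) → Prop)

/-- An accepting space-time diagram of `M` in a square of side `N`, with an arbitrary content of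
the input stack in the first row. -/
structure Diag (N : ℕ) (A : ℕ → ℕ → M.Cell) : Prop where
  start : ∀ p < N, ∀ k, k ≠ kin → (A 0 p).2 k = none
  state : (A 0 0).1 = q₀
  last : ∀ t < N, ∀ k, (A t (N - 1)).2 k = none
  accepts : acc (A (N - 1) 0).1 (A (N - 1) 0).2
  trans : ∀ t, t + 1 < N → ∀ p < N, trans M (decide (p = 0)) (decide (p + 1 = N)) (A t 0)
    (A t p) (A t (p + 1)) (A (t + 1) p) (A (t + 1) (p + 1))

/-- An accepting run gives a diagram. -/
theorem diag_of_run {N : ℕ} (hN : 0 < N) (l : List M.A)
    (hlen : ∀ t < N, ∀ k, ((M.step^[t] (startConf M kin q₀ l)).2 k).length < N)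
    (hacc : acc (M.step^[N - 1] (startConf M kin q₀ l)).1
      (fun k => ((M.step^[N - 1] (startConf M kin q₀ l)).2 k)[0]?)) :
    Diag M kin q₀ acc N (fun t p => row M (M.step^[t] (startConf M kin q₀ l)) p) := by
  refine ⟨?_, ?_, ?_, ?_, ?_⟩
  · intro p _ k hk
    simp [row, startConf, hk]
  · rfl
  · intro t ht k
    have := hlen t ht k
    simp only [row]
    rw [List.getElem?_eq_none_iff]
    omega
  · exact hacc
  · intro t ht p hp
    set c := M.step^[t] (startConf M kin q₀ l) with hc
    have hstep : M.step^[t + 1] (startConf M kin q₀ l) = M.step c := by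
      rw [Function.iterate_succ_apply', hc]
    have hd0 : ∀ k, (row M c 0).2 k = (c.2 k).head? := by
      intro k
      simp [row, List.head?_eq_getElem?]
    have hd0' : (row M c 0).2 = fun k => (c.2 k).head? := funext hd0
    simp only [PolyTime.trans, hstep]
    rw [hd0']
    have hd3 : ∀ p k, (row M (M.step c) p).2 k =
        ((M.op c.1 (fun k => (c.2 k).head?) k).apply (c.2 k))[p]? := by
      intro p k
      rfl
    refine ⟨?_, ?_⟩
    · intro hp0
      have hp0' : p = 0 := by simpa using hp0
      subst hp0'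
      refine ⟨rfl, ?_⟩
      intro k a hop
      change M.op c.1 (fun k => (c.2 k).head?) k = Op.push a at hop
      rw [hd3, hop]
      rfl
    · intro k
      refine ⟨?_, ?_, ?_⟩
      · intro hop
        change M.op c.1 (fun k => (c.2 k).head?) k = Op.keep at hop
        rw [hd3, hop]
        rfl
      · intro hop _
        change M.op c.1 (fun k => (c.2 k).head?) k = Op.pop at hop
        rw [hd3, hop, Op.apply_getElem?]
        rfl
      · intro a hop _
        change M.op c.1 (fun k => (c.2 k).head?) k = Op.push a at hop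
        rw [hd3, hop, Op.apply_getElem?]
        simp [row, hc]

/-- A diagram gives an accepting run. -/
theorem run_of_diag {N : ℕ} (hN : 0 < N) (A : ℕ → ℕ → M.Cell) (hA : Diag M kin q₀ acc N A)
    (l : List M.A) (hl : l.length < N) (h0 : ∀ p < N, (A 0 p).2 kin = l[p]?) :
    acc (M.step^[N - 1] (startConf M kin q₀ l)).1
      (fun k => ((M.step^[N - 1] (startConf M kin q₀ l)).2 k)[0]?) := by
  have key : ∀ t < N, (A t 0).1 = (M.step^[t] (startConf M kin q₀ l)).1 ∧
      (∀ k, ((M.step^[t] (startConf M kin q₀ l)).2 k).length < N) ∧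
      ∀ k, ∀ p < N, (A t p).2 k = ((M.step^[t] (startConf M kin q₀ l)).2 k)[p]? := by
    intro t
    induction t with
    | zero =>
      intro _
      refine ⟨hA.state, ?_, ?_⟩
      · intro k
        simp only [Function.iterate_zero, id_eq, startConf]
        split_ifs
        · exact hl
        · simpa using hN
      · intro k p hp
        simp only [Function.iterate_zero, id_eq, startConf]
        split_ifs with hk
        · subst hk
          exact h0 p hp
        · simpa using hA.start p hp k hk
    | succ t ih =>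
      intro ht
      obtain ⟨ih1, ih2, ih3⟩ := ih (by omega)
      set c := M.step^[t] (startConf M kin q₀ l) with hc
      have hstep : M.step^[t + 1] (startConf M kin q₀ l) = M.step c := by
        rw [Function.iterate_succ_apply', hc]
      rw [hstep]
      have htops : (A t 0).2 = fun k => (c.2 k).head? := by
        funext k
        rw [ih3 k 0 hN, List.head?_eq_getElem?]
      have htr := hA.trans t ht
      have hblank : ∀ k, (A (t + 1) (N - 1)).2 k = none := hA.last (t + 1) ht
      have hop : ∀ k, M.op (A t 0).1 (A t 0).2 k = M.op c.1 (fun k => (c.2 k).head?) k := by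
        intro k
        rw [ih1, htops]
      have hcells : ∀ k, ∀ p < N, (A (t + 1) p).2 k = ((M.step c).2 k)[p]? := by
        intro k p hp
        have hs : (M.step c).2 k = (M.op c.1 (fun k => (c.2 k).head?) k).apply (c.2 k) := rfl
        rw [hs, Op.apply_getElem?, ← hop k]
        rcases hcase : M.op (A t 0).1 (A t 0).2 k with _ | _ | a
        · rw [((htr p hp).2 k).1 hcase]
          exact ih3 k p hp
        · by_cases hpL : p + 1 = N
          · have e : p = N - 1 := by omega
            have hnone : (c.2 k)[p + 1]? = none := by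
              rw [List.getElem?_eq_none_iff]
              have := ih2 k
              omega
            rw [e, hblank k, ← e]
            exact hnone.symm
          · rw [((htr p hp).2 k).2.1 hcase (by simp [hpL])]
            exact ih3 k (p + 1) (by omega)
        · rcases p with _ | p
          · rw [((htr 0 hp).1 (by simp)).2 k a hcase]
            rfl
          · rw [((htr p (by omega)).2 k).2.2 a hcase (by simp; omega)]
            simpa using ih3 k p (by omega)
      refine ⟨?_, ?_, hcells⟩
      · rw [((htr 0 hN).1 (by simp)).1, ih1, htops]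
        rfl
      · intro k
        have hnone := hcells k (N - 1) (by omega)
        rw [hblank k] at hnone
        have := List.getElem?_eq_none_iff.1 hnone.symm
        omega
  obtain ⟨h1, h2, h3⟩ := key (N - 1) (by omega)
  have hfin := hA.accepts
  rw [h1] at hfin
  have : (A (N - 1) 0).2 =
      fun k => ((M.step^[N - 1] (startConf M kin q₀ l)).2 k)[0]? := by
    funext k
    exact h3 k 0 hN
  rw [this] at hfin
  exact hfin

end Pool.Agent.Lib.MP_3da8ac_lc
end

section

/-!
# The tile system of a machine
-/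

set_option autoImplicit false

namespace Pool.Agent.Lib.MP_3da8ac_lc

open Pool.Agent.Lib.PolyTime

/-- Types of the positions: the special position `0`, the rest of the first row, the rest of the
first column, and all other positions. -/
inductive PT : Type
  | S | I | D | O
  deriving DecidableEq, Fintype

/-- Phases of the first row: the zeros before the pinned position, the pinned position, the guessed
bits, the blanks. -/
inductive Ph : Type
  | Z | P | G | B
  deriving DecidableEq, Fintype

/-- The type of a position `c ≠ 0` from the types at `c - 1` and at `c - N`. -/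
def nextPT (l u : PT) : PT :=
  if l = PT.S ∨ l = PT.I then (if u = PT.S then PT.D else PT.I)
  else (if u = PT.D then PT.D else PT.O)

/-- The phases that may follow a phase. -/
def phNext : Ph → Ph → Prop
  | .Z, .Z => True
  | .Z, .P => True
  | .P, .G => True
  | .P, .B => True
  | .G, .G => True
  | .G, .B => True
  | .B, .B => True
  | _, _ => False

/-- The symbols of a phase. -/
def phSym {A : Type} (sy : Bool → A) : Ph → Option A → Prop
  | .Z, a => a = some (sy false)
  | .P, a => a = some (sy true)
  | .G, a => ∃ b, a = some (sy b)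
  | .B, a => a = none

variable (M : Flat) (kin : M.K) (q₀ : M.Q) (sy : Bool → M.A)
  (acc : M.Q → (M.K → Option M.A) → Prop)

/-- The tiles: type of the position, parity, phase, first cell of the row, symbols. -/
structure MTile where
  /-- type of the position -/
  pt : PT
  /-- parity -/
  par : Bool
  /-- phase -/
  ph : Ph
  /-- first cell of the row -/
  hd : M.Cell
  /-- symbols -/
  sym : M.K → Option M.A

/-- The tiles as a product. -/
def mtileEquiv : MTile M ≃ PT × Bool × Ph × M.Cell × (M.K → Option M.A) where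
  toFun t := (t.pt, t.par, t.ph, t.hd, t.sym)
  invFun s := ⟨s.1, s.2.1, s.2.2.1, s.2.2.2.1, s.2.2.2.2⟩
  left_inv _ := rfl
  right_inv _ := rfl

noncomputable instance : Fintype (MTile M) := by
  classical
  exact Fintype.ofEquiv _ (mtileEquiv M).symm

noncomputable instance : DecidableEq (MTile M) := Classical.decEq _

variable {M}

theorem nonempty_mtile (q : M.Q) : Nonempty (MTile M) :=
  ⟨⟨PT.S, true, Ph.Z, (q, fun _ => none), fun _ => none⟩⟩

/-- The cell of a tile. -/
def MTile.cell (t : MTile M) : M.Cell := (t.hd.1, t.sym)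

/-- The window is in the last row of the square. -/
def lastRow (t₃ t₄ : MTile M) : Prop :=
  t₃.pt = PT.S ∨ t₃.pt = PT.I ∨ (t₃.pt = PT.D ∧ t₄.pt = PT.S)

open Classical in
/-- The window condition at a position of the square. -/
def MWin (t₁ t₂ t₃ t₄ : MTile M) : Prop :=
  (t₂.pt ≠ PT.D → t₂.hd = t₁.hd) ∧
  (t₁.pt = PT.S ∨ t₁.pt = PT.D → t₁.sym = t₁.hd.2) ∧
  (t₂.pt = PT.D → ∀ k, t₁.sym k = none) ∧
  (t₁.pt = PT.S ∨ t₁.pt = PT.I → ∀ k, k ≠ kin → t₁.sym k = none) ∧
  (t₁.pt = PT.S → t₁.hd.1 = q₀ ∧ t₁.ph = Ph.Z) ∧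
  (t₁.pt = PT.S ∨ t₁.pt = PT.I → phSym sy t₁.ph (t₁.sym kin)) ∧
  (t₁.pt = PT.S ∨ t₁.pt = PT.I → t₂.pt ≠ PT.D → phNext t₁.ph t₂.ph) ∧
  (lastRow t₃ t₄ → t₁.pt = PT.S ∨ t₁.pt = PT.D → acc t₁.hd.1 t₁.hd.2) ∧
  (¬ lastRow t₃ t₄ → trans M (decide (t₁.pt = PT.S ∨ t₁.pt = PT.D)) (decide (t₂.pt = PT.D))
    t₁.hd t₁.cell t₂.cell t₃.cell t₄.cell)

/-- The tile system of a machine. -/
noncomputable def mtiles : TileSys where
  T := MTile M
  sp t := t.pt = PT.S
  pin t := t.pt = PT.I ∧ t.ph = Ph.P
  par t := t.par
  R t₁ t₂ t₃ t₄ := (t₂.pt ≠ PT.S → t₂.par = !t₁.par) ∧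
    (t₄.pt ≠ PT.S → t₄.pt = nextPT t₃.pt t₂.pt) ∧
    (¬ (t₁.pt = PT.D ∧ t₂.pt = PT.S) → MWin kin q₀ sy acc t₁ t₂ t₃ t₄)
  hpar := fun _ _ _ _ h h' => h.1 h'

/-- The type of the position `c`. -/
def ptAt (N c : ℕ) : PT :=
  if c = 0 then PT.S else if c < N then PT.I else if N ∣ c then PT.D else PT.O

end Pool.Agent.Lib.MP_3da8ac_lc
end
end
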