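import Pool.Agent.Lib.PolyTime.Reduce
import Pool.Agent.Lib.PolyTime.Tableau

/-!
# The flat machine of a polynomial-time predicate
-/

set_option autoImplicit false

namespace Pool.Agent.Lib.MP_3da8ac_lc

open Pool.Agent.Lib.PolyTime

/-- The run of `M` on the input `v`, after `n` steps. -/
def runOn (M : Flat) (kin : M.K) (q₀ : M.Q) (sy : Bool → M.A) (v : List Bool) (n : ℕ) : M.Conf :=
  M.step^[n] (startConf M kin q₀ (v.map sy))

/-- The configuration is accepting. -/
def AccConf (M : Flat) (acc : M.Q → (M.K → Option M.A) → Prop) (c : M.Conf) : Prop :=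
  acc c.1 (fun k => (c.2 k)[0]?)

section aux

open Turing

variable {R : List Bool → Bool}
  (TC : TM2ComputableInPolyTime (fun v : List Bool => v) (fun b : Bool => [b]) R)

/-- Symbols of the flat machine for input bits. -/
private def msy (b : Bool) : FA TC.tm := Sum.inr (TC.inputAlphabet.symm b)

/-- Initial state. -/
private noncomputable def mq₀ : (flat TC.tm).Q :=
  (⟨some (TC.tm.m TC.tm.main), stm_some_m TC.tm _⟩, TC.tm.initialState)

/-- Acceptance: the machine has halted, with the right output. -/
private def macc (q : (flat TC.tm).Q) (h : (flat TC.tm).K → Option (flat TC.tm).A) : Prop :=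
  q.1.1 = none ∧ (h TC.tm.k₁).bind (val TC.tm TC.tm.k₁) = some (TC.outputAlphabet.symm true)

/-- The time bound of the flat machine, as a function of the length of its input. -/
private noncomputable def mtime : Polynomial ℕ := Polynomial.C (stepBound TC.tm) * TC.time

private theorem mflat_halted (tm : FinTM2) (c : (flat tm).Conf) (h : c.1.1.1 = none) (n : ℕ) :
    (flat tm).step^[n] c = c := by
  have h1 : (flat tm).step c = c := by
    obtain ⟨⟨⟨o, ho⟩, v⟩, T⟩ := c
    dsimp only at h
    subst h
    rfl
  induction n with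
  | zero => rfl
  | succ n ih => rw [Function.iterate_succ_apply, h1, ih]

private theorem mrun_spec (v : List Bool) :
    ∃ s, s ≤ (mtime TC).eval v.length ∧
      ((flat TC.tm).step^[s] (startConf (flat TC.tm) TC.tm.k₀ (mq₀ TC)
          (v.map (msy TC)))).1.1.1 = none ∧
      ((((flat TC.tm).step^[s] (startConf (flat TC.tm) TC.tm.k₀ (mq₀ TC)
          (v.map (msy TC)))).2 TC.tm.k₁)[0]?).bind (val TC.tm TC.tm.k₁) =
        some (TC.outputAlphabet.symm (R v)) := by
  have hout := TC.outputsFun v
  have hn₀ := hout.evals_in_steps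
  have hle := hout.steps_le_m
  generalize hout.steps = n₀ at hn₀ hle
  change n₀ ≤ TC.time.eval v.length at hle
  obtain ⟨s, hs, hmicro⟩ := micro_iterate TC.tm n₀ _ _ hn₀
  set c₀ := startConf (flat TC.tm) TC.tm.k₀ (mq₀ TC) (v.map (msy TC)) with hc₀
  have hsim0 : Sim TC.tm c₀ (toMicro TC.tm (initList TC.tm
      (List.map TC.inputAlphabet.invFun v))) := by
    refine ⟨rfl, rfl, ?_⟩
    intro (k : TC.tm.K)
    by_cases hk : k = TC.tm.k₀
    · subst hk
      have e1 : c₀.2 TC.tm.k₀ = v.map (msy TC) := by
        rw [hc₀]
        exact if_pos rfl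
      have e2 : (toMicro TC.tm (initList TC.tm (List.map TC.inputAlphabet.invFun
          v))).2.2 TC.tm.k₀ = List.map TC.inputAlphabet.invFun v := by
        simp [toMicro, initList]
      rw [e1, e2, List.map_map, List.map_map]
      apply List.map_congr_left
      intro b _
      simp [msy, val]
    · have e1 : c₀.2 k = [] := by
        rw [hc₀]
        exact if_neg hk
      have e2 : (toMicro TC.tm (initList TC.tm (List.map TC.inputAlphabet.invFun
          v))).2.2 k = [] := by
        simp only [toMicro, initList]
        exact dif_neg hk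
      rw [e1, e2]
      rfl
  have hsim := sim_iterate TC.tm s c₀ _ hsim0
  rw [hmicro] at hsim
  have hhalt : ((flat TC.tm).step^[s] c₀).1.1.1 = none := hsim.1
  refine ⟨s, ?_, hhalt, ?_⟩
  · rw [mtime, Polynomial.eval_mul, Polynomial.eval_C]
    exact hs.trans (Nat.mul_le_mul_left _ hle)
  · have h3 := hsim.2.2 TC.tm.k₁
    have e2 : (toMicro TC.tm (haltList TC.tm (List.map TC.outputAlphabet.invFun
        [R v]))).2.2 TC.tm.k₁ = [TC.outputAlphabet.symm (R v)] := by
      show (haltList TC.tm _).stk TC.tm.k₁ = _
      simp only [haltList]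
      rw [dif_pos trivial]
      rfl
    rw [e2] at h3
    have h5 := sim_head TC.tm h3
    have h6 : ∀ l : List (FA TC.tm), l[0]? = l.head? := fun l =>
      List.head?_eq_getElem?.symm
    exact (congrArg (fun o => Option.bind o (val TC.tm TC.tm.k₁)) (h6 _)).trans h5

end aux

/-- Every polynomial-time predicate is decided by a flat machine: an accepting configuration is
reached on accepted inputs only, all configurations from some polynomial time on are accepting
for accepted inputs, and the stacks are polynomially bounded. -/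
theorem exists_machine {R : List Bool → Bool}
    (h : IsPoly (fun _ => True) (fun v : List Bool => v) (fun v => [R v])) :
    ∃ (M : Flat) (kin : M.K) (q₀ : M.Q) (sy : Bool → M.A)
      (acc : M.Q → (M.K → Option M.A) → Prop) (q : Polynomial ℕ),
      ∀ v : List Bool,
        (∀ n, AccConf M acc (runOn M kin q₀ sy v n) → R v = true) ∧
        (R v = true → ∀ n, q.eval v.length ≤ n → AccConf M acc (runOn M kin q₀ sy v n)) ∧
        (∀ n k, ((runOn M kin q₀ sy v n).2 k).length ≤ q.eval v.length) := by
  obtain ⟨TC⟩ := IsPoly.toTM2 (ea := fun v : List Bool => v) (eb := fun b : Bool => [b])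
    (f := R) h
  refine ⟨flat TC.tm, TC.tm.k₀, mq₀ TC, msy TC, macc TC, Polynomial.X + mtime TC, ?_⟩
  intro v
  obtain ⟨s, hs, hhalt, hval⟩ := mrun_spec TC v
  have hev : (Polynomial.X + mtime TC).eval v.length = v.length + (mtime TC).eval v.length := by
    rw [Polynomial.eval_add, Polynomial.eval_X]
  set c₀ := startConf (flat TC.tm) TC.tm.k₀ (mq₀ TC) (v.map (msy TC)) with hc₀
  have hconst : ∀ n, s ≤ n → (flat TC.tm).step^[n] c₀ = (flat TC.tm).step^[s] c₀ := by
    intro n hn
    obtain ⟨d, rfl⟩ := Nat.exists_eq_add_of_le hn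
    rw [Nat.add_comm, Function.iterate_add_apply, mflat_halted TC.tm _ hhalt]
  refine ⟨?_, ?_, ?_⟩
  · intro n hn
    have hn' : macc TC ((flat TC.tm).step^[n] c₀).1
        (fun k => (((flat TC.tm).step^[n] c₀).2 k)[0]?) := hn
    have hcn : (flat TC.tm).step^[max n s] c₀ = (flat TC.tm).step^[n] c₀ := by
      obtain ⟨d, hd⟩ := Nat.exists_eq_add_of_le (le_max_left n s)
      rw [hd, Nat.add_comm, Function.iterate_add_apply, mflat_halted TC.tm _ hn'.1]
    have hcs := hconst (max n s) (le_max_right n s)
    have heq : (flat TC.tm).step^[n] c₀ = (flat TC.tm).step^[s] c₀ := hcn.symm.trans hcs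
    rw [heq] at hn'
    have h6 : some (TC.outputAlphabet.symm (R v)) =
        some (TC.outputAlphabet.symm true) := hval.symm.trans hn'.2
    exact TC.outputAlphabet.symm.injective (Option.some_injective _ h6)
  · intro hR n hn
    rw [hev] at hn
    show macc TC ((flat TC.tm).step^[n] c₀).1
        (fun k => (((flat TC.tm).step^[n] c₀).2 k)[0]?)
    rw [hconst n (by omega)]
    rw [hR] at hval
    exact ⟨hhalt, hval⟩
  · intro n (k : TC.tm.K)
    show (((flat TC.tm).step^[n] c₀).2 k).length ≤ _
    rw [hev]
    have hstart : (c₀.2 k).length ≤ v.length := by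
      by_cases hk : k = TC.tm.k₀
      · have : c₀.2 k = v.map (msy TC) := if_pos hk
        rw [this]
        exact (List.length_map (msy TC)).le
      · have : c₀.2 k = [] := if_neg hk
        rw [this]
        simp
    by_cases hns : n ≤ s
    · have := (flat TC.tm).length_iterate c₀ n k
      omega
    · rw [hconst n (by omega)]
      have := (flat TC.tm).length_iterate c₀ s k
      omega

end Pool.Agent.Lib.MP_3da8ac_lc
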