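import Mathlib
import Pool.Agent.Lib.PolyTime.Reduce
import Pool.Agent.Lib.MP_3da8ac_lc.MTile

/-!
# Enumeration of the bit strings
-/

set_option autoImplicit false

namespace Pool.Agent.Lib.MP_3da8ac_lc

open Pool.Agent.Lib.PolyTime Function

/-- The next bit string in the length-lexicographic order (least significant bit first). -/
def next : List Bool → List Bool
  | [] => [false]
  | false :: l => true :: l
  | true :: l => false :: next l

theorem val_next (l : List Bool) : val (next l ++ [true]) = val (l ++ [true]) + 1 := by
  induction l with
  | nil => simp [next, val]
  | cons b l ih =>
    cases b
    · simp only [next, List.cons_append, val, Bool.toNat_true, Bool.toNat_false]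
      omega
    · simp only [next, List.cons_append, val, ih, Bool.toNat_true, Bool.toNat_false]
      omega

private theorem next_one_le_val (l : List Bool) : 1 ≤ val (l ++ [true]) := by
  induction l with
  | nil => simp [val]
  | cons b l ih =>
    simp only [List.cons_append, val]
    omega

theorem val_injective {l l' : List Bool} (h : val (l ++ [true]) = val (l' ++ [true])) :
    l = l' := by
  induction l generalizing l' with
  | nil =>
    cases l' with
    | nil => rfl
    | cons b l' =>
      exfalso
      have h1 := next_one_le_val l'
      simp only [List.nil_append, List.cons_append, val, Bool.toNat_true] at h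
      omega
  | cons b l ih =>
    cases l' with
    | nil =>
      exfalso
      have h1 := next_one_le_val l
      simp only [List.nil_append, List.cons_append, val, Bool.toNat_true] at h
      omega
    | cons b' l' =>
      simp only [List.cons_append, val] at h
      have hb : b.toNat < 2 := by cases b <;> simp
      have hb' : b'.toNat < 2 := by cases b' <;> simp
      have h1 : b.toNat = b'.toNat := by omega
      have h2 : val (l ++ [true]) = val (l' ++ [true]) := by omega
      have h3 : b = b' := by
        cases b <;> cases b' <;> simp at h1 ⊢
      rw [h3, ih h2]

theorem val_next_iterate (m : ℕ) : val (next^[m] [] ++ [true]) = m + 1 := by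
  induction m with
  | zero => simp [val]
  | succ m ih => rw [Function.iterate_succ_apply', val_next, ih]

theorem next_iterate_val (l : List Bool) : next^[val (l ++ [true]) - 1] [] = l := by
  apply val_injective
  rw [val_next_iterate]
  have := next_one_le_val l
  omega

theorem length_next_le (l : List Bool) : (next l).length ≤ l.length + 1 := by
  induction l with
  | nil => simp [next]
  | cons b l ih =>
    cases b
    · simp [next]
    · simp only [next, List.length_cons]
      omega

theorem length_next_iterate_le (m : ℕ) (l : List Bool) : (next^[m] l).length ≤ l.length + m := by
  induction m with
  | zero => simp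
  | succ m ih =>
    rw [Function.iterate_succ_apply']
    have := length_next_le (next^[m] l)
    omega

private theorem next_val_replicate (n : ℕ) : val (List.replicate n false ++ [true]) = 2 ^ n := by
  induction n with
  | zero => simp [val]
  | succ n ih =>
    rw [List.replicate_succ, List.cons_append, val, ih, Bool.toNat_false, pow_succ]
    omega

/-- The string of `n` zeros is number `2 ^ n - 1`. -/
theorem next_iterate_eq_replicate (m n : ℕ) :
    next^[m] [] = List.replicate n false ↔ m = 2 ^ n - 1 := by
  have h2 : 1 ≤ 2 ^ n := Nat.one_le_two_pow
  constructor
  · intro h
    have h1 := val_next_iterate m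
    rw [h, next_val_replicate] at h1
    omega
  · intro h
    apply val_injective
    rw [val_next_iterate, next_val_replicate, h]
    omega

/-- The strings of length at most `n` are those with a number smaller than `2 ^ (n + 1) - 1`. -/
theorem length_next_iterate_lt_iff (m n : ℕ) : (next^[m] []).length ≤ n ↔ m < 2 ^ (n + 1) - 1 := by
  have h1 := val_next_iterate m
  rw [val_append] at h1
  have h2 := val_lt (next^[m] [])
  have h3 : val [true] = 1 := by simp [val]
  rw [h3, mul_one] at h1
  constructor
  · intro h
    have h4 : 2 ^ (next^[m] []).length ≤ 2 ^ n := Nat.pow_le_pow_right (by norm_num) h
    rw [pow_succ]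
    omega
  · intro h
    by_contra hc
    have h4 : 2 ^ (n + 1) ≤ 2 ^ (next^[m] []).length :=
      Nat.pow_le_pow_right (by norm_num) (by omega)
    omega

private theorem next_foldl_false (l : List Bool) :
    l.foldl (fun (c b : Bool) => c && b) false = false := by
  induction l with
  | nil => rfl
  | cons b l ih => simpa using ih

private theorem next_transduce_false (l : List Bool) :
    transduce (fun (c b : Bool) => c && b) (fun c b => [xor c b]) false l = l := by
  induction l with
  | nil => rfl
  | cons b l ih =>
    simp only [transduce, Bool.false_and, ih]
    simp

private theorem next_eq_transduce (l : List Bool) :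
    transduce (fun (c b : Bool) => c && b) (fun c b => [xor c b]) true l ++
      (if l.foldl (fun (c b : Bool) => c && b) true then [false] else []) = next l := by
  induction l with
  | nil => simp [transduce, next]
  | cons b l ih =>
    cases b
    · simp only [transduce, List.foldl_cons, Bool.and_false, next_transduce_false,
        next_foldl_false, next]
      simp
    · simp only [transduce, List.foldl_cons, Bool.and_true, next]
      rw [List.append_assoc, ih]
      simp

theorem isPoly_next : IsPoly (fun _ => True) (fun l : List Bool => l) next := by
  have h1 : IsPoly (fun _ => True) (fun l : List Bool => l)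
      (fun l => transduce (fun (c b : Bool) => c && b) (fun c b => [xor c b]) true l) :=
    IsPoly.transduce _ _ _
  have h2 : IsPoly (fun _ => True) (fun l : List Bool => l)
      (fun l => (if l.foldl (fun (c b : Bool) => c && b) true then [false] else [])) :=
    IsPoly.out (fun (c b : Bool) => c && b) true (fun c => if c then [false] else [])
  exact (IsPoly.append h1 h2).congr (fun l _ => next_eq_transduce l)

end Pool.Agent.Lib.MP_3da8ac_lc
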