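import Pool.Agent.Lib.MP_3da8ac_lc.Fam
import Pool.Agent.Lib.MP_3da8ac_lc.MTile

section

/-!
# The growth of `fam S` over the lower half plane is a one-dimensional process
-/

set_option autoImplicit false

namespace Pool.Agent.Lib.MP_3da8ac_lc

/-- One step of the one-dimensional process with the rules `s` and their mirror images. -/
def lineStep (S : List (List ℕ)) (A : Set ℤ) : Set ℤ :=
  A ∪ {x | ∃ s ∈ S, (∀ d ∈ s, x + (d : ℤ) ∈ A) ∨ (∀ d ∈ s, x - (d : ℤ) ∈ A)}

/-- The closure of a set of integers under the one-dimensional process. -/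
def lineClosure (S : List (List ℕ)) (A : Set ℤ) : Set ℤ := ⋃ t : ℕ, (lineStep S)^[t] A

end Pool.Agent.Lib.MP_3da8ac_lc
end

section

/-!
# Infinite closures and closed sets of residues
-/

set_option autoImplicit false

namespace Pool.Agent.Lib.MP_3da8ac_lc

private theorem lc_subset_step (S : List (List ℕ)) (A : Set ℤ) : A ⊆ lineStep S A :=
  Set.subset_union_left

private theorem lc_iter_mono (S : List (List ℕ)) (A : Set ℤ) {t u : ℕ} (h : t ≤ u) :
    (lineStep S)^[t] A ⊆ (lineStep S)^[u] A := by
  induction h with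
  | refl => exact subset_rfl
  | step _ ih =>
    rw [Function.iterate_succ_apply']
    exact ih.trans (lc_subset_step S _)

private theorem lc_iter_subset_closure (S : List (List ℕ)) (A : Set ℤ) (t : ℕ) :
    (lineStep S)^[t] A ⊆ lineClosure S A :=
  Set.subset_iUnion (fun t => (lineStep S)^[t] A) t

/-- Every element of the closure is joined to an element of `A` inside its residue class. -/
private theorem lc_chain {S : List (List ℕ)} {W : ℕ} (hW : 0 < W)
    (h : ∀ s ∈ S, 0 ∉ s ∧ W ∈ s ∧ ∀ d ∈ s, d ≤ W) (A : Set ℤ) (t : ℕ) :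
    ∀ x ∈ (lineStep S)^[t] A, ∃ a ∈ A, (a : ZMod W) = (x : ZMod W) ∧
      ∀ y : ℤ, (y : ZMod W) = (x : ZMod W) → ((a ≤ y ∧ y ≤ x) ∨ (x ≤ y ∧ y ≤ a)) →
        y ∈ (lineStep S)^[t] A := by
  induction t with
  | zero =>
    intro x hx
    refine ⟨x, hx, rfl, ?_⟩
    intro y _ hy
    have : y = x := by
      rcases hy with hy | hy
      · exact le_antisymm hy.2 hy.1
      · exact le_antisymm hy.2 hy.1
    rw [this]; exact hx
  | succ t ih =>
    intro x hx
    have hstep : (lineStep S)^[t] A ⊆ (lineStep S)^[t + 1] A := lc_iter_mono S A (Nat.le_succ t)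
    have hx' := hx
    rw [Function.iterate_succ_apply'] at hx'
    rcases hx' with hx' | ⟨s, hs, hx' | hx'⟩
    · obtain ⟨a, ha, hax, hall⟩ := ih x hx'
      exact ⟨a, ha, hax, fun y hy hb => hstep (hall y hy hb)⟩
    · obtain ⟨a, ha, hax, hall⟩ := ih (x + (W : ℤ)) (hx' W (h s hs).2.1)
      have hcast : (((x + (W : ℤ) : ℤ)) : ZMod W) = (x : ZMod W) := by
        push_cast
        simp
      rw [hcast] at hax hall
      refine ⟨a, ha, hax, ?_⟩
      intro y hy hb
      rcases hb with hb | hb
      · exact hstep (hall y hy (Or.inl ⟨hb.1, by omega⟩))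
      · rcases eq_or_lt_of_le hb.1 with h1 | h1
        · rw [← h1]; exact hx
        · have hdvd : (W : ℤ) ∣ y - x := by
            rw [← ZMod.intCast_zmod_eq_zero_iff_dvd] 
            push_cast
            rw [hy, sub_self]
          have h2 : (W : ℤ) ≤ y - x := Int.le_of_dvd (by omega) hdvd
          exact hstep (hall y hy (Or.inr ⟨by omega, hb.2⟩))
    · obtain ⟨a, ha, hax, hall⟩ := ih (x - (W : ℤ)) (hx' W (h s hs).2.1)
      have hcast : (((x - (W : ℤ) : ℤ)) : ZMod W) = (x : ZMod W) := by
        push_cast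
        simp
      rw [hcast] at hax hall
      refine ⟨a, ha, hax, ?_⟩
      intro y hy hb
      rcases hb with hb | hb
      · rcases eq_or_lt_of_le hb.2 with h1 | h1
        · rw [h1]; exact hx
        · have hdvd : (W : ℤ) ∣ x - y := by
            rw [← ZMod.intCast_zmod_eq_zero_iff_dvd] 
            push_cast
            rw [hy, sub_self]
          have h2 : (W : ℤ) ≤ x - y := Int.le_of_dvd (by omega) hdvd
          exact hstep (hall y hy (Or.inl ⟨hb.1, by omega⟩))
      · exact hstep (hall y hy (Or.inr ⟨by omega, hb.2⟩))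

private theorem lc_chain_closure {S : List (List ℕ)} {W : ℕ} (hW : 0 < W)
    (h : ∀ s ∈ S, 0 ∉ s ∧ W ∈ s ∧ ∀ d ∈ s, d ≤ W) (A : Set ℤ) :
    ∀ x ∈ lineClosure S A, ∃ a ∈ A, (a : ZMod W) = (x : ZMod W) ∧
      ∀ y : ℤ, (y : ZMod W) = (x : ZMod W) → ((a ≤ y ∧ y ≤ x) ∨ (x ≤ y ∧ y ≤ a)) →
        y ∈ lineClosure S A := by
  intro x hx
  obtain ⟨t, ht⟩ := Set.mem_iUnion.1 hx
  obtain ⟨a, ha, hax, hall⟩ := lc_chain hW h A t x ht
  exact ⟨a, ha, hax, fun y hy hb => lc_iter_subset_closure S A t (hall y hy hb)⟩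

private theorem lc_below {S : List (List ℕ)} {W : ℕ} (hW : 0 < W)
    (h : ∀ s ∈ S, 0 ∉ s ∧ W ∈ s ∧ ∀ d ∈ s, d ≤ W) (A : Finset ℤ)
    (hA : ∀ b : ℤ, ∃ x ∈ lineClosure S (A : Set ℤ), x < b) :
    ∃ P : Finset (ZMod W), P.Nonempty ∧ P.card ≤ A.card ∧ Closed S P := by
  classical
  have : NeZero W := ⟨hW.ne'⟩
  set C := lineClosure S (A : Set ℤ) with hC
  let P : Finset (ZMod W) :=
    Finset.univ.filter (fun r => ∀ b : ℤ, ∃ x ∈ C, x < b ∧ (x : ZMod W) = r)
  have hPmem : ∀ r, r ∈ P ↔ ∀ b : ℤ, ∃ x ∈ C, x < b ∧ (x : ZMod W) = r := by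
    intro r; simp [P]
  -- a bound below which all elements of C have residue in P
  have hbound : ∃ B : ℤ, (∀ x ∈ C, x < B → (x : ZMod W) ∈ P) ∧ ∀ a ∈ A, B ≤ a := by
    have h1 : ∀ r : ZMod W, ∃ b : ℤ, r ∉ P → ∀ x ∈ C, x < b → (x : ZMod W) ≠ r := by
      intro r
      by_cases hr : r ∈ P
      · exact ⟨0, fun h' => absurd hr h'⟩
      · have hr' := hr
        rw [hPmem] at hr'
        push Not at hr'
        obtain ⟨b, hb⟩ := hr'
        exact ⟨b, fun _ => hb⟩
    choose b hb using h1
    obtain ⟨B1, hB1⟩ := (Set.finite_range b).bddBelow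
    obtain ⟨B2, hB2⟩ := (A : Set ℤ).toFinite.bddBelow
    refine ⟨min B1 B2, ?_, ?_⟩
    · intro x hx hxB
      by_contra hr
      exact hb _ hr x hx (lt_of_lt_of_le (lt_of_lt_of_le hxB (min_le_left _ _))
        (hB1 (Set.mem_range_self _))) rfl
    · intro a ha
      exact (min_le_right _ _).trans (hB2 (Finset.mem_coe.2 ha))
  obtain ⟨B, hB, hBA⟩ := hbound
  have hfull : ∀ x : ℤ, x < B → (x : ZMod W) ∈ P → x ∈ C := by
    intro x hx hxP
    obtain ⟨z, hzC, hzx, hzr⟩ := (hPmem _).1 hxP x
    obtain ⟨a, ha, _, hall⟩ := lc_chain_closure hW h (A : Set ℤ) z hzC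
    have haB := hBA a (Finset.mem_coe.1 ha)
    exact hall x hzr.symm (Or.inr ⟨hzx.le, by omega⟩)
  refine ⟨P, ?_, ?_, ?_⟩
  · obtain ⟨x, hx, hxB⟩ := hA B
    exact ⟨_, hB x hx hxB⟩
  · have hsub : P ⊆ A.image (fun a : ℤ => (a : ZMod W)) := by
      intro r hr
      obtain ⟨x, hxC, _, hxr⟩ := (hPmem _).1 hr 0
      obtain ⟨a, ha, hax, _⟩ := lc_chain_closure hW h (A : Set ℤ) x hxC
      rw [Finset.mem_image]
      exact ⟨a, Finset.mem_coe.1 ha, hax.trans hxr⟩
    exact (Finset.card_le_card hsub).trans Finset.card_image_le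
  · intro r hr
    by_contra hno
    push Not at hno
    have hkey : ∀ x : ℤ, x < B - W → (x : ZMod W) = r →
        ∀ s ∈ S, ∃ d ∈ s, x + (d : ℤ) ∉ C := by
      intro x hx hxr s hs
      obtain ⟨d, hd, hdP⟩ := hno s hs
      refine ⟨d, hd, ?_⟩
      intro hmem
      apply hdP
      have hdW : d ≤ W := (h s hs).2.2 d hd
      have := hB _ hmem (by omega)
      rw [← hxr]
      push_cast at this
      exact this
    have hnone : ∀ t : ℕ, ∀ x : ℤ, x < B - W → (x : ZMod W) = r →
        x ∉ (lineStep S)^[t] (A : Set ℤ) := by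
      intro t
      induction t with
      | zero =>
        intro x hx _ hmem
        have := hBA x (Finset.mem_coe.1 hmem)
        omega
      | succ t ih =>
        intro x hx hxr hmem
        rw [Function.iterate_succ_apply'] at hmem
        rcases hmem with hmem | ⟨s, hs, hmem | hmem⟩
        · exact ih x hx hxr hmem
        · obtain ⟨d, hd, hdC⟩ := hkey x hx hxr s hs
          exact hdC (lc_iter_subset_closure S _ t (hmem d hd))
        · refine ih (x - W) (by omega) ?_ (hmem W (h s hs).2.1)
          push_cast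
          simpa using hxr
    obtain ⟨x, hxC, hxB, hxr⟩ := (hPmem _).1 hr (B - W)
    obtain ⟨t, ht⟩ := Set.mem_iUnion.1 hxC
    exact hnone t x hxB hxr ht

private theorem lc_neg_step (S : List (List ℕ)) (A : Set ℤ) :
    lineStep S (Neg.neg ⁻¹' A) = Neg.neg ⁻¹' lineStep S A := by
  ext x
  simp only [lineStep, Set.mem_union, Set.mem_ofPred_eq, Set.mem_preimage]
  constructor
  · rintro (hx | ⟨s, hs, hx | hx⟩)
    · exact Or.inl hx
    · refine Or.inr ⟨s, hs, Or.inr fun d hd => ?_⟩
      have := hx d hd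
      rwa [neg_add] at this
    · refine Or.inr ⟨s, hs, Or.inl fun d hd => ?_⟩
      have := hx d hd
      rwa [neg_sub, sub_eq_neg_add] at this
  · rintro (hx | ⟨s, hs, hx | hx⟩)
    · exact Or.inl hx
    · refine Or.inr ⟨s, hs, Or.inr fun d hd => ?_⟩
      have := hx d hd
      rw [neg_sub, sub_eq_neg_add]
      exact this
    · refine Or.inr ⟨s, hs, Or.inl fun d hd => ?_⟩
      have := hx d hd
      rw [neg_add]
      exact this

private theorem lc_neg_iter (S : List (List ℕ)) (A : Set ℤ) (t : ℕ) :
    (lineStep S)^[t] (Neg.neg ⁻¹' A) = Neg.neg ⁻¹' ((lineStep S)^[t] A) := by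
  induction t with
  | zero => rfl
  | succ t ih => rw [Function.iterate_succ_apply', Function.iterate_succ_apply', ih, lc_neg_step]

private theorem lc_neg_closure (S : List (List ℕ)) (A : Set ℤ) :
    lineClosure S (Neg.neg ⁻¹' A) = Neg.neg ⁻¹' lineClosure S A := by
  unfold lineClosure
  rw [Set.preimage_iUnion]
  exact Set.iUnion_congr (lc_neg_iter S A)

/-- From a finite set of integers with infinite closure to a closed set of residues. -/
theorem exists_closed_of_infinite {S : List (List ℕ)} {W : ℕ} (hW : 0 < W)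
    (h : ∀ s ∈ S, 0 ∉ s ∧ W ∈ s ∧ ∀ d ∈ s, d ≤ W) (A : Finset ℤ)
    (hA : (lineClosure S (A : Set ℤ)).Infinite) :
    ∃ P : Finset (ZMod W), P.Nonempty ∧ P.card ≤ A.card ∧ Closed S P := by
  classical
  by_cases hb : BddBelow (lineClosure S (A : Set ℤ))
  · have ha : ¬ BddAbove (lineClosure S (A : Set ℤ)) := fun ha =>
      hA ((BddBelow.finite_of_bddAbove hb ha))
    have hunb : ∀ b : ℤ, ∃ x ∈ lineClosure S ((A.image Neg.neg : Finset ℤ) : Set ℤ), x < b := by
      intro b
      rw [not_bddAbove_iff] at ha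
      obtain ⟨x, hx, hxb⟩ := ha (-b)
      refine ⟨-x, ?_, by omega⟩
      have hco : ((A.image Neg.neg : Finset ℤ) : Set ℤ) = Neg.neg ⁻¹' (A : Set ℤ) := by
        ext y
        simp only [Finset.coe_image, Set.mem_image, Finset.mem_coe, Set.mem_preimage]
        constructor
        · rintro ⟨z, hz, rfl⟩
          simpa using hz
        · intro hy
          exact ⟨-y, hy, by simp⟩
      rw [hco, lc_neg_closure, Set.mem_preimage, neg_neg]
      exact hx
    obtain ⟨P, hP1, hP2, hP3⟩ := lc_below hW h (A.image Neg.neg) hunb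
    exact ⟨P, hP1, hP2.trans Finset.card_image_le, hP3⟩
  · rw [not_bddBelow_iff] at hb
    exact lc_below hW h A hb

private theorem lc_common_time (S : List (List ℕ)) (A : Set ℤ) (x : ℤ) (s : List ℕ)
    (hs : ∀ d ∈ s, x + (d : ℤ) ∈ lineClosure S A) :
    ∃ t : ℕ, ∀ d ∈ s, x + (d : ℤ) ∈ (lineStep S)^[t] A := by
  induction s with
  | nil => exact ⟨0, by simp⟩
  | cons d s ih =>
    obtain ⟨t, ht⟩ := ih (fun e he => hs e (List.mem_cons_of_mem _ he))
    obtain ⟨u, hu⟩ := Set.mem_iUnion.1 (hs d List.mem_cons_self)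
    refine ⟨max t u, ?_⟩
    intro e he
    rcases List.mem_cons.1 he with rfl | he
    · exact lc_iter_mono S A (le_max_right _ _) hu
    · exact lc_iter_mono S A (le_max_left _ _) (ht e he)

/-- From a closed set of residues to a finite set of integers with infinite closure. -/
theorem infinite_of_closed {S : List (List ℕ)} {W : ℕ} (hW : 0 < W)
    (h : ∀ s ∈ S, 0 ∉ s ∧ W ∈ s ∧ ∀ d ∈ s, d ≤ W) (P : Finset (ZMod W)) (hP : P.Nonempty)
    (hc : Closed S P) :
    ∃ A : Finset ℤ, A.card = P.card ∧ (lineClosure S (A : Set ℤ)).Infinite := by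
  classical
  have : NeZero W := ⟨hW.ne'⟩
  have hinj : Function.Injective (fun r : ZMod W => ((r.val : ℕ) : ℤ)) := by
    intro r r' hrr
    have h1 : ((r.val : ℕ) : ℤ) = ((r'.val : ℕ) : ℤ) := hrr
    exact ZMod.val_injective W (Int.ofNat_inj.1 h1)
  refine ⟨P.image (fun r => ((r.val : ℕ) : ℤ)), Finset.card_image_of_injective _ hinj, ?_⟩
  set A : Finset ℤ := P.image (fun r => ((r.val : ℕ) : ℤ)) with hAdef
  have hAmem : ∀ n : ℤ, 0 ≤ n → n < W → (n : ZMod W) ∈ P → n ∈ A := by
    intro n h0 h1 hn
    rw [hAdef, Finset.mem_image]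
    refine ⟨_, hn, ?_⟩
    obtain ⟨m, rfl⟩ := Int.eq_ofNat_of_zero_le h0
    have hm : m < W := by omega
    simp only [Int.cast_natCast, ZMod.val_natCast]
    rw [Nat.mod_eq_of_lt hm]
  have hall : ∀ k : ℕ, ∀ n : ℤ, n = (W : ℤ) - 1 - k → (n : ZMod W) ∈ P →
      n ∈ lineClosure S (A : Set ℤ) := by
    intro k
    induction k using Nat.strong_induction_on with
    | _ k ih =>
      intro n hn hnP
      by_cases h0 : 0 ≤ n
      · exact lc_iter_subset_closure S _ 0 (Finset.mem_coe.2 (hAmem n h0 (by omega) hnP))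
      · obtain ⟨s, hs, hsP⟩ := hc _ hnP
        have hmem : ∀ d ∈ s, n + (d : ℤ) ∈ lineClosure S (A : Set ℤ) := by
          intro d hd
          have hdW := (h s hs).2.2 d hd
          have hd0 : d ≠ 0 := fun hd' => (h s hs).1 (hd' ▸ hd)
          refine ih (k - d) (by omega) (n + d) (by omega) ?_
          push_cast
          exact hsP d hd
        obtain ⟨t, ht⟩ := lc_common_time S (A : Set ℤ) n s hmem
        refine lc_iter_subset_closure S _ (t + 1) ?_
        rw [Function.iterate_succ_apply']
        exact Or.inr ⟨s, hs, Or.inl ht⟩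
  obtain ⟨r, hr⟩ := hP
  have hval : r.val < W := ZMod.val_lt r
  refine Set.infinite_of_injective_forall_mem (f := fun k : ℕ => ((r.val : ℕ) : ℤ) - k * W) ?_ ?_
  · intro k l hkl
    simp only at hkl
    have hW' : (W : ℤ) ≠ 0 := by exact_mod_cast hW.ne'
    have : (k : ℤ) * W = l * W := by linarith
    exact_mod_cast mul_right_cancel₀ hW' this
  · intro k
    refine hall (W - 1 - r.val + k * W) _ ?_ ?_
    · have : ((W - 1 - r.val + k * W : ℕ) : ℤ) = (W : ℤ) - 1 - r.val + k * W := by
        have h1 : r.val + 1 ≤ W := hval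
        have : W - 1 - r.val = W - (r.val + 1) := by omega
        rw [this]
        push_cast [Nat.cast_sub h1]
        ring
      rw [this]
      ring
    · have : ((((r.val : ℕ) : ℤ) - k * W : ℤ) : ZMod W) = r := by
        push_cast
        simp
      rw [this]
      exact hr

end Pool.Agent.Lib.MP_3da8ac_lc
end

section

/-!
# Growth above the lower half plane and the one-dimensional process
-/

set_option autoImplicit false

namespace Pool.Agent.Lib.MP_3da8ac_lc

private theorem mem_halfPlane_iff (x : ℤ × ℤ) : x ∈ halfPlane (0, 1) ↔ x.2 < 0 := by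
  simp [halfPlane]

private theorem mem_fam_iff {S : List (List ℕ)} {U : List (ℤ × ℤ)} :
    U ∈ fam S ↔ ∃ s ∈ S, U = ((0 : ℤ), (-1 : ℤ)) :: s.map (fun d : ℕ => ((d : ℤ), (0 : ℤ))) ∨
      U = ((0 : ℤ), (-1 : ℤ)) :: s.map (fun d : ℕ => (-(d : ℤ), (0 : ℤ))) := by
  have h1 : ∀ s : List ℕ, List.flatMap (fun a : ℕ => [((a : ℤ), (0 : ℤ))]) s =
      s.map (fun d : ℕ => ((d : ℤ), (0 : ℤ))) := fun s => (List.map_eq_flatMap ..).symm
  have h2 : ∀ s : List ℕ, List.flatMap (fun a : ℕ => [(-(a : ℤ), (0 : ℤ))]) s =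
      s.map (fun d : ℕ => (-(d : ℤ), (0 : ℤ))) := fun s => (List.map_eq_flatMap ..).symm
  simp [fam, List.map_flatMap, h1, h2]

private theorem mem_step_fam_iff {S : List (List ℕ)} {A : Set (ℤ × ℤ)} {x y : ℤ} :
    (x, y) ∈ step (fam S) A ↔ (x, y) ∈ A ∨ ∃ s ∈ S, (x, y - 1) ∈ A ∧
      ((∀ d ∈ s, (x + (d : ℤ), y) ∈ A) ∨ (∀ d ∈ s, (x - (d : ℤ), y) ∈ A)) := by
  unfold step
  simp only [Set.mem_union, Set.mem_ofPred_eq]
  apply or_congr Iff.rfl
  constructor
  · rintro ⟨U, hUF, hU⟩
    obtain ⟨s, hs, rfl | rfl⟩ := mem_fam_iff.1 hUF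
    · refine ⟨s, hs, ?_, Or.inl ?_⟩
      · have := hU (0, -1) (by simp)
        simpa [sub_eq_add_neg] using this
      · intro d hd
        have := hU ((d : ℤ), 0) (List.mem_cons_of_mem _ (List.mem_map.2 ⟨d, hd, rfl⟩))
        simpa using this
    · refine ⟨s, hs, ?_, Or.inr ?_⟩
      · have := hU (0, -1) (by simp)
        simpa [sub_eq_add_neg] using this
      · intro d hd
        have := hU (-(d : ℤ), 0) (List.mem_cons_of_mem _ (List.mem_map.2 ⟨d, hd, rfl⟩))
        simpa [sub_eq_add_neg] using this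
  · rintro ⟨s, hs, hb, hd | hd⟩
    · refine ⟨_, mem_fam_iff.2 ⟨s, hs, Or.inl rfl⟩, ?_⟩
      intro u hu
      rcases List.mem_cons.1 hu with rfl | hu
      · simpa [sub_eq_add_neg] using hb
      · obtain ⟨d, hds, rfl⟩ := List.mem_map.1 hu
        simpa using hd d hds
    · refine ⟨_, mem_fam_iff.2 ⟨s, hs, Or.inr rfl⟩, ?_⟩
      intro u hu
      rcases List.mem_cons.1 hu with rfl | hu
      · simpa [sub_eq_add_neg] using hb
      · obtain ⟨d, hds, rfl⟩ := List.mem_map.1 hu
        simpa [sub_eq_add_neg] using hd d hds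

private theorem subset_step (F : Family) (A : Set (ℤ × ℤ)) : A ⊆ step F A :=
  Set.subset_union_left

private theorem subset_iterate_step (F : Family) (A : Set (ℤ × ℤ)) (t : ℕ) :
    A ⊆ (step F)^[t] A := by
  induction t with
  | zero => exact subset_rfl
  | succ t ih =>
    rw [Function.iterate_succ_apply']
    exact ih.trans (subset_step F _)

private theorem row_zero {S : List (List ℕ)} {Z : Set (ℤ × ℤ)} (t : ℕ) (x : ℤ) :
    (x, 0) ∈ (step (fam S))^[t] (halfPlane (0, 1) ∪ Z) ↔
      x ∈ (lineStep S)^[t] {x | (x, 0) ∈ Z} := by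
  induction t generalizing x with
  | zero =>
    simp only [Function.iterate_zero, id_eq, Set.mem_union, mem_halfPlane_iff, Set.mem_ofPred_eq]
    simp
  | succ t ih =>
    rw [Function.iterate_succ_apply', Function.iterate_succ_apply', mem_step_fam_iff]
    unfold lineStep
    rw [Set.mem_union, ih, Set.mem_ofPred_eq]
    apply or_congr Iff.rfl
    apply exists_congr
    intro s
    have hb : (x, (0 : ℤ) - 1) ∈ (step (fam S))^[t] (halfPlane (0, 1) ∪ Z) := by
      apply subset_iterate_step
      left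
      rw [mem_halfPlane_iff]
      norm_num
    constructor
    · rintro ⟨hs, -, hd | hd⟩
      · exact ⟨hs, Or.inl fun d h => (ih _).1 (hd d h)⟩
      · exact ⟨hs, Or.inr fun d h => (ih _).1 (hd d h)⟩
    · rintro ⟨hs, hd | hd⟩
      · exact ⟨hs, hb, Or.inl fun d h => (ih _).2 (hd d h)⟩
      · exact ⟨hs, hb, Or.inr fun d h => (ih _).2 (hd d h)⟩

private theorem row_zero_closure {S : List (List ℕ)} {Z : Set (ℤ × ℤ)} (x : ℤ) :
    (x, 0) ∈ closure (fam S) (halfPlane (0, 1) ∪ Z) ↔ x ∈ lineClosure S {x | (x, 0) ∈ Z} := by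
  unfold closure lineClosure
  simp only [Set.mem_iUnion, row_zero]

private theorem row_pos {S : List (List ℕ)} {Z : Set (ℤ × ℤ)} (t : ℕ) (x y : ℤ) (hy : 1 ≤ y)
    (hx : (x, y) ∈ (step (fam S))^[t] (halfPlane (0, 1) ∪ Z)) :
    (x, y) ∈ Z ∨ (x, y - 1) ∈ closure (fam S) (halfPlane (0, 1) ∪ Z) := by
  induction t generalizing x with
  | zero =>
    simp only [Function.iterate_zero, id_eq, Set.mem_union, mem_halfPlane_iff] at hx
    rcases hx with hx | hx
    · omega
    · exact Or.inl hx
  | succ t ih =>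
    rw [Function.iterate_succ_apply', mem_step_fam_iff] at hx
    rcases hx with hx | ⟨s, -, hb, -⟩
    · exact ih x hx
    · exact Or.inr (Set.mem_iUnion.2 ⟨t, hb⟩)

private theorem row_empty {S : List (List ℕ)} (h : ∀ s ∈ S, s ≠ [] ∧ 0 ∉ s)
    {Z : Set (ℤ × ℤ)} (y : ℤ) (hy : 0 ≤ y) (hZ : ∀ x, (x, y) ∉ Z) (t : ℕ) (x : ℤ) :
    (x, y) ∉ (step (fam S))^[t] (halfPlane (0, 1) ∪ Z) := by
  induction t generalizing x with
  | zero =>
    simp only [Function.iterate_zero, id_eq, Set.mem_union, mem_halfPlane_iff]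
    rintro (hx | hx)
    · omega
    · exact hZ x hx
  | succ t ih =>
    rw [Function.iterate_succ_apply', mem_step_fam_iff]
    rintro (hx | ⟨s, hs, -, hd | hd⟩)
    · exact ih x hx
    · obtain ⟨d, l, hl⟩ := List.exists_cons_of_ne_nil (h s hs).1
      exact ih _ (hd d (by simp [hl]))
    · obtain ⟨d, l, hl⟩ := List.exists_cons_of_ne_nil (h s hs).1
      exact ih _ (hd d (by simp [hl]))

/-- A finite set `Z` above the lower half plane grows infinitely iff its bottom row does so in the
one-dimensional process. -/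
theorem growing_iff {S : List (List ℕ)} (h : ∀ s ∈ S, s ≠ [] ∧ 0 ∉ s)
    {Z : Set (ℤ × ℤ)} (hZ : Z.Finite) (hd : Disjoint Z (halfPlane (0, 1))) :
    Growing (fam S) (0, 1) Z ↔ (lineClosure S {x | (x, 0) ∈ Z}).Infinite := by
  constructor
  · rintro ⟨-, hG⟩
    by_contra hfin
    rw [Set.not_infinite] at hfin
    apply hG
    have hrow : ∀ n : ℕ,
        {x : ℤ | (x, (n : ℤ)) ∈ closure (fam S) (halfPlane (0, 1) ∪ Z)}.Finite := by
      intro n
      induction n with
      | zero =>
        refine hfin.subset ?_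
        intro x hx
        exact (row_zero_closure x).1 (by simpa using hx)
      | succ n ih =>
        have hZn : {x : ℤ | (x, ((n + 1 : ℕ) : ℤ)) ∈ Z}.Finite := by
          refine (hZ.image Prod.fst).subset ?_
          intro x hx
          exact ⟨_, hx, rfl⟩
        refine (hZn.union ih).subset ?_
        intro x hx
        obtain ⟨t, ht⟩ := Set.mem_iUnion.1 hx
        rcases row_pos t x _ (by push_cast; omega) ht with h1 | h1
        · exact Or.inl h1
        · right
          have : ((n + 1 : ℕ) : ℤ) - 1 = (n : ℤ) := by push_cast; ring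
          rw [this] at h1
          exact h1
    have hsub : closure (fam S) (halfPlane (0, 1) ∪ Z) \ halfPlane (0, 1) ⊆
        ⋃ n ∈ (fun z : ℤ × ℤ => z.2.toNat) '' Z, (fun x : ℤ => (x, (n : ℤ))) ''
          {x : ℤ | (x, (n : ℤ)) ∈ closure (fam S) (halfPlane (0, 1) ∪ Z)} := by
      rintro ⟨x, y⟩ ⟨hx, hy⟩
      rw [mem_halfPlane_iff, not_lt] at hy
      have hy' : 0 ≤ y := hy
      obtain ⟨n, rfl⟩ := Int.eq_ofNat_of_zero_le hy'
      have hne : ∃ x', (x', (n : ℤ)) ∈ Z := by
        by_contra hcon
        push Not at hcon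
        obtain ⟨t, ht⟩ := Set.mem_iUnion.1 hx
        exact row_empty h _ hy' hcon t x ht
      obtain ⟨x', hx'⟩ := hne
      refine Set.mem_biUnion (x := n) ⟨_, hx', by simp⟩ ⟨x, hx, rfl⟩
    refine Set.Finite.subset ?_ hsub
    exact Set.Finite.biUnion (hZ.image _) fun n _ => (hrow n).image _
  · intro hinf
    refine ⟨hd, ?_⟩
    have hinj : Function.Injective (fun x : ℤ => ((x, 0) : ℤ × ℤ)) := by
      intro a b hab
      exact (Prod.ext_iff.1 hab).1
    refine (hinf.image (f := fun x : ℤ => ((x, 0) : ℤ × ℤ)) hinj.injOn).mono ?_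
    rintro _ ⟨x, hx, rfl⟩
    refine ⟨(row_zero_closure x).2 hx, ?_⟩
    rw [mem_halfPlane_iff]
    simp

end Pool.Agent.Lib.MP_3da8ac_lc
end

section

/-!
# The difficulty of `fam S`
-/

set_option autoImplicit false

namespace Pool.Agent.Lib.MP_3da8ac_lc

theorem difficulty_fam_le {S : List (List ℕ)} {W : ℕ} (hW : 0 < W) (hS : S ≠ [])
    (h : ∀ s ∈ S, 0 ∉ s ∧ W ∈ s ∧ ∀ d ∈ s, d ≤ W) (k : ℕ) :
    difficulty (fam S) ≤ (k : ℕ∞) ↔
      ∃ P : Finset (ZMod W), P.Nonempty ∧ P.card ≤ k ∧ Closed S P := by
  classical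
  have h' : ∀ s ∈ S, s ≠ [] ∧ 0 ∉ s := fun s hs =>
    ⟨fun he => by simpa [he] using (h s hs).2.1, (h s hs).1⟩
  have hinj : Function.Injective (fun x : ℤ => ((x, 0) : ℤ × ℤ)) := by
    intro x y hxy
    exact (Prod.mk.inj hxy).1
  rw [difficulty_fam hS h']
  constructor
  · intro hle
    have hlt : (⨅ Z : {Z : Set (ℤ × ℤ) // Growing (fam S) (0, 1) Z}, Z.1.encard) <
        ((k + 1 : ℕ) : ℕ∞) :=
      lt_of_le_of_lt hle (by exact_mod_cast Nat.lt_succ_self k)
    obtain ⟨⟨Z, hZ⟩, hZk⟩ := iInf_lt_iff.1 hlt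
    simp only at hZk
    have hfin : Z.Finite := Set.encard_lt_top_iff.1 (hZk.trans (by exact_mod_cast ENat.natCast_lt_top _))
    have hgrow := (growing_iff h' hfin hZ.1).1 hZ
    have hAfin : {x : ℤ | (x, 0) ∈ Z}.Finite := hfin.preimage hinj.injOn
    have hAcoe : ((hAfin.toFinset : Finset ℤ) : Set ℤ) = {x : ℤ | (x, 0) ∈ Z} :=
      hAfin.coe_toFinset
    obtain ⟨P, hP1, hP2, hP3⟩ := exists_closed_of_infinite hW h hAfin.toFinset (by
      rw [hAcoe]
      exact hgrow)
    refine ⟨P, hP1, hP2.trans ?_, hP3⟩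
    have h1 : ((hAfin.toFinset.card : ℕ) : ℕ∞) ≤ Z.encard := by
      rw [← Set.encard_coe_eq_coe_finsetCard, hAcoe, ← hinj.encard_image]
      refine Set.encard_le_encard ?_
      rintro _ ⟨x, hx, rfl⟩
      exact hx
    have h2 : ((hAfin.toFinset.card : ℕ) : ℕ∞) < ((k + 1 : ℕ) : ℕ∞) := lt_of_le_of_lt h1 hZk
    have h3 : hAfin.toFinset.card < k + 1 := by exact_mod_cast h2
    omega
  · rintro ⟨P, hP1, hP2, hP3⟩
    obtain ⟨A, hA1, hA2⟩ := infinite_of_closed hW h P hP1 hP3
    set Z : Set (ℤ × ℤ) := (fun x : ℤ => ((x, 0) : ℤ × ℤ)) '' (A : Set ℤ) with hZdef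
    have hfin : Z.Finite := A.finite_toSet.image _
    have hd : Disjoint Z (halfPlane (0, 1)) := by
      rw [Set.disjoint_left]
      rintro _ ⟨x, _, rfl⟩ hx
      simp [halfPlane] at hx
    have hrow : {x : ℤ | (x, 0) ∈ Z} = (A : Set ℤ) := by
      ext x
      constructor
      · rintro ⟨y, hy, hyx⟩
        have : y = x := hinj hyx
        rwa [← this]
      · intro hx
        exact ⟨x, hx, rfl⟩
    have hgrow : Growing (fam S) (0, 1) Z := (growing_iff h' hfin hd).2 (by
      rw [hrow]
      exact hA2)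
    refine (iInf_le _ (⟨Z, hgrow⟩ : {Z : Set (ℤ × ℤ) // Growing (fam S) (0, 1) Z})).trans ?_
    show Z.encard ≤ (k : ℕ∞)
    rw [hZdef, hinj.encard_image, Set.encard_coe_eq_coe_finsetCard, hA1]
    exact_mod_cast hP2

end Pool.Agent.Lib.MP_3da8ac_lc
end

section

/-!
# The types of the positions in a tiling
-/

set_option autoImplicit false

namespace Pool.Agent.Lib.MP_3da8ac_lc

open Pool.Agent.Lib.PolyTime

variable {M : Flat} (kin : M.K) (q₀ : M.Q) (sy : Bool → M.A)
  (acc : M.Q → (M.K → Option M.A) → Prop)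

/-- In a tiling the types of the positions are as expected. -/
theorem pt_of_tiling {N X : ℕ} (hN : 4 ≤ N) {τ : ℕ → MTile M}
    (hτ : (mtiles kin q₀ sy acc).Tiling N X τ) :
    ∀ c < N ^ 2 + 1, (τ c).pt = ptAt N c := by
  obtain ⟨hper, hR, h0, hns, -⟩ := hτ
  have h0' : (τ 0).pt = PT.S := h0
  have hns' : ∀ c, 0 < c → c < N ^ 2 + 1 → (τ c).pt ≠ PT.S := hns
  have hnext : ∀ c, (τ (c + N + 1)).pt ≠ PT.S →
      (τ (c + N + 1)).pt = nextPT (τ (c + N)).pt (τ (c + 1)).pt := fun c => (hR c).2.1
  have hNN : 4 * N ≤ N ^ 2 := by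
    rw [pow_two]
    exact Nat.mul_le_mul_right N hN
  intro c
  induction c using Nat.strong_induction_on with
  | _ c ih =>
    intro hc
    rcases Nat.eq_zero_or_pos c with rfl | hc0
    · rw [h0', ptAt, if_pos rfl]
    rcases Nat.lt_or_ge N c with hcN | hcN
    · -- below the first row
      have hw := hnext (c - N - 1)
      have e1 : c - N - 1 + N + 1 = c := by omega
      have e2 : c - N - 1 + N = c - 1 := by omega
      have e3 : c - N - 1 + 1 = c - N := by omega
      rw [e1, e2, e3] at hw
      rw [hw (hns' c hc0 hc), ih (c - 1) (by omega) (by omega), ih (c - N) (by omega) (by omega)]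
      have hl : ¬ (ptAt N (c - 1) = PT.S ∨ ptAt N (c - 1) = PT.I) := by
        unfold ptAt
        rw [if_neg (by omega), if_neg (by omega)]
        split_ifs <;> simp
      rw [nextPT, if_neg hl]
      rcases Nat.lt_or_ge (c - N) N with h2 | h2
      · have hnd : ¬ N ∣ c := by
          rintro ⟨k, rfl⟩
          have h3 : 1 < k := by
            by_contra h4
            have : N * k ≤ N * 1 := Nat.mul_le_mul_left N (by omega)
            omega
          have h4 : N * 2 ≤ N * k := Nat.mul_le_mul_left N h3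
          omega
        have e4 : ptAt N (c - N) = PT.I := by
          unfold ptAt
          rw [if_neg (by omega), if_pos h2]
        rw [e4, if_neg (by decide)]
        unfold ptAt
        rw [if_neg (by omega), if_neg (by omega), if_neg hnd]
      · have hdv : N ∣ c - N ↔ N ∣ c := by
          constructor
          · intro h3
            have := h3.add (dvd_refl N)
            rwa [Nat.sub_add_cancel (by omega)] at this
          · intro h3
            exact Nat.dvd_sub h3 (dvd_refl N)
        have e4 : ptAt N (c - N) = if N ∣ c then PT.D else PT.O := by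
          unfold ptAt
          rw [if_neg (by omega), if_neg (by omega)]
          simp only [hdv]
        have e5 : ptAt N c = if N ∣ c then PT.D else PT.O := by
          unfold ptAt
          rw [if_neg (by omega), if_neg (by omega)]
        rw [e4, e5]
        split_ifs <;> simp_all
    · -- the first row and position `N`
      have hw := hnext (c + (N ^ 2 - N))
      have e1 : c + (N ^ 2 - N) + N + 1 = c + (N ^ 2 + 1) := by omega
      have e2 : c + (N ^ 2 - N) + N = (c - 1) + (N ^ 2 + 1) := by omega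
      rw [e1, e2, hper, hper] at hw
      rw [hw (hns' c hc0 hc), ih (c - 1) (by omega) (by omega)]
      have hl : ptAt N (c - 1) = PT.S ∨ ptAt N (c - 1) = PT.I := by
        unfold ptAt
        by_cases h1 : c - 1 = 0
        · left
          rw [if_pos h1]
        · right
          rw [if_neg h1, if_pos (by omega)]
      rw [nextPT, if_pos hl]
      rcases Nat.lt_or_ge c N with h2 | h2
      · rw [if_neg (hns' _ (by omega) (by omega))]
        unfold ptAt
        rw [if_neg (by omega), if_pos h2]
      · have hcN' : c = N := by omega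
        have e3 : c + (N ^ 2 - N) + 1 = 0 + (N ^ 2 + 1) := by omega
        rw [e3, hper, if_pos h0', hcN']
        unfold ptAt
        rw [if_neg (by omega), if_neg (by omega), if_pos (dvd_refl N)]

end Pool.Agent.Lib.MP_3da8ac_lc
end

section

/-!
# A tiling gives an accepting run
-/

set_option autoImplicit false

namespace Pool.Agent.Lib.MP_3da8ac_lc

open Pool.Agent.Lib.PolyTime

variable {M : Flat} (kin : M.K) (q₀ : M.Q) (sy : Bool → M.A)
  (acc : M.Q → (M.K → Option M.A) → Prop)

section rot

private theorem rot_ptAt_in {N t p : ℕ} (hp : p < N) :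
    ptAt N (t * N + p) = if t = 0 then (if p = 0 then PT.S else PT.I)
      else (if p = 0 then PT.D else PT.O) := by
  have hN : 0 < N := by omega
  unfold ptAt
  rcases Nat.eq_zero_or_pos t with rfl | ht
  · simp only [zero_mul, zero_add, if_true]
    by_cases h0 : p = 0
    · simp [h0]
    · simp [h0, hp]
  · have h1 : t ≠ 0 := by omega
    have h2 : N ≤ t * N := Nat.le_mul_of_pos_left N ht
    have h3 : ¬ (t * N + p = 0) := by omega
    have h4 : ¬ (t * N + p < N) := by omega
    rw [if_neg h3, if_neg h4, if_neg h1]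
    have h5 : N ∣ t * N + p ↔ p = 0 := by
      rw [Nat.dvd_add_right (Dvd.intro_left t rfl)]
      constructor
      · intro h
        by_contra h0
        exact absurd (Nat.le_of_dvd (by omega) h) (by omega)
      · rintro rfl
        exact dvd_zero _
    by_cases h0 : p = 0
    · rw [if_pos (h5.2 h0), if_pos h0]
    · rw [if_neg (fun h => h0 (h5.1 h)), if_neg h0]

private theorem rot_ptAt_end {N t : ℕ} (hN : 0 < N) : ptAt N ((t + 1) * N) = PT.D := by
  have h2 : N ≤ (t + 1) * N := Nat.le_mul_of_pos_left N (by omega)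
  unfold ptAt
  rw [if_neg (by omega), if_neg (by omega), if_pos (Dvd.intro_left _ rfl)]

private theorem rot_phNext_P {a : Ph} (h : phNext a .P) : a = .Z := by
  cases a <;> simp_all [phNext]

private theorem rot_phNext_Z {a : Ph} (h : phNext a .Z) : a = .Z := by
  cases a <;> simp_all [phNext]

private theorem rot_phNext_of_P {b : Ph} (h : phNext .P b) : b = .G ∨ b = .B := by
  cases b <;> simp_all [phNext]

private theorem rot_phNext_of_G {b : Ph} (h : phNext .G b) : b = .G ∨ b = .B := by
  cases b <;> simp_all [phNext]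

private theorem rot_phNext_of_B {b : Ph} (h : phNext .B b) : b = .B := by
  cases b <;> simp_all [phNext]

/-- reading a row off a function -/
private theorem rot_word {A : Type} {sy : Bool → A} {N X L : ℕ} (hXL : X < L) (b : ℕ → Bool)
    (s : ℕ → Option A) (hb : ∀ p < X, b p = false) (hX : b X = true)
    (hs : ∀ p < L, s p = some (sy (b p))) (hs' : ∀ p, L ≤ p → p < N → s p = none) :
    ∃ w : List Bool, (List.replicate X false ++ true :: w).length = L ∧
      ∀ p < N, s p = ((List.replicate X false ++ true :: w).map sy)[p]? := by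
  refine ⟨(List.range (L - (X + 1))).map (fun i => b (X + 1 + i)), ?_, ?_⟩
  · simp
    omega
  · have hl : List.replicate X false ++
        true :: (List.range (L - (X + 1))).map (fun i => b (X + 1 + i)) =
        (List.range L).map b := by
      have e : L = X + 1 + (L - (X + 1)) := by omega
      conv_rhs => rw [e]
      rw [List.range_add, List.map_append, List.range_succ, List.map_append, List.map_map]
      have h1 : (List.range X).map b = List.replicate X false := by
        rw [List.eq_replicate_iff]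
        refine ⟨by simp, fun c hc => ?_⟩
        obtain ⟨p, hp, rfl⟩ := List.mem_map.1 hc
        exact hb p (List.mem_range.1 hp)
      rw [h1]
      simp [hX, Function.comp_def]
    intro p hp
    rw [hl, List.map_map]
    by_cases h : p < L
    · rw [hs p h]
      simp [h]
    · rw [hs' p (by omega) hp]
      simp
      omega

end rot

/-- A tiling gives an accepting run on an input `0^X 1 w`. -/
theorem run_of_tiling {N X : ℕ} (hN : 4 ≤ N) (hX : 1 ≤ X) (hXN : X < N) {τ : ℕ → MTile M}
    (hτ : (mtiles kin q₀ sy acc).Tiling N X τ) :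
    ∃ w : List Bool, (List.replicate X false ++ true :: w).length < N ∧
      acc (M.step^[N - 1] (startConf M kin q₀
          ((List.replicate X false ++ true :: w).map sy))).1
        (fun k => ((M.step^[N - 1] (startConf M kin q₀
          ((List.replicate X false ++ true :: w).map sy))).2 k)[0]?) := by
  classical
  have hpt := pt_of_tiling kin q₀ sy acc hN hτ
  obtain ⟨hper, hR, -, -, hpin⟩ := hτ
  have hN0 : 0 < N := by omega
  have hrow : ∀ t < N, ∀ p < N, t * N + p < N ^ 2 := by
    intro t ht p hp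
    have : (t + 1) * N ≤ N * N := Nat.mul_le_mul_right N (by omega)
    nlinarith
  -- types
  have pt1 : ∀ t < N, ∀ p < N, (τ (t * N + p)).pt = if t = 0 then (if p = 0 then PT.S else PT.I)
      else (if p = 0 then PT.D else PT.O) := by
    intro t ht p hp
    rw [hpt _ (by have := hrow t ht p hp; omega), rot_ptAt_in hp]
  have ptEnd : ∀ t < N, (τ ((t + 1) * N)).pt = PT.D := by
    intro t ht
    have : (t + 1) * N ≤ N * N := Nat.mul_le_mul_right N (by omega)
    rw [hpt _ (by nlinarith), rot_ptAt_end hN0]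
  have pt2 : ∀ t < N, ∀ p < N, ((τ (t * N + p + 1)).pt = PT.D ↔ p + 1 = N) := by
    intro t ht p hp
    by_cases h : p + 1 = N
    · have e : t * N + p + 1 = (t + 1) * N := by rw [add_mul]; omega
      rw [e]
      simp [ptEnd t ht, h]
    · have hp' : p + 1 < N := by omega
      have := pt1 t ht (p + 1) hp'
      rw [← add_assoc] at this
      rw [this]
      constructor
      · intro h'
        exfalso
        split_ifs at h' <;> simp_all
      · intro h'
        exact absurd h' h
  have pt2S : ∀ t < N, ∀ p < N, (τ (t * N + p + 1)).pt ≠ PT.S := by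
    intro t ht p hp h0
    by_cases h : p + 1 = N
    · rw [(pt2 t ht p hp).2 h] at h0
      exact absurd h0 (by decide)
    · have hp' : p + 1 < N := by omega
      have := pt1 t ht (p + 1) hp'
      rw [← add_assoc] at this
      rw [this] at h0
      split_ifs at h0 <;> simp_all
  have hW : ∀ t < N, ∀ p < N, MWin kin q₀ sy acc (τ (t * N + p)) (τ (t * N + p + 1))
      (τ (t * N + p + N)) (τ (t * N + p + N + 1)) := by
    intro t ht p hp
    exact (hR (t * N + p)).2.2 (fun h => pt2S t ht p hp h.2)
  -- heads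
  have hSD : ∀ t < N, (τ (t * N)).pt = PT.S ∨ (τ (t * N)).pt = PT.D := by
    intro t ht
    have := pt1 t ht 0 hN0
    rw [add_zero] at this
    rw [this]
    by_cases h : t = 0
    · simp [h]
    · simp [h]
  have hhd : ∀ t < N, ∀ p < N, (τ (t * N + p)).hd = (τ (t * N)).hd := by
    intro t ht p
    induction p with
    | zero => intro _; rfl
    | succ p ih =>
      intro hp
      have h1 := (hW t ht p (by omega)).1 (fun h => by
        have := (pt2 t ht p (by omega)).1 h
        omega)
      rw [← add_assoc, h1]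
      exact ih (by omega)
  have hcell : ∀ t < N, (τ (t * N)).cell = (τ (t * N)).hd := by
    intro t ht
    have h := (hW t ht 0 hN0).2.1
    rw [add_zero] at h
    have := h (hSD t ht)
    unfold MTile.cell
    rw [this]
  -- the diagram
  have hDiag : Diag M kin q₀ acc N (fun t p => (τ (t * N + p)).cell) := by
    constructor
    · intro p hp k hk
      have h := (hW 0 hN0 p hp).2.2.2.1
      refine h ?_ k hk
      rw [pt1 0 hN0 p hp]
      by_cases h0 : p = 0
      · simp [h0]
      · simp [h0]
    · have h := (hW 0 hN0 0 hN0).2.2.2.2.1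
      refine (h ?_).1
      rw [pt1 0 hN0 0 hN0]
      simp
    · intro t ht k
      have h := (hW t ht (N - 1) (by omega)).2.2.1
      exact h ((pt2 t ht (N - 1) (by omega)).2 (by omega)) k
    · have h := (hW (N - 1) (by omega) 0 hN0).2.2.2.2.2.2.2.1
      have e1 : (N - 1) * N + 0 + N = (N - 1 + 1) * N := by rw [add_mul]; omega
      have e2 : (N - 1) * N + 0 + N + 1 = 0 + (N ^ 2 + 1) := by
        rw [e1, Nat.sub_add_cancel (by omega : 1 ≤ N)]
        ring
      have h3 : (τ ((N - 1) * N + 0 + N)).pt = PT.D := by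
        rw [e1]
        exact ptEnd (N - 1) (by omega)
      have h4 : (τ ((N - 1) * N + 0 + N + 1)).pt = PT.S := by
        rw [e2, hper]
        have := pt1 0 hN0 0 hN0
        simpa using this
      have h5 := h (Or.inr (Or.inr ⟨h3, h4⟩))
      have h6 := hSD (N - 1) (by omega)
      have h7 := hcell (N - 1) (by omega)
      rw [add_zero] at h5
      have h8 := h5 h6
      show acc (τ ((N - 1) * N + 0)).cell.1 (τ ((N - 1) * N + 0)).cell.2
      rw [add_zero, h7]
      exact h8
    · intro t ht p hp
      have ht' : t < N := by omega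
      have h := (hW t ht' p hp).2.2.2.2.2.2.2.2
      have e3 : t * N + p + N = (t + 1) * N + p := by rw [add_mul]; omega
      rw [e3] at h
      have hl : ¬ lastRow (τ ((t + 1) * N + p)) (τ ((t + 1) * N + p + 1)) := by
        unfold lastRow
        rw [pt1 (t + 1) ht p hp, if_neg (by omega : ¬ (t + 1 = 0))]
        have h4 := pt2S (t + 1) ht p hp
        by_cases h0 : p = 0
        · simp [h0] at h4 ⊢
          exact h4
        · simp [h0]
      have h5 := h hl
      have e5 : decide ((τ (t * N + p)).pt = PT.S ∨ (τ (t * N + p)).pt = PT.D) =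
          decide (p = 0) := by
        rw [pt1 t ht' p hp]
        by_cases h0 : p = 0 <;> by_cases h1 : t = 0 <;> simp [h0, h1]
      have e6 : decide ((τ (t * N + p + 1)).pt = PT.D) = decide (p + 1 = N) := by
        rw [decide_eq_decide]
        exact pt2 t ht' p hp
      have e7 : (τ (t * N + p)).hd = (τ (t * N + 0)).cell := by
        rw [hhd t ht' p hp, add_zero, hcell t ht']
      rw [← e5, ← e6]
      show trans M _ _ (τ (t * N + 0)).cell (τ (t * N + p)).cell (τ (t * N + p + 1)).cell
        (τ ((t + 1) * N + p)).cell (τ ((t + 1) * N + p + 1)).cell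
      rw [← e7]
      convert h5 using 1
  -- phases of the first row
  have z : ∀ p, τ (0 * N + p) = τ p := by intro p; rw [zero_mul, zero_add]
  have hIS : ∀ p < N, (τ p).pt = PT.S ∨ (τ p).pt = PT.I := by
    intro p hp
    have := pt1 0 hN0 p hp
    rw [z] at this
    rw [this]
    by_cases h0 : p = 0
    · simp [h0]
    · simp [h0]
  have hsym : ∀ p < N, phSym sy (τ p).ph ((τ p).sym kin) := by
    intro p hp
    have h := (hW 0 hN0 p hp).2.2.2.2.2.1
    rw [z] at h
    exact h (hIS p hp)
  have hnext : ∀ p, p + 1 < N → phNext (τ p).ph (τ (p + 1)).ph := by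
    intro p hp
    have h := (hW 0 hN0 p (by omega)).2.2.2.2.2.2.1
    rw [z] at h
    have e : 0 * N + p + 1 = p + 1 := by rw [zero_mul, zero_add]
    rw [e] at h
    refine h (hIS p (by omega)) (fun h' => ?_)
    have := (pt2 0 hN0 p (by omega)).1 (by rw [e]; exact h')
    omega
  have hphX : (τ X).ph = Ph.P := hpin.2
  have hphZ : ∀ j, j < X → (τ (X - 1 - j)).ph = Ph.Z := by
    intro j
    induction j with
    | zero =>
      intro hj
      have h := hnext (X - 1) (by omega)
      have e : X - 1 + 1 = X := by omega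
      rw [e, hphX] at h
      exact rot_phNext_P h
    | succ j ih =>
      intro hj
      have h := hnext (X - 1 - (j + 1)) (by omega)
      have e : X - 1 - (j + 1) + 1 = X - 1 - j := by omega
      rw [e, ih (by omega)] at h
      exact rot_phNext_Z h
  have hphZ' : ∀ p < X, (τ p).ph = Ph.Z := by
    intro p hp
    have := hphZ (X - 1 - p) (by omega)
    have e : X - 1 - (X - 1 - p) = p := by omega
    rwa [e] at this
  have hlastN : (τ (N - 1)).sym kin = none := by
    have := hDiag.last 0 hN0 kin
    simp only [zero_mul, zero_add] at this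
    exact this
  have hphN : (τ (N - 1)).ph = Ph.B := by
    have h := hsym (N - 1) (by omega)
    rw [hlastN] at h
    cases hph : (τ (N - 1)).ph <;> rw [hph] at h <;> simp_all [phSym]
  have hXN' : X < N - 1 := by
    rcases Nat.lt_or_ge X (N - 1) with h | h
    · exact h
    · exfalso
      have e : X = N - 1 := by omega
      rw [e, hphN] at hphX
      exact absurd hphX (by decide)
  have hex : ∃ p, X < p ∧ p < N ∧ (τ p).ph = Ph.B := ⟨N - 1, hXN', by omega, hphN⟩
  set L := Nat.find hex with hL
  obtain ⟨hL1, hL2, hL3⟩ := Nat.find_spec hex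
  rw [← hL] at hL1 hL2 hL3
  have hGB : ∀ j, X + 1 + j < L → (τ (X + 1 + j)).ph = Ph.G := by
    intro j
    induction j with
    | zero =>
      intro hj
      have h := hnext X (by omega)
      rw [hphX] at h
      rcases rot_phNext_of_P h with h' | h'
      · exact h'
      · exact absurd ⟨by omega, by omega, h'⟩ (Nat.find_min hex (m := X + 1) (by omega))
    | succ j ih =>
      intro hj
      have h := hnext (X + 1 + j) (by omega)
      rw [ih (by omega)] at h
      rcases rot_phNext_of_G h with h' | h'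
      · exact h'
      · exact absurd ⟨by omega, by omega, h'⟩ (Nat.find_min hex (m := X + 1 + j + 1) (by omega))
  have hB : ∀ j, L + j < N → (τ (L + j)).ph = Ph.B := by
    intro j
    induction j with
    | zero => intro _; exact hL3
    | succ j ih =>
      intro hj
      have h := hnext (L + j) (by omega)
      rw [ih (by omega)] at h
      exact rot_phNext_of_B h
  set b : ℕ → Bool := fun p => if p < X then false else if p = X then true else
    if h : ∃ c, (τ p).sym kin = some (sy c) then h.choose else false with hb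
  have b1 : ∀ p < X, b p = false := by
    intro p hp
    simp only [hb, if_pos hp]
  have b2 : b X = true := by simp [hb]
  have b3 : ∀ p < L, (τ p).sym kin = some (sy (b p)) := by
    intro p hp
    have h := hsym p (by omega)
    rcases lt_trichotomy p X with h1 | h1 | h1
    · rw [hphZ' p h1] at h
      rw [b1 p h1]
      exact h
    · subst h1
      rw [hphX] at h
      rw [b2]
      exact h
    · have e : X + 1 + (p - (X + 1)) = p := by omega
      have h2 := hGB (p - (X + 1)) (by omega)
      rw [e] at h2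
      rw [h2] at h
      have h3 : ∃ c, (τ p).sym kin = some (sy c) := h
      simp only [hb, if_neg (by omega : ¬ p < X), if_neg (by omega : ¬ p = X), dif_pos h3]
      exact h3.choose_spec
  have b4 : ∀ p, L ≤ p → p < N → (τ p).sym kin = none := by
    intro p hp hpN
    have h := hsym p hpN
    have e : L + (p - L) = p := by omega
    have h2 := hB (p - L) (by omega)
    rw [e] at h2
    rw [h2] at h
    exact h
  obtain ⟨w, hw1, hw2⟩ := rot_word (sy := sy) (N := N) hL1 b (fun p => (τ p).sym kin)
    b1 b2 b3 b4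
  refine ⟨w, by omega, ?_⟩
  refine run_of_diag M kin q₀ acc hN0 _ hDiag _ ?_ ?_
  · rw [List.length_map]
    omega
  · intro p hp
    have := hw2 p hp
    show (τ (0 * N + p)).cell.2 kin = _
    rw [z]
    exact this

end Pool.Agent.Lib.MP_3da8ac_lc
end
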