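import Mathlib
import Pool.Agent.Lib.PolyTime.Reduce

/-!
# Templates for bit strings, and the universal polynomial-time function
-/

set_option autoImplicit false

namespace Pool.Agent.Lib.MP_3da8ac_lc

open Pool.Agent.Lib.PolyTime

/-- Symbols of templates: bits, the clock (a number of zeros) and the argument, both to be encoded
`i` times, and a symbol without meaning. -/
inductive Sym : Type
  | bit (b : Bool)
  | clk (i : ℕ)
  | arg (i : ℕ)
  | skip

/-- Insert a bit `true` before every bit, `i` times. -/
def dup : ℕ → List Bool → List Bool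
  | 0, l => l
  | i + 1, l => (dup i l).flatMap (fun b => [true, b])

/-- The meaning of a symbol. -/
def Sym.eval (y : List Bool) (a : ℕ) : Sym → List Bool
  | .bit b => [b]
  | .clk i => dup i (List.replicate a false)
  | .arg i => dup i y
  | .skip => []

/-- The meaning of a template. -/
def evalT (T : List Sym) (y : List Bool) (a : ℕ) : List Bool := T.flatMap (Sym.eval y a)

/-- The encoding of a symbol, once more. -/
def Sym.raise : Sym → List Sym
  | .bit b => [.bit true, .bit b]
  | .clk i => [.clk (i + 1)]
  | .arg i => [.arg (i + 1)]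
  | .skip => [.skip]

/-- The depth of a symbol is smaller than `d`. -/
def Sym.DepthLt (d : ℕ) : Sym → Prop
  | .bit _ => True
  | .clk i => i < d
  | .arg i => i < d
  | .skip => True

/-- The delimited template. -/
def delimitT (T : List Sym) : List Sym := T.flatMap Sym.raise ++ [.bit false]

theorem evalT_append (T T' : List Sym) (y : List Bool) (a : ℕ) :
    evalT (T ++ T') y a = evalT T y a ++ evalT T' y a := by
  simp [evalT]

private theorem delimit_flatMap (l : List Bool) :
    N487b59b3.delimit l = l.flatMap (fun b => [true, b]) ++ [false] := by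
  induction l with
  | nil => rfl
  | cons b l ih =>
    show true :: b :: N487b59b3.delimit l = _
    rw [ih]
    rfl

private theorem eval_raise (y : List Bool) (a : ℕ) (s : Sym) :
    evalT s.raise y a = (Sym.eval y a s).flatMap (fun b => [true, b]) := by
  cases s <;> simp [evalT, Sym.raise, Sym.eval, dup]

theorem evalT_delimitT (T : List Sym) (y : List Bool) (a : ℕ) :
    evalT (delimitT T) y a = N487b59b3.delimit (evalT T y a) := by
  rw [delimit_flatMap, delimitT, evalT_append]
  congr 1
  induction T with
  | nil => rfl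
  | cons s T ih =>
    rw [List.flatMap_cons, evalT_append, eval_raise, ih]
    simp [evalT]

theorem depthLt_delimitT {T : List Sym} {d : ℕ} (h : ∀ s ∈ T, Sym.DepthLt d s) :
    ∀ s ∈ delimitT T, Sym.DepthLt (d + 1) s := by
  intro s hs
  unfold delimitT at hs
  rw [List.mem_append, List.mem_flatMap] at hs
  rcases hs with ⟨r, hr, hs⟩ | hs
  · have h1 := h r hr
    cases r with
    | bit b =>
      simp only [Sym.raise, List.mem_cons, List.not_mem_nil, or_false] at hs
      rcases hs with rfl | rfl <;> trivial
    | clk i =>
      simp only [Sym.raise, List.mem_cons, List.not_mem_nil, or_false] at hs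
      subst hs
      exact Nat.succ_lt_succ h1
    | arg i =>
      simp only [Sym.raise, List.mem_cons, List.not_mem_nil, or_false] at hs
      subst hs
      exact Nat.succ_lt_succ h1
    | skip =>
      simp only [Sym.raise, List.mem_cons, List.not_mem_nil, or_false] at hs
      subst hs
      trivial
  · rw [List.mem_singleton] at hs
    subst hs
    trivial

/-- The symbol with a given code of five bits. -/
def symOf (k₁ k₂ i₁ i₂ i₃ : Bool) : Sym :=
  match k₁, k₂ with
  | false, false => .bit i₁
  | false, true => .clk (i₁.toNat + 2 * i₂.toNat + 4 * i₃.toNat)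
  | true, false => .arg (i₁.toNat + 2 * i₂.toNat + 4 * i₃.toNat)
  | true, true => .skip

/-- The template with a given code. -/
def decodeT : List Bool → List Sym
  | k₁ :: k₂ :: i₁ :: i₂ :: i₃ :: l => symOf k₁ k₂ i₁ i₂ i₃ :: decodeT l
  | _ => []

/-- The universal function: the template with code `e` for the argument `y` and the clock `a`. -/
def G (e y : List Bool) (a : ℕ) : List Bool := evalT (decodeT e) y a

private theorem exists_bits {i : ℕ} (hi : i < 8) :
    ∃ b₁ b₂ b₃ : Bool, i = b₁.toNat + 2 * b₂.toNat + 4 * b₃.toNat := by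
  interval_cases i
  · exact ⟨false, false, false, rfl⟩
  · exact ⟨true, false, false, rfl⟩
  · exact ⟨false, true, false, rfl⟩
  · exact ⟨true, true, false, rfl⟩
  · exact ⟨false, false, true, rfl⟩
  · exact ⟨true, false, true, rfl⟩
  · exact ⟨false, true, true, rfl⟩
  · exact ⟨true, true, true, rfl⟩

private theorem exists_symOf {s : Sym} (hs : Sym.DepthLt 8 s) :
    ∃ k₁ k₂ i₁ i₂ i₃ : Bool, symOf k₁ k₂ i₁ i₂ i₃ = s := by
  cases s with
  | bit b => exact ⟨false, false, b, false, false, rfl⟩
  | clk i =>
    obtain ⟨b₁, b₂, b₃, h⟩ := exists_bits (i := i) hs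
    exact ⟨false, true, b₁, b₂, b₃, by rw [h]; rfl⟩
  | arg i =>
    obtain ⟨b₁, b₂, b₃, h⟩ := exists_bits (i := i) hs
    exact ⟨true, false, b₁, b₂, b₃, by rw [h]; rfl⟩
  | skip => exact ⟨true, true, false, false, false, rfl⟩

private theorem exists_pad (n : ℕ) : ∃ e : List Bool, n ≤ e.length ∧ ∀ y a, G e y a = [] := by
  induction n with
  | zero => exact ⟨[], le_rfl, fun y a => rfl⟩
  | succ n ih =>
    obtain ⟨e, h1, h2⟩ := ih
    refine ⟨true :: true :: false :: false :: false :: e, ?_, ?_⟩
    · simp only [List.length_cons]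
      omega
    · intro y a
      have : G (true :: true :: false :: false :: false :: e) y a = G e y a := by
        simp [G, decodeT, symOf, evalT, Sym.eval]
      rw [this, h2]

theorem exists_code (T : List Sym) (hT : ∀ s ∈ T, Sym.DepthLt 8 s) (n : ℕ) :
    ∃ e : List Bool, n ≤ e.length ∧ ∀ y a, G e y a = evalT T y a := by
  induction T with
  | nil =>
    obtain ⟨e, h1, h2⟩ := exists_pad n
    exact ⟨e, h1, fun y a => by rw [h2]; rfl⟩
  | cons s T ih =>
    obtain ⟨e, h1, h2⟩ := ih (fun s' hs' => hT s' (List.mem_cons_of_mem _ hs'))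
    obtain ⟨k₁, k₂, i₁, i₂, i₃, h3⟩ := exists_symOf (hT s List.mem_cons_self)
    refine ⟨k₁ :: k₂ :: i₁ :: i₂ :: i₃ :: e, ?_, ?_⟩
    · simp only [List.length_cons]
      omega
    · intro y a
      have : G (k₁ :: k₂ :: i₁ :: i₂ :: i₃ :: e) y a = Sym.eval y a s ++ G e y a := by
        simp [G, decodeT, h3, evalT]
      rw [this, h2]
      simp [evalT]

/-- The encoding of the arguments of `G`. -/
def enc3args (p : List Bool × List Bool × List Bool) : List Bool :=
  N487b59b3.delimit p.1 ++ (N487b59b3.delimit p.2.1 ++ p.2.2)

end Pool.Agent.Lib.MP_3da8ac_lc
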