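import Pool.Agent.Lib.MP_3da8ac_lc.Sym

/-!
# The universal function is polynomial-time
-/

set_option autoImplicit false

namespace Pool.Agent.Lib.MP_3da8ac_lc

open Pool.Agent.Lib.PolyTime

/-! ### First transducer: reading the three arguments -/

/-- Next state of the first transducer. -/
private def spStepA (q : PMode × PMode) (b : Bool) : PMode × PMode :=
  if q.1 = 2 then (2, pStep q.2 b) else (pStep q.1 b, q.2)

/-- Output of the first transducer. -/
private def spOutA (q : PMode × PMode) (b : Bool) : List (Bool ⊕ Option Bool) :=
  if q.1 = 1 then [Sum.inl b]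
  else if q.1 = 2 then (if q.2 = 1 then [Sum.inr (some b)] else if q.2 = 2 then [Sum.inr none]
    else [])
  else []

private theorem spA_c (c : List Bool) :
    transduce spStepA spOutA ((2 : PMode), (2 : PMode)) c =
      List.replicate c.length (Sum.inr none) := by
  induction c with
  | nil => rfl
  | cons b c ih =>
    simp only [transduce, List.length_cons, List.replicate_succ]
    have h1 : spStepA ((2 : PMode), (2 : PMode)) b = ((2 : PMode), (2 : PMode)) := by
      cases b <;> rfl
    have h2 : spOutA ((2 : PMode), (2 : PMode)) b = [Sum.inr none] := by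
      cases b <;> rfl
    rw [h1, h2, ih]
    rfl

private theorem spA_y (y c : List Bool) :
    transduce spStepA spOutA ((2 : PMode), (0 : PMode)) (N487b59b3.delimit y ++ c) =
      y.map (fun b => Sum.inr (some b)) ++ List.replicate c.length (Sum.inr none) := by
  induction y with
  | nil =>
    have : N487b59b3.delimit [] ++ c = false :: c := rfl
    rw [this]
    simp only [transduce, List.map_nil, List.nil_append]
    have h1 : spStepA ((2 : PMode), (0 : PMode)) false = ((2 : PMode), (2 : PMode)) := rfl
    have h2 : spOutA ((2 : PMode), (0 : PMode)) false = [] := rfl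
    rw [h1, h2, spA_c]
    rfl
  | cons b y ih =>
    have : N487b59b3.delimit (b :: y) ++ c = true :: b :: (N487b59b3.delimit y ++ c) := by
      rw [delimit_eq_flatMap, delimit_eq_flatMap]
      rfl
    rw [this]
    simp only [transduce, List.map_cons, List.cons_append]
    have h1 : spStepA ((2 : PMode), (0 : PMode)) true = ((2 : PMode), (1 : PMode)) := rfl
    have h2 : spOutA ((2 : PMode), (0 : PMode)) true = [] := rfl
    have h3 : spStepA ((2 : PMode), (1 : PMode)) b = ((2 : PMode), (0 : PMode)) := by
      cases b <;> rfl
    have h4 : spOutA ((2 : PMode), (1 : PMode)) b = [Sum.inr (some b)] := by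
      cases b <;> rfl
    rw [h1, h2, h3, h4, ih]
    rfl

private theorem spA_e (e y c : List Bool) :
    transduce spStepA spOutA ((0 : PMode), (0 : PMode))
        (N487b59b3.delimit e ++ (N487b59b3.delimit y ++ c)) =
      e.map Sum.inl ++ (y.map (fun b => Sum.inr (some b)) ++
        List.replicate c.length (Sum.inr none)) := by
  induction e with
  | nil =>
    have : N487b59b3.delimit [] ++ (N487b59b3.delimit y ++ c) =
        false :: (N487b59b3.delimit y ++ c) := rfl
    rw [this]
    simp only [transduce, List.map_nil, List.nil_append]
    have h1 : spStepA ((0 : PMode), (0 : PMode)) false = ((2 : PMode), (0 : PMode)) := rfl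
    have h2 : spOutA ((0 : PMode), (0 : PMode)) false = [] := rfl
    rw [h1, h2, spA_y]
    rfl
  | cons b e ih =>
    have : N487b59b3.delimit (b :: e) ++ (N487b59b3.delimit y ++ c) =
        true :: b :: (N487b59b3.delimit e ++ (N487b59b3.delimit y ++ c)) := by
      rw [delimit_eq_flatMap, delimit_eq_flatMap e]
      rfl
    rw [this]
    simp only [transduce, List.map_cons, List.cons_append]
    have h1 : spStepA ((0 : PMode), (0 : PMode)) true = ((1 : PMode), (0 : PMode)) := rfl
    have h2 : spOutA ((0 : PMode), (0 : PMode)) true = [] := rfl
    have h3 : spStepA ((1 : PMode), (0 : PMode)) b = ((0 : PMode), (0 : PMode)) := by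
      cases b <;> rfl
    have h4 : spOutA ((1 : PMode), (0 : PMode)) b = [Sum.inl b] := by
      cases b <;> rfl
    rw [h1, h2, h3, h4, ih]
    rfl

/-! ### Second transducer: blocks of five bits -/

private abbrev Code5 : Type := Bool × Bool × Bool × Bool × Bool

private abbrev Buf5 : Type := Option (Bool × Option (Bool × Option (Bool × Option Bool)))

private abbrev Alph5 : Type := Code5 ⊕ Option Bool

private def bufStep : Buf5 → Bool → Buf5
  | none, a => some (a, none)
  | some (x, none), a => some (x, some (a, none))
  | some (x, some (y, none)), a => some (x, some (y, some (a, none)))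
  | some (x, some (y, some (z, none))), a => some (x, some (y, some (z, some a)))
  | some (_, some (_, some (_, some _))), _ => none

private def bufOut : Buf5 → Bool → List Alph5
  | some (x, some (y, some (z, some w))), a => [Sum.inl (x, y, z, w, a)]
  | _, _ => []

private def spStepB (q : Buf5) : Bool ⊕ Option Bool → Buf5
  | Sum.inl b => bufStep q b
  | Sum.inr _ => q

private def spOutB (q : Buf5) : Bool ⊕ Option Bool → List Alph5
  | Sum.inl b => bufOut q b
  | Sum.inr o => [Sum.inr o]

private theorem spB_r (q : Buf5) (r : List (Option Bool)) :
    transduce spStepB spOutB q (r.map Sum.inr) = r.map Sum.inr := by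
  induction r with
  | nil => rfl
  | cons o r ih =>
    simp only [List.map_cons, transduce, spStepB, spOutB, ih]
    rfl

private def blocks : List Bool → List Code5
  | k₁ :: k₂ :: i₁ :: i₂ :: i₃ :: l => (k₁, k₂, i₁, i₂, i₃) :: blocks l
  | _ => []

private def symOf5 (c : Code5) : Sym := symOf c.1 c.2.1 c.2.2.1 c.2.2.2.1 c.2.2.2.2

private theorem decodeT_eq_blocks : ∀ e : List Bool, decodeT e = (blocks e).map symOf5
  | [] => rfl
  | [_] => rfl
  | [_, _] => rfl
  | [_, _, _] => rfl
  | [_, _, _, _] => rfl
  | k₁ :: k₂ :: i₁ :: i₂ :: i₃ :: l => by
    simp only [decodeT, blocks, List.map_cons, decodeT_eq_blocks l]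
    rfl

private theorem spB_e : ∀ (e : List Bool) (r : List (Option Bool)),
    transduce spStepB spOutB none (e.map Sum.inl ++ r.map Sum.inr) =
      (blocks e).map Sum.inl ++ r.map Sum.inr
  | [], r => by simpa [blocks] using spB_r _ r
  | [_], r => by simpa [blocks, transduce, spOutB, bufOut, spStepB, bufStep] using spB_r _ r
  | [_, _], r => by simpa [blocks, transduce, spOutB, bufOut, spStepB, bufStep] using spB_r _ r
  | [_, _, _], r => by simpa [blocks, transduce, spOutB, bufOut, spStepB, bufStep] using spB_r _ r
  | [_, _, _, _], r => by
    simpa [blocks, transduce, spOutB, bufOut, spStepB, bufStep] using spB_r _ r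
  | k₁ :: k₂ :: i₁ :: i₂ :: i₃ :: l, r => by
    simp only [List.map_cons, List.cons_append, transduce, spOutB, bufOut, spStepB, bufStep,
      List.nil_append, blocks, spB_e l r]

/-! ### The loop -/

private theorem dup_flatMap (i : ℕ) (l : List Bool) : dup i l = l.flatMap (fun b => dup i [b]) := by
  induction i with
  | zero => simp [dup]
  | succ i ih =>
    simp only [dup]
    rw [ih, List.flatMap_assoc]

/-- The letters of a substitution. -/
private def subsZ : Sym → Alph5 → List Bool
  | .clk i, Sum.inr none => dup i [false]
  | .arg i, Sum.inr (some b) => dup i [b]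
  | _, _ => []

/-- The value of a symbol computed from the list of letters. -/
private def evalZ (s : Sym) (z : List Alph5) : List Bool :=
  match s with
  | .bit b => [b]
  | .skip => []
  | s => z.flatMap (subsZ s)

private theorem marks_map_fst {A : Type} {k : ℕ} (x : List A) (idx : Fin k → ℕ) :
    (marks x idx).map Prod.fst = x := by
  unfold marks
  apply List.ext_getElem
  · simp
  · intro i h1 h2
    simp

private theorem loopPoly_evalZ (s : Sym) :
    LoopPoly 1 (fun _ : List Alph5 => True) (fun x _ => evalZ s x) := by
  have key : ∀ h : Alph5 → List Bool,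
      LoopPoly 1 (fun _ : List Alph5 => True) (fun x _ => x.flatMap h) := by
    intro h
    unfold LoopPoly
    refine (IsPoly.flatMap (X := fun p : List Alph5 × (Fin 1 → ℕ) => True ∧ ∀ m, p.2 m < p.1.length)
      (ea := fun p => marks p.1 p.2) (fun a => h a.1)).congr ?_
    intro p _
    change (marks p.1 p.2).flatMap (fun a => h a.1) = p.1.flatMap h
    conv_rhs => rw [← marks_map_fst p.1 p.2]
    rw [List.flatMap_map]
  cases s with
  | bit b => exact LoopPoly.const [b]
  | skip => exact LoopPoly.const []
  | clk i => exact key _
  | arg i => exact key _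

private def stepZ (o : Option Alph5) (z : List Alph5) : List Bool :=
  match o with
  | some (Sum.inl c) => evalZ (symOf5 c) z
  | _ => []

private theorem loopPoly_stepZ (o : Option Alph5) :
    LoopPoly 1 (fun _ : List Alph5 => True) (fun x _ => stepZ o x) := by
  rcases o with _ | c | o
  · exact LoopPoly.const []
  · exact loopPoly_evalZ (symOf5 c)
  · exact LoopPoly.const []

private theorem isPoly_loopZ : IsPoly (fun _ : List Alph5 => True) (fun z => z)
    (fun z => z.flatMap (fun s => stepZ (some s) z)) := by
  have h1 : LoopPoly 1 (fun _ : List Alph5 => True)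
      (fun x idx => stepZ ((prof x idx).sym 0) x) :=
    LoopPoly.cases (G := fun q x _ => stepZ (q.sym 0) x) (fun q => loopPoly_stepZ _)
  have h2 : LoopPoly 0 (fun _ : List Alph5 => True) (fun x idx =>
      (List.range x.length).flatMap (fun i =>
        stepZ ((prof x (Fin.snoc (α := fun _ => ℕ) idx i)).sym 0) x)) := LoopPoly.loop h1
  have h3 := h2.toIsPoly (fun i => i.elim0)
  refine h3.congr ?_
  intro z _
  have h4 : ∀ i, stepZ ((prof z (Fin.snoc (α := fun _ => ℕ) (fun i : Fin 0 => i.elim0) i)).sym 0) z =
      (z[i]?).elim [] (fun s => stepZ (some s) z) := by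
    intro i
    have h5 : (prof z (Fin.snoc (α := fun _ => ℕ) (fun i : Fin 0 => i.elim0) i)).sym 0 = z[i]? := by
      simp only [prof]
      rfl
    rw [h5]
    cases z[i]? <;> rfl
  simp only [h4]
  exact range_flatMap_getElem z _

/-- The list of letters. -/
private def lettersZ (e y : List Bool) (a : ℕ) : List Alph5 :=
  (blocks e).map Sum.inl ++ (y.map some ++ List.replicate a none).map Sum.inr

private theorem evalZ_letters (e y : List Bool) (a : ℕ) (s : Sym) :
    evalZ s (lettersZ e y a) = Sym.eval y a s := by
  have h0 : ∀ (s : Sym) (l : List Code5), (l.map Sum.inl).flatMap (subsZ s) = [] := by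
    intro s l
    rw [List.flatMap_map]
    rw [List.flatMap_eq_nil_iff]
    intro c _
    cases s <;> rfl
  cases s with
  | bit b => rfl
  | skip => rfl
  | clk i =>
    simp only [evalZ, lettersZ, List.flatMap_append, h0, List.nil_append, List.map_append,
      Sym.eval]
    rw [dup_flatMap i (List.replicate a false)]
    have h1 : ((y.map some).map Sum.inr).flatMap (subsZ (Sym.clk i)) = [] := by
      rw [List.flatMap_map, List.flatMap_map, List.flatMap_eq_nil_iff]
      intro c _
      rfl
    have h2 : ((List.replicate a (none : Option Bool)).map Sum.inr).flatMap (subsZ (Sym.clk i)) =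
        (List.replicate a false).flatMap (fun b => dup i [b]) := by
      induction a with
      | zero => rfl
      | succ a ih =>
        simp only [List.replicate_succ, List.map_cons, List.flatMap_cons, ih]
        rfl
    rw [h1, h2]
    rfl
  | arg i =>
    simp only [evalZ, lettersZ, List.flatMap_append, h0, List.nil_append, List.map_append,
      Sym.eval]
    rw [dup_flatMap i y]
    have h1 : ((y.map some).map Sum.inr).flatMap (subsZ (Sym.arg i)) =
        y.flatMap (fun b => dup i [b]) := by
      rw [List.flatMap_map, List.flatMap_map]
      rfl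
    have h2 : ((List.replicate a (none : Option Bool)).map Sum.inr).flatMap (subsZ (Sym.arg i)) =
        [] := by
      induction a with
      | zero => rfl
      | succ a ih =>
        simp only [List.replicate_succ, List.map_cons, List.flatMap_cons, ih]
        rfl
    rw [h1, h2, List.append_nil]

private theorem loop_letters (e y : List Bool) (a : ℕ) :
    (lettersZ e y a).flatMap (fun s => stepZ (some s) (lettersZ e y a)) = G e y a := by
  unfold G evalT
  rw [decodeT_eq_blocks, List.flatMap_map]
  conv_lhs =>
    arg 2
    unfold lettersZ
  rw [List.flatMap_append, List.flatMap_map, List.flatMap_map]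
  have h1 : (y.map some ++ List.replicate a none).flatMap
      (fun s : Option Bool => stepZ (some (Sum.inr s)) (lettersZ e y a)) = [] := by
    rw [List.flatMap_eq_nil_iff]
    intro c _
    rfl
  rw [h1, List.append_nil]
  congr 1
  funext c
  exact evalZ_letters e y a (symOf5 c)

private theorem isPoly_letters : IsPoly (fun _ => True) enc3args
    (fun p : List Bool × List Bool × List Bool => lettersZ p.1 p.2.1 p.2.2.length) := by
  have hA : IsPoly (fun _ => True) enc3args
      (fun p : List Bool × List Bool × List Bool => p.1.map Sum.inl ++
        (p.2.1.map some ++ List.replicate p.2.2.length none).map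
          (Sum.inr : Option Bool → Bool ⊕ Option Bool)) := by
    refine (IsPoly.transduce (X := fun _ => True) (ea := enc3args) spStepA spOutA
      ((0 : PMode), (0 : PMode))).congr ?_
    intro p _
    unfold enc3args
    rw [spA_e]
    simp [List.map_append, List.map_map, Function.comp_def]
  have hB : IsPoly (fun _ : List (Bool ⊕ Option Bool) => True) (fun z => z)
      (fun z => transduce spStepB spOutB none z) :=
    IsPoly.transduce (X := fun _ => True) (ea := fun z : List (Bool ⊕ Option Bool) => z)
      spStepB spOutB none
  have hC := IsPoly.comp hB hA (fun _ _ => trivial)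
  refine hC.congr ?_
  intro p _
  exact spB_e _ _

/-- The universal function is polynomial-time. -/
theorem isPoly_G : IsPoly (fun _ => True) enc3args
    (fun p : List Bool × List Bool × List Bool => G p.1 p.2.1 p.2.2.length) := by
  have h := IsPoly.comp isPoly_loopZ isPoly_letters (fun _ _ => trivial)
  refine h.congr ?_
  intro p _
  exact loop_letters _ _ _

end Pool.Agent.Lib.MP_3da8ac_lc
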