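import Mathlib
import Pool.Agent.Lib.MP_3da8ac_lc.MTile

section

/-!
# Combs in small self-supporting sets of residues
-/

set_option autoImplicit false

namespace Pool.Agent.Lib.MP_3da8ac_lc

/-- A finite set of residues modulo `M * N` that is closed under adding `N` has cardinality
divisible by `M`. -/
private theorem dvd_card_of_closed {N M : ℕ} (hN : 0 < N) (hM : 0 < M)
    (P : Finset (ZMod (M * N))) (hcl : ∀ x ∈ P, x + (N : ZMod (M * N)) ∈ P) : M ∣ P.card := by
  classical
  have : NeZero (M * N) := ⟨(Nat.mul_pos hM hN).ne'⟩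
  have hcl' : ∀ (j : ℕ), ∀ x ∈ P, x + ((j * N : ℕ) : ZMod (M * N)) ∈ P := by
    intro j
    induction j with
    | zero => intro x hx; simpa using hx
    | succ j ih =>
      intro x hx
      have := hcl _ (ih x hx)
      have e : x + ((j * N : ℕ) : ZMod (M * N)) + (N : ZMod (M * N))
          = x + (((j + 1) * N : ℕ) : ZMod (M * N)) := by
        push_cast; ring
      rwa [e] at this
  have hfib : ∀ c ∈ P.image (fun x => x.val % N),
      (P.filter (fun x => x.val % N = c)).card = M := by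
    intro c hc
    obtain ⟨x, hx, rfl⟩ := Finset.mem_image.1 hc
    have hinj : Set.InjOn (fun j : ℕ => x + ((j * N : ℕ) : ZMod (M * N)))
        (Finset.range M : Set ℕ) := by
      intro i hi j hj hij
      simp only [Finset.coe_range, Set.mem_Iio] at hi hj
      have h1 : ((i * N : ℕ) : ZMod (M * N)) = ((j * N : ℕ) : ZMod (M * N)) :=
        add_left_cancel hij
      rw [ZMod.natCast_eq_natCast_iff] at h1
      have h2 := Nat.ModEq.eq_of_lt_of_lt h1 (Nat.mul_lt_mul_of_pos_right hi hN)
        (Nat.mul_lt_mul_of_pos_right hj hN)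
      exact Nat.eq_of_mul_eq_mul_right hN h2
    have heq : P.filter (fun y => y.val % N = x.val % N)
        = (Finset.range M).image (fun j : ℕ => x + ((j * N : ℕ) : ZMod (M * N))) := by
      ext y
      simp only [Finset.mem_filter, Finset.mem_image, Finset.mem_range]
      constructor
      · rintro ⟨hy, hmod⟩
        -- `y - x` is a multiple of `N`
        have hlt : (y - x).val < M * N := ZMod.val_lt _
        have hdvd : N ∣ (y - x).val := by
          have h1 : ((y - x).val : ZMod N) = 0 := by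
            have hc : ∀ z : ZMod (M * N),
                ((z.val : ℕ) : ZMod N) = ZMod.castHom (Dvd.intro_left M rfl) (ZMod N) z := by
              intro z
              conv_rhs => rw [← ZMod.natCast_zmod_val z]
              rw [map_natCast]
            rw [hc, map_sub, ← hc, ← hc, sub_eq_zero, ZMod.natCast_eq_natCast_iff]
            exact hmod
          exact (ZMod.natCast_eq_zero_iff _ _).1 h1
        obtain ⟨j, hj⟩ := hdvd
        refine ⟨j, ?_, ?_⟩
        · rw [hj, Nat.mul_comm] at hlt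
          exact Nat.lt_of_mul_lt_mul_right hlt
        · have e : j * N = (y - x).val := by rw [hj, Nat.mul_comm]
          have : ((j * N : ℕ) : ZMod (M * N)) = y - x := by
            rw [e, ZMod.natCast_zmod_val]
          change x + ((j * N : ℕ) : ZMod (M * N)) = y
          rw [this]; abel
      · rintro ⟨j, _, rfl⟩
        refine ⟨hcl' j x hx, ?_⟩
        rw [ZMod.val_add, ZMod.val_natCast]
        rw [Nat.mod_mod_of_dvd _ (Dvd.intro_left M rfl), Nat.add_mod,
          Nat.mod_mod_of_dvd _ (Dvd.intro_left M rfl), Nat.mul_mod_left, Nat.add_zero,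
          Nat.mod_mod]
    rw [heq, Finset.card_image_of_injOn hinj, Finset.card_range]
  have hsum := Finset.card_eq_sum_card_image (fun x : ZMod (M * N) => x.val % N) P
  rw [hsum]
  apply Finset.dvd_sum
  intro c hc
  rw [hfib c hc]

/-- Let `P` be a nonempty set of at most `3M + 1` residues modulo `W = 8QM` such that for every
`x ∈ P` there is a start `x - δ x` with `x - δ x`, `x - δ x + q x`, `x - δ x + q x + Q` and
`x - δ x + 8Q` in `P`, where `δ x < 2Q` and `0 < q x < Q`. Then `P` contains a residue class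
modulo `8Q` on which `δ` vanishes. -/
theorem exists_comb {Q M : ℕ} (hM : 2 ≤ M) {P : Finset (ZMod (M * (8 * Q)))}
    (hne : P.Nonempty) (hcard : P.card ≤ 3 * M + 1) (δ q : ZMod (M * (8 * Q)) → ℕ)
    (hδ : ∀ x ∈ P, δ x < 2 * Q) (hq : ∀ x ∈ P, 0 < q x ∧ q x < Q)
    (h0 : ∀ x ∈ P, x - (δ x : ZMod (M * (8 * Q))) ∈ P)
    (h1 : ∀ x ∈ P, x - (δ x : ZMod (M * (8 * Q))) + (q x : ZMod (M * (8 * Q))) ∈ P)
    (h2 : ∀ x ∈ P, x - (δ x : ZMod (M * (8 * Q))) + ((q x + Q : ℕ) : ZMod (M * (8 * Q))) ∈ P)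
    (h3 : ∀ x ∈ P, x - (δ x : ZMod (M * (8 * Q))) + ((8 * Q : ℕ) : ZMod (M * (8 * Q))) ∈ P) :
    ∃ b ∈ P, ∀ i : ℕ, b + ((i * (8 * Q) : ℕ) : ZMod (M * (8 * Q))) ∈ P ∧
      δ (b + ((i * (8 * Q) : ℕ) : ZMod (M * (8 * Q)))) = 0 := by
  classical
  obtain ⟨x, hx⟩ := hne
  have hQ : 0 < Q := by have := hq x hx; omega
  have hW : 0 < M * (8 * Q) := Nat.mul_pos (by omega) (by omega)
  have : NeZero (M * (8 * Q)) := ⟨hW.ne'⟩
  -- the map
  let F : ZMod (M * (8 * Q)) → ZMod (M * (8 * Q)) :=
    fun x => x - (δ x : ZMod (M * (8 * Q))) + ((8 * Q : ℕ) : ZMod (M * (8 * Q)))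
  have hF : ∀ y ∈ P, F y ∈ P := h3
  have hFi : ∀ (i : ℕ), ∀ y ∈ P, F^[i] y ∈ P := by
    intro i
    induction i with
    | zero => intro y hy; simpa using hy
    | succ i ih => intro y hy; rw [Function.iterate_succ_apply']; exact hF _ (ih y hy)
  -- a periodic point
  obtain ⟨x0, hx0, hper⟩ : ∃ x0 ∈ P, x0 ∈ Function.periodicPts F := by
    have hni : ¬ Function.Injective (fun i : ℕ => F^[i] x) := not_injective_infinite_finite _
    simp only [Function.Injective, not_forall] at hni
    obtain ⟨i, j, hij, hne⟩ := hni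
    wlog hlt : i < j generalizing i j
    · exact this j i hij.symm (Ne.symm hne) (by omega)
    refine ⟨F^[i] x, hFi i x hx, Function.mk_mem_periodicPts (n := j - i) (by omega) ?_⟩
    change F^[j - i] (F^[i] x) = F^[i] x
    rw [← Function.iterate_add_apply, Nat.sub_add_cancel hlt.le]
    exact hij.symm
  set k := Function.minimalPeriod F x0 with hk
  have hkpos : 0 < k := Function.minimalPeriod_pos_of_mem_periodicPts hper
  have hkper : F^[k] x0 = x0 := Function.isPeriodicPt_minimalPeriod F x0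
  have hkinj : ∀ i < k, ∀ j < k, F^[i] x0 = F^[j] x0 → i = j := by
    intro i hi j hj hij
    exact Function.iterate_injOn_Iio_minimalPeriod hi hj hij
  -- notation
  let s : ℕ → ZMod (M * (8 * Q)) := fun i => F^[i] x0
  have hsP : ∀ i, s i ∈ P := fun i => hFi i x0 hx0
  have hs0 : s 0 = x0 := rfl
  have hsk : s k = x0 := hkper
  have hsS : ∀ i, s (i + 1) = s i - (δ (s i) : ZMod (M * (8 * Q)))
      + ((8 * Q : ℕ) : ZMod (M * (8 * Q))) := by
    intro i
    change F^[i + 1] x0 = _
    rw [Function.iterate_succ_apply']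
  -- the integer lifts
  let Y : ℕ → ℤ := fun i => (8 * Q : ℤ) * i - ∑ t ∈ Finset.range i, (δ (s t) : ℤ)
  have hYS : ∀ i, Y (i + 1) = Y i + 8 * Q - δ (s i) := by
    intro i
    simp only [Y, Finset.sum_range_succ]
    push_cast
    ring
  have hY0 : Y 0 = 0 := by simp [Y]
  have hYs : ∀ i, s i = x0 + ((Y i : ℤ) : ZMod (M * (8 * Q))) := by
    intro i
    induction i with
    | zero => rw [hY0, hs0]; simp
    | succ i ih =>
      rw [hsS, hYS]
      push_cast
      linear_combination ih
  -- the sum over the period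
  have hdvd : ((M * (8 * Q) : ℕ) : ℤ) ∣ Y k := by
    have e := hYs k
    rw [hsk] at e
    have e' : ((Y k : ℤ) : ZMod (M * (8 * Q))) = 0 := by
      have := e.symm
      rwa [add_eq_left] at this
    exact (ZMod.intCast_zmod_eq_zero_iff_dvd _ _).1 e'
  obtain ⟨h, hh⟩ := hdvd
  -- starts
  let b : ℕ → ℤ := fun i => Y i - δ (s i)
  have hδs : ∀ i, (δ (s i) : ℤ) < 2 * Q := fun i => by exact_mod_cast hδ _ (hsP i)
  have hqs : ∀ i, (0 : ℤ) < q (s i) ∧ (q (s i) : ℤ) < Q := fun i => by
    exact_mod_cast hq _ (hsP i)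
  have hbS : ∀ i, b i + 6 * Q < b (i + 1) := by
    intro i
    simp only [b, hYS]
    have := hδs (i + 1)
    linarith
  have hblt : ∀ i j, i < j → b i + 6 * Q < b j := by
    intro i j hij
    induction j, hij using Nat.le_induction with
    | base => exact hbS i
    | succ j hj ih =>
      have := hbS j
      have hQ' : (0 : ℤ) < Q := by exact_mod_cast hQ
      linarith
  have hbk : b k = b 0 + h * (M * (8 * Q) : ℕ) := by
    simp only [b]
    rw [hsk, hs0, hY0, hh]
    ring
  have hQ' : (0 : ℤ) < Q := by exact_mod_cast hQ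
  have hWpos : (0 : ℤ) < ((M * (8 * Q) : ℕ) : ℤ) := by exact_mod_cast hW
  have hhpos : 0 < h := by
    have e1 := hblt 0 k hkpos
    rw [hbk] at e1
    have : 0 < h * ((M * (8 * Q) : ℕ) : ℤ) := by linarith
    exact (mul_pos_iff_of_pos_right hWpos).1 this
  obtain ⟨h', rfl⟩ : ∃ h' : ℕ, h = (h' : ℤ) := ⟨h.toNat, (Int.toNat_of_nonneg hhpos.le).symm⟩
  have hh'pos : 0 < h' := by exact_mod_cast hhpos
  -- (a) the counting inequality
  have hcount : 3 * k ≤ h' * P.card := by
    let g : ℕ × ℕ → ℤ := fun a =>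
      b a.1 + (if a.2 = 0 then 0 else if a.2 = 1 then (q (s a.1) : ℤ) else (q (s a.1) : ℤ) + Q)
    have hgmem : ∀ a ∈ (Finset.range k) ×ˢ (Finset.range 3),
        x0 + ((g a : ℤ) : ZMod (M * (8 * Q))) ∈ P := by
      rintro ⟨i, c⟩ ha
      simp only [Finset.mem_product, Finset.mem_range] at ha
      obtain ⟨hi, hc⟩ := ha
      have hbcast : x0 + ((b i : ℤ) : ZMod (M * (8 * Q)))
          = s i - (δ (s i) : ZMod (M * (8 * Q))) := by
        simp only [b]
        push_cast
        linear_combination -(hYs i)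
      interval_cases c
      · have := h0 _ (hsP i)
        simp only [g, if_true, add_zero]
        rw [hbcast]
        exact this
      · have := h1 _ (hsP i)
        simp only [g, one_ne_zero, if_false, if_true]
        push_cast
        rw [← add_assoc, hbcast]
        exact this
      · have := h2 _ (hsP i)
        simp only [g]
        norm_num
        rw [← add_assoc, hbcast]
        push_cast at this
        exact this
    have hgb : ∀ a ∈ (Finset.range k) ×ˢ (Finset.range 3),
        b a.1 ≤ g a ∧ g a < b a.1 + 2 * Q := by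
      rintro ⟨i, c⟩ ha
      simp only [g]
      have := hqs i
      split_ifs <;> constructor <;> linarith [this.1, this.2]
    have hginj : Set.InjOn g ((Finset.range k) ×ˢ (Finset.range 3) : Finset (ℕ × ℕ)) := by
      rintro ⟨i, c⟩ ha ⟨j, d⟩ ha' hij
      have hb1 := hgb _ ha
      have hb2 := hgb _ ha'
      rw [hij] at hb1
      simp only at hb1 hb2
      have hije : i = j := by
        rcases lt_trichotomy i j with hlt | he | hgt
        · exfalso; have := hblt i j hlt; linarith [hb1.2, hb2.1]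
        · exact he
        · exfalso; have := hblt j i hgt; linarith [hb1.1, hb2.2]
      subst hije
      have hq1 := hqs i
      simp only [Finset.coe_product, Finset.coe_range, Set.mem_prod, Set.mem_Iio] at ha ha'
      obtain ⟨_, hc⟩ := ha
      obtain ⟨_, hd⟩ := ha'
      simp only [g] at hij
      have : c = d := by
        interval_cases c <;> interval_cases d <;> simp at hij ⊢ <;>
          (exfalso; linarith [hq1.1, hq1.2])
      rw [this]
    have key : ((Finset.range k) ×ˢ (Finset.range 3)).card ≤ h' * P.card := by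
      apply Finset.card_le_mul_card_image_of_maps_to
        (f := fun a => x0 + ((g a : ℤ) : ZMod (M * (8 * Q)))) hgmem
      intro r hr
      obtain ⟨v, hv⟩ : ∃ v : ℤ, ((v : ℤ) : ZMod (M * (8 * Q))) = r - x0 :=
        ZMod.intCast_surjective _
      calc _ ≤ (Finset.filter (fun z : ℤ => z ≡ v [ZMOD ((M * (8 * Q) : ℕ) : ℤ)])
              (Finset.Ico (b 0) (b 0 + h' * ((M * (8 * Q) : ℕ) : ℤ)))).card := by
            apply Finset.card_le_card_of_injOn g
            · intro a ha
              simp only [Finset.coe_filter, Set.mem_ofPred_eq] at ha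
              obtain ⟨ha1, ha2⟩ := ha
              have hb1 := hgb a ha1
              simp only [Finset.mem_product, Finset.mem_range] at ha1
              simp only [Finset.coe_filter, Finset.mem_Ico, Set.mem_ofPred_eq]
              refine ⟨⟨?_, ?_⟩, ?_⟩
              · rcases Nat.eq_zero_or_pos a.1 with h00 | h00
                · rw [h00] at hb1; exact hb1.1
                · have := hblt 0 a.1 h00; linarith [hb1.1]
              · rw [← hbk]
                have := hblt a.1 k ha1.1
                linarith [hb1.2]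
              · rw [← ZMod.intCast_eq_intCast_iff, hv, ← ha2]
                ring
            · intro a ha a' ha' he
              simp only [Finset.coe_filter, Set.mem_ofPred_eq] at ha ha'
              exact hginj ha.1 ha'.1 he
        _ ≤ h' := by
            have e := Int.Ico_filter_modEq_card (b 0) (b 0 + h' * ((M * (8 * Q) : ℕ) : ℤ))
              hWpos v
            have hne' : (((M * (8 * Q) : ℕ) : ℤ) : ℚ) ≠ 0 := by exact_mod_cast hW.ne'
            have e2 : (((b 0 + h' * ((M * (8 * Q) : ℕ) : ℤ) : ℤ) : ℚ) - v)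
                / (((M * (8 * Q) : ℕ) : ℤ) : ℚ)
                = ((b 0 : ℚ) - v) / (((M * (8 * Q) : ℕ) : ℤ) : ℚ) + ((h' : ℤ) : ℚ) := by
              field_simp
              push_cast
              ring
            rw [e2, Int.ceil_add_intCast] at e
            have e3 : max (⌈((b 0 : ℚ) - v) / (((M * (8 * Q) : ℕ) : ℤ) : ℚ)⌉ + (h' : ℤ)
                - ⌈((b 0 : ℚ) - v) / (((M * (8 * Q) : ℕ) : ℤ) : ℚ)⌉) 0 = (h' : ℤ) := by
              rw [add_sub_cancel_left]
              exact max_eq_left (by positivity)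
            rw [e3] at e
            exact_mod_cast e.le
    rw [Finset.card_product, Finset.card_range, Finset.card_range] at key
    omega
  -- (b) the sum of the delays
  have hsum : (8 * Q : ℤ) * k - ∑ t ∈ Finset.range k, (δ (s t) : ℤ) = (M * (8 * Q)) * h' := by
    have := hh
    simp only [Y] at this
    rw [this]
    push_cast
    ring
  have hsumnat : 8 * Q * k = M * (8 * Q) * h' + ∑ t ∈ Finset.range k, δ (s t) := by
    have : ((8 * Q * k : ℕ) : ℤ) = ((M * (8 * Q) * h' + ∑ t ∈ Finset.range k, δ (s t) : ℕ) : ℤ) := by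
      push_cast
      linarith
    exact_mod_cast this
  have hkge : h' * M ≤ k := by
    have : 8 * Q * (h' * M) ≤ 8 * Q * k := by
      rw [hsumnat]
      calc 8 * Q * (h' * M) = M * (8 * Q) * h' := by ring
        _ ≤ _ := Nat.le_add_right _ _
    exact Nat.le_of_mul_le_mul_left this (by omega)
  rcases hkge.eq_or_lt with hkeq | hklt
  · -- all delays vanish
    have hz : ∑ t ∈ Finset.range k, δ (s t) = 0 := by
      have : 8 * Q * k = M * (8 * Q) * h' := by rw [← hkeq]; ring
      omega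
    have hz' : ∀ t < k, δ (s t) = 0 := by
      intro t ht
      exact Finset.sum_eq_zero_iff.1 hz t (Finset.mem_range.2 ht)
    have hz'' : ∀ t, δ (s t) = 0 := by
      intro t
      have : s t = s (t % k) := by
        change F^[t] x0 = F^[t % k] x0
        exact (Function.iterate_mod_minimalPeriod_eq (f := F) (x := x0) (n := t)).symm
      rw [this]
      exact hz' _ (Nat.mod_lt _ hkpos)
    have hlin : ∀ i : ℕ, s i = x0 + ((i * (8 * Q) : ℕ) : ZMod (M * (8 * Q))) := by
      intro i
      induction i with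
      | zero => simp [hs0]
      | succ i ih =>
        rw [hsS, hz'' i, ih]
        push_cast
        ring
    refine ⟨x0, hx0, fun i => ?_⟩
    rw [← hlin i]
    exact ⟨hsP i, hz'' i⟩
  · -- contradiction
    exfalso
    have himg : (Finset.range k).image s ⊆ P := by
      intro y hy
      obtain ⟨i, _, rfl⟩ := Finset.mem_image.1 hy
      exact hsP i
    have hcardimg : ((Finset.range k).image s).card = k := by
      rw [Finset.card_image_of_injOn, Finset.card_range]
      intro i hi j hj hij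
      simp only [Finset.coe_range, Set.mem_Iio] at hi hj
      exact hkinj i hi j hj hij
    have hkle : k ≤ P.card := by
      rw [← hcardimg]; exact Finset.card_le_card himg
    have hh3 : 3 ≤ h' := by
      by_contra hlt
      push Not at hlt
      have e1 : 3 * (h' * M + 1) ≤ h' * (3 * M + 1) :=
        calc 3 * (h' * M + 1) ≤ 3 * k := by omega
          _ ≤ h' * P.card := hcount
          _ ≤ h' * (3 * M + 1) := Nat.mul_le_mul_left _ hcard
      have e2 : h' * (3 * M + 1) = 3 * (h' * M) + h' := by ring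
      omega
    have hk3 : 3 * M + 1 ≤ k := by
      have : 3 * M ≤ h' * M := Nat.mul_le_mul_right _ hh3
      omega
    have hkP : k = P.card := by omega
    have hP3 : P.card = 3 * M + 1 := by omega
    have himgeq : (Finset.range k).image s = P :=
      Finset.eq_of_subset_of_card_le himg (by rw [hcardimg, hkP])
    -- the starts
    have hsubt : (Finset.range k).image (fun i => s (i + 1)) = P := by
      apply Finset.Subset.antisymm
      · intro y hy
        obtain ⟨i, _, rfl⟩ := Finset.mem_image.1 hy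
        exact hsP _
      · intro y hy
        rw [← himgeq] at hy
        obtain ⟨i, hi, rfl⟩ := Finset.mem_image.1 hy
        rw [Finset.mem_range] at hi
        rcases Nat.eq_zero_or_pos i with rfl | hi0
        · refine Finset.mem_image.2 ⟨k - 1, Finset.mem_range.2 (by omega), ?_⟩
          change s (k - 1 + 1) = s 0
          rw [Nat.sub_add_cancel hkpos, hsk, hs0]
        · refine Finset.mem_image.2 ⟨i - 1, Finset.mem_range.2 (by omega), ?_⟩
          change s (i - 1 + 1) = s i
          rw [Nat.sub_add_cancel hi0]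
    have hcl : ∀ y ∈ P, y + ((8 * Q : ℕ) : ZMod (M * (8 * Q))) ∈ P := by
      -- the starts `y` with `y + 8Q ∈ P` form a subset of `P` with `|P|` elements
      let T : Finset (ZMod (M * (8 * Q))) :=
        P.image (fun y => y - ((8 * Q : ℕ) : ZMod (M * (8 * Q))))
      have hTP : T ⊆ P := by
        intro z hz
        obtain ⟨y, hy, rfl⟩ := Finset.mem_image.1 hz
        rw [← hsubt] at hy
        obtain ⟨i, _, rfl⟩ := Finset.mem_image.1 hy
        change s (i + 1) - _ ∈ P
        rw [hsS]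
        have := h0 _ (hsP i)
        rwa [add_sub_cancel_right]
      have hTc : T.card = P.card := by
        apply Finset.card_image_of_injective
        intro a a' haa
        exact sub_left_injective haa
      have hTe : T = P := Finset.eq_of_subset_of_card_le hTP hTc.ge
      intro y hy
      rw [← hTe] at hy
      obtain ⟨z, hz, rfl⟩ := Finset.mem_image.1 hy
      simpa using hz
    have hdiv := dvd_card_of_closed (N := 8 * Q) (M := M) (by omega) (by omega) P hcl
    rw [hP3] at hdiv
    have : M ∣ 1 := (Nat.dvd_add_right (Dvd.intro_left 3 rfl)).1 hdiv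
    have := Nat.le_of_dvd one_pos this
    omega

end Pool.Agent.Lib.MP_3da8ac_lc
end

section

/-!
# A small closed set of residues is a tiling
-/

set_option autoImplicit false

namespace Pool.Agent.Lib.MP_3da8ac_lc

namespace TileSys

private theorem toc_blk {B i j a b : ℕ} (ha : a < B) (hb : b < B) (h : i * B + a = j * B + b) :
    i = j ∧ a = b := by
  have hB : 0 < B := by omega
  have h1 : (i * B + a) / B = i := by
    rw [mul_comm, Nat.mul_add_div hB, Nat.div_eq_of_lt ha, add_zero]
  have h2 : (j * B + b) / B = j := by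
    rw [mul_comm, Nat.mul_add_div hB, Nat.div_eq_of_lt hb, add_zero]
  have h3 : i = j := by rw [← h1, ← h2, h]
  subst h3
  exact ⟨rfl, by omega⟩

private theorem toc_uniq {M B : ℕ} (P : Finset ℕ) (hcard : P.card ≤ 3 * M + 1) (f g : ℕ → ℕ)
    (hf : ∀ i, 0 < f i) (hfg : ∀ i, f i < g i) (hg : ∀ i, g i < B)
    (h : ∀ i < M, i * B ∈ P ∧ i * B + f i ∈ P ∧ i * B + g i ∈ P)
    {i j r s : ℕ} (hi : i < M) (hj : j < M) (hr : r < B) (hs : s < B)
    (hir : i * B + r ∈ P) (hjs : j * B + s ∈ P)
    (hr0 : r ≠ 0) (hr1 : r ≠ f i) (hr2 : r ≠ g i)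
    (hs0 : s ≠ 0) (hs1 : s ≠ f j) (hs2 : s ≠ g j) : i = j ∧ r = s := by
  classical
  set base : Finset ℕ := (Finset.range M).biUnion (fun i => {i * B, i * B + f i, i * B + g i})
    with hbase
  have hB : 0 < B := by omega
  have hmem : ∀ k c, c < B → (k * B + c ∈ base → c = 0 ∨ c = f k ∨ c = g k) := by
    intro k c hc hk
    rw [hbase, Finset.mem_biUnion] at hk
    obtain ⟨k', hk', hk2⟩ := hk
    simp only [Finset.mem_insert, Finset.mem_singleton] at hk2
    rcases hk2 with h1 | h1 | h1
    · have := toc_blk hc hB (show k * B + c = k' * B + 0 by omega)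
      left; exact this.2
    · have := toc_blk hc (lt_trans (hfg k') (hg k')) h1
      obtain ⟨h2, h3⟩ := this
      subst h2
      right; left; exact h3
    · have := toc_blk hc (hg k') h1
      obtain ⟨h2, h3⟩ := this
      subst h2
      right; right; exact h3
  have hcb : base.card = 3 * M := by
    rw [hbase, Finset.card_biUnion]
    · have : ∀ i ∈ Finset.range M, ({i * B, i * B + f i, i * B + g i} : Finset ℕ).card = 3 := by
        intro i _
        have h1 := hf i
        have h2 := hfg i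
        rw [Finset.card_eq_three]
        exact ⟨_, _, _, by omega, by omega, by omega, rfl⟩
      rw [Finset.sum_congr rfl this]
      simp [mul_comm]
    · intro x _ y _ hxy
      rw [Function.onFun, Finset.disjoint_left]
      intro k hk1 hk2
      simp only [Finset.mem_insert, Finset.mem_singleton] at hk1 hk2
      have hx1 : ∃ c < B, k = x * B + c := by
        rcases hk1 with h1 | h1 | h1
        · exact ⟨0, hB, by omega⟩
        · exact ⟨f x, lt_trans (hfg x) (hg x), h1⟩
        · exact ⟨g x, hg x, h1⟩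
      have hy1 : ∃ c < B, k = y * B + c := by
        rcases hk2 with h1 | h1 | h1
        · exact ⟨0, hB, by omega⟩
        · exact ⟨f y, lt_trans (hfg y) (hg y), h1⟩
        · exact ⟨g y, hg y, h1⟩
      obtain ⟨c, hc, hc'⟩ := hx1
      obtain ⟨d, hd, hd'⟩ := hy1
      exact hxy (toc_blk hc hd (hc'.symm.trans hd')).1
  have hsub : base ⊆ P := by
    intro k hk
    rw [hbase, Finset.mem_biUnion] at hk
    obtain ⟨k', hk', hk2⟩ := hk
    have := h k' (Finset.mem_range.mp hk')
    simp only [Finset.mem_insert, Finset.mem_singleton] at hk2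
    rcases hk2 with h1 | h1 | h1
    · rw [h1]; exact this.1
    · rw [h1]; exact this.2.1
    · rw [h1]; exact this.2.2
  have hd : (P \ base).card ≤ 1 := by
    rw [Finset.card_sdiff_of_subset hsub]
    omega
  rw [Finset.card_le_one] at hd
  have := hd (i * B + r) (Finset.mem_sdiff.mpr ⟨hir, fun hh => by
    rcases hmem i r hr hh with h1 | h1 | h1
    · exact hr0 h1
    · exact hr1 h1
    · exact hr2 h1⟩) (j * B + s) (Finset.mem_sdiff.mpr ⟨hjs, fun hh => by
    rcases hmem j s hs hh with h1 | h1 | h1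
    · exact hs0 h1
    · exact hs1 h1
    · exact hs2 h1⟩)
  exact toc_blk hr hs this

variable (𝒯 : TileSys)

/-- the four types of supports -/
private theorem toc_cases {N X : ℕ} {s : List ℕ} (hs : s ∈ 𝒯.rules N X) :
    (∃ w : 𝒯.T × 𝒯.T × 𝒯.T × 𝒯.T, 𝒯.R w.1 w.2.1 w.2.2.1 w.2.2.2 ∧ s = 𝒯.ruleM N w) ∨
    (∃ t, s = 𝒯.ruleD N t) ∨ (∃ t, s = 𝒯.ruleD' N t) ∨
    (∃ w : 𝒯.T × 𝒯.T, 𝒯.sp w.1 ∧ 𝒯.pin w.2 ∧ s = 𝒯.ruleE N X w) := by
  unfold rules at hs
  simp only [List.mem_append, List.mem_map] at hs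
  rcases hs with ⟨w, hw, rfl⟩ | ⟨t, _, rfl⟩ | ⟨t, _, rfl⟩ | ⟨w, hw, rfl⟩
  · left
    refine ⟨w, ?_, rfl⟩
    unfold windows at hw
    simp only [Finset.mem_toList, Finset.mem_filter] at hw
    exact hw.2
  · right; left; exact ⟨t, rfl⟩
  · right; right; left; exact ⟨t, rfl⟩
  · right; right; right
    unfold pins at hw
    simp only [Finset.mem_toList, Finset.mem_filter] at hw
    exact ⟨w, hw.2.1, hw.2.2, rfl⟩

private theorem toc_main {N X M Q : ℕ} (hM : M = N ^ 2 + 1) (hQ : Q = 𝒯.Q) (hN : 2 ≤ N)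
    (hN2 : Even N) (P : Finset (ZMod (M * (8 * Q)))) (hne : P.Nonempty)
    (hcard : P.card ≤ 3 * M + 1)
    (hc : ∀ x ∈ P, ∃ s ∈ 𝒯.rules N X, ∀ d ∈ s, x + (d : ZMod (M * (8 * Q))) ∈ P) :
    ∃ τ : ℕ → 𝒯.T, 𝒯.Tiling N X τ := by
  classical
  have hM2 : 2 ≤ M := by nlinarith
  have hMo : Odd M := by
    obtain ⟨k, hk⟩ := hN2
    exact ⟨2 * k ^ 2, by subst hk; rw [hM]; ring⟩
  have hp3 := 𝒯.three_le_p
  have hpQ := 𝒯.p_lt
  rw [← hQ] at hpQ
  have hpi := 𝒯.p_injective
  -- casts
  have hW0 : ((M * (8 * Q) : ℕ) : ZMod (M * (8 * Q))) = 0 :=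
    ZMod.natCast_self _
  have hWl : 8 * Q ≤ M * (8 * Q) := Nat.le_mul_of_pos_left _ (by omega)
  have hT : Nonempty 𝒯.T := by
    obtain ⟨x, hx⟩ := hne
    obtain ⟨s, hs, _⟩ := hc x hx
    rcases 𝒯.toc_cases hs with ⟨w, _⟩ | ⟨t, _⟩ | ⟨t, _⟩ | ⟨w, _⟩
    · exact ⟨w.1⟩
    · exact ⟨t⟩
    · exact ⟨t⟩
    · exact ⟨w.1⟩
  have hQ4 : 4 ≤ Q := by
    obtain ⟨t⟩ := hT
    have := hp3 t
    have := hpQ t
    omega
  -- cast of a difference with the period
  have hcast : ∀ a : ℕ, a ≤ M * (8 * Q) →
      ((M * (8 * Q) - a : ℕ) : ZMod (M * (8 * Q))) = - (a : ZMod (M * (8 * Q))) := by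
    intro a ha
    rw [Nat.cast_sub ha, hW0, zero_sub]
  have hsup : ∀ x ∈ P, ∃ δ q : ℕ, δ < 2 * Q ∧ (0 < q ∧ q < Q) ∧
      x - (δ : ZMod (M * (8 * Q))) ∈ P ∧
      x - (δ : ZMod (M * (8 * Q))) + (q : ZMod (M * (8 * Q))) ∈ P ∧
      x - (δ : ZMod (M * (8 * Q))) + ((q + Q : ℕ) : ZMod (M * (8 * Q))) ∈ P ∧
      x - (δ : ZMod (M * (8 * Q))) + ((8 * Q : ℕ) : ZMod (M * (8 * Q))) ∈ P ∧
      (δ = 0 → ∃ w : 𝒯.T × 𝒯.T × 𝒯.T × 𝒯.T, 𝒯.R w.1 w.2.1 w.2.2.1 w.2.2.2 ∧
        ∀ d ∈ 𝒯.ruleM N w, x + (d : ZMod (M * (8 * Q))) ∈ P) := by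
    intro x hx
    obtain ⟨s, hs, hd⟩ := hc x hx
    rcases 𝒯.toc_cases hs with ⟨w, hw, rfl⟩ | ⟨t, rfl⟩ | ⟨t, rfl⟩ | ⟨w, hw1, hw2, rfl⟩
    · refine ⟨0, 𝒯.p w.1, by omega, ⟨by have := hp3 w.1; omega, hpQ _⟩, ?_, ?_, ?_, ?_,
        fun _ => ⟨w, hw, hd⟩⟩
      · simpa using hx
      · have := hd (𝒯.p w.1) (by simp [ruleM])
        simpa using this
      · have := hd (𝒯.p w.1 + Q) (by simp [ruleM, hQ])
        rw [Nat.cast_zero, sub_zero]
        exact this
      · have := hd (8 * Q) (by simp [ruleM, hQ])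
        rw [Nat.cast_zero, sub_zero]
        exact this
    · have h3 := hp3 t
      have h4 := hpQ t
      refine ⟨𝒯.p t, 𝒯.p t, by omega, ⟨by omega, h4⟩, ?_, ?_, ?_, ?_, fun h => by omega⟩
      · have := hd (M * (8 * Q) - 𝒯.p t) (by simp [ruleD, hM, hQ])
        rw [hcast _ (by omega)] at this
        rw [sub_eq_add_neg]; exact this
      · rw [sub_add_cancel]; exact hx
      · have := hd Q (by simp [ruleD, hQ])
        have e1 : x - (𝒯.p t : ZMod (M * (8 * Q))) + ((𝒯.p t + Q : ℕ) : ZMod (M * (8 * Q)))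
          = x + (Q : ZMod (M * (8 * Q))) := by push_cast; ring
        rw [e1]; exact this
      · have := hd (8 * Q - 𝒯.p t) (by simp [ruleD, hQ])
        rw [Nat.cast_sub (by omega)] at this
        have e1 : x - (𝒯.p t : ZMod (M * (8 * Q))) + ((8 * Q : ℕ) : ZMod (M * (8 * Q)))
          = x + (((8 * Q : ℕ) : ZMod (M * (8 * Q))) - (𝒯.p t : ZMod (M * (8 * Q)))) := by ring
        rw [e1]; exact this
    · have h3 := hp3 t
      have h4 := hpQ t
      refine ⟨𝒯.p t + Q, 𝒯.p t, by omega, ⟨by omega, h4⟩, ?_, ?_, ?_, ?_, fun h => by omega⟩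
      · have := hd (M * (8 * Q) - 𝒯.p t - Q) (by simp [ruleD', hM, hQ])
        rw [Nat.sub_sub, hcast _ (by omega)] at this
        rw [sub_eq_add_neg]; exact this
      · have := hd (M * (8 * Q) - Q) (by simp [ruleD', hM, hQ])
        rw [hcast _ (by omega)] at this
        have e1 : x - ((𝒯.p t + Q : ℕ) : ZMod (M * (8 * Q))) + (𝒯.p t : ZMod (M * (8 * Q)))
          = x + -(Q : ZMod (M * (8 * Q))) := by push_cast; ring
        rw [e1]; exact this
      · rw [sub_add_cancel]; exact hx
      · have := hd (8 * Q - 𝒯.p t - Q) (by simp [ruleD', hQ])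
        rw [Nat.sub_sub, Nat.cast_sub (by omega)] at this
        have e1 : x - ((𝒯.p t + Q : ℕ) : ZMod (M * (8 * Q))) + ((8 * Q : ℕ) : ZMod (M * (8 * Q)))
          = x + (((8 * Q : ℕ) : ZMod (M * (8 * Q))) - ((𝒯.p t + Q : ℕ) : ZMod (M * (8 * Q)))) := by
          ring
        rw [e1]; exact this
    · have h3 := hp3 w.1
      have h4 := hpQ w.1
      refine ⟨1, 𝒯.p w.1, by omega, ⟨by omega, h4⟩, ?_, ?_, ?_, ?_, fun h => by omega⟩
      · have := hd (M * (8 * Q) - 1) (by simp [ruleE, hM, hQ])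
        rw [hcast _ (by omega)] at this
        rw [sub_eq_add_neg]; exact this
      · have := hd (𝒯.p w.1 - 1) (by simp [ruleE])
        rw [Nat.cast_sub (by omega)] at this
        have e1 : x - ((1 : ℕ) : ZMod (M * (8 * Q))) + (𝒯.p w.1 : ZMod (M * (8 * Q)))
          = x + ((𝒯.p w.1 : ZMod (M * (8 * Q))) - ((1 : ℕ) : ZMod (M * (8 * Q)))) := by ring
        rw [e1]; exact this
      · have := hd (𝒯.p w.1 + Q - 1) (by simp [ruleE, hQ])
        rw [Nat.cast_sub (by omega)] at this
        have e1 : x - ((1 : ℕ) : ZMod (M * (8 * Q))) + ((𝒯.p w.1 + Q : ℕ) : ZMod (M * (8 * Q)))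
          = x + (((𝒯.p w.1 + Q : ℕ) : ZMod (M * (8 * Q))) - ((1 : ℕ) : ZMod (M * (8 * Q)))) := by
          ring
        rw [e1]; exact this
      · have := hd (8 * Q - 1) (by simp [ruleE, hQ])
        rw [Nat.cast_sub (by omega)] at this
        have e1 : x - ((1 : ℕ) : ZMod (M * (8 * Q))) + ((8 * Q : ℕ) : ZMod (M * (8 * Q)))
          = x + (((8 * Q : ℕ) : ZMod (M * (8 * Q))) - ((1 : ℕ) : ZMod (M * (8 * Q)))) := by ring
        rw [e1]; exact this
  choose! δ q hδ hq h0 h1 h2 h3 hw using hsup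
  obtain ⟨b, hb, hcomb⟩ := exists_comb hM2 hne hcard δ q hδ hq h0 h1 h2 h3
  -- membership of positions
  obtain ⟨B, hB⟩ : ∃ B, B = 8 * Q := ⟨_, rfl⟩
  have hB0 : 0 < B := by omega
  have hW : 0 < M * B := by positivity
  let mem : ℕ → Prop := fun k => b + (k : ZMod (M * (8 * Q))) ∈ P
  have hmemW : ∀ k j, mem (k + j * (M * B)) ↔ mem k := by
    intro k j
    show b + ((k + j * (M * B) : ℕ) : ZMod (M * (8 * Q))) ∈ P ↔ _
    rw [hB, Nat.cast_add, Nat.cast_mul, hW0, mul_zero, add_zero]
  have hmemB : ∀ i r, mem (i * B + r) ↔ mem ((i % M) * B + r) := by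
    intro i r
    have := hmemW ((i % M) * B + r) (i / M)
    rw [← this]
    have e1 : i * B + r = i % M * B + r + i / M * (M * B) := by
      have := Nat.mod_add_div i M
      calc i * B + r = (i % M + M * (i / M)) * B + r := by rw [this]
        _ = _ := by ring
    rw [e1]
  have hcomb' : ∀ i : ℕ, ∃ w : 𝒯.T × 𝒯.T × 𝒯.T × 𝒯.T, 𝒯.R w.1 w.2.1 w.2.2.1 w.2.2.2 ∧
        ∀ d ∈ 𝒯.ruleM N w, mem (i * B + d) := by
    intro i
    obtain ⟨w, hw1, hw2⟩ := hw _ (hcomb i).1 (hcomb i).2
    refine ⟨w, hw1, fun d hd => ?_⟩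
    have := hw2 d hd
    show b + ((i * B + d : ℕ) : ZMod (M * (8 * Q))) ∈ P
    rw [hB, Nat.cast_add, ← add_assoc]
    exact this
  choose ω hω1 hω2 using hcomb'
  -- the tile at a position, periodic
  let τ : ℕ → 𝒯.T := fun i => (ω (i % M)).1
  have hτ : ∀ i, τ (i % M) = τ i := by
    intro i
    show (ω (i % M % M)).1 = (ω (i % M)).1
    rw [Nat.mod_mod]
  have hMpos : 0 < M := by omega
  have hbase : ∀ i < M, mem (i * B) ∧ mem (i * B + 𝒯.p (τ i)) ∧ mem (i * B + (𝒯.p (τ i) + Q)) := by
    intro i hi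
    have e1 : τ i = (ω i).1 := by
      show (ω (i % M)).1 = _
      rw [Nat.mod_eq_of_lt hi]
    refine ⟨?_, ?_, ?_⟩
    · rw [hB]; exact (hcomb i).1
    · rw [e1]
      exact hω2 i _ (by simp [ruleM])
    · rw [e1]
      exact hω2 i _ (by simp [ruleM, hQ])
  -- the finite set of positions
  let P' : Finset ℕ := (Finset.range (M * B)).filter (fun k => mem k)
  have hP'card : P'.card ≤ 3 * M + 1 := by
    refine le_trans ?_ hcard
    refine Finset.card_le_card_of_injOn (fun k => b + (k : ZMod (M * (8 * Q)))) ?_ ?_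
    · intro k hk
      exact (Finset.mem_filter.mp hk).2
    · intro k hk k' hk' hkk
      have hk1 := Finset.mem_range.mp (Finset.mem_filter.mp hk).1
      have hk2 := Finset.mem_range.mp (Finset.mem_filter.mp hk').1
      have h5 : (k : ZMod (M * (8 * Q))) = (k' : ZMod (M * (8 * Q))) := add_left_cancel hkk
      rw [ZMod.natCast_eq_natCast_iff] at h5
      rw [hB] at hk1 hk2
      exact Nat.ModEq.eq_of_lt_of_lt h5 hk1 hk2
  have hmemP : ∀ i < M, ∀ r < B, mem (i * B + r) → i * B + r ∈ P' := by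
    intro i hi r hr hm
    refine Finset.mem_filter.mpr ⟨Finset.mem_range.mpr ?_, hm⟩
    calc i * B + r < i * B + B := by omega
      _ = (i + 1) * B := by ring
      _ ≤ M * B := Nat.mul_le_mul_right _ hi
  have huniq : ∀ i j r s, r < B → s < B → mem (i * B + r) → mem (j * B + s) →
      r ≠ 0 → r ≠ 𝒯.p (τ i) → r ≠ 𝒯.p (τ i) + Q → s ≠ 0 → s ≠ 𝒯.p (τ j) →
      s ≠ 𝒯.p (τ j) + Q → i % M = j % M ∧ r = s := by
    intro i j r s hr hs hir hjs a1 a2 a3 b1 b2 b3
    have hi := Nat.mod_lt i hMpos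
    have hj := Nat.mod_lt j hMpos
    rw [hmemB] at hir hjs
    refine toc_uniq (B := B) P' hP'card (fun i => 𝒯.p (τ i)) (fun i => 𝒯.p (τ i) + Q)
      (fun i => by have := hp3 (τ i); omega) (fun i => by omega)
      (fun i => by have := hpQ (τ i); omega) ?_ hi hj hr hs (hmemP _ hi r hr hir)
      (hmemP _ hj s hs hjs) a1 ?_ ?_ b1 ?_ ?_
    · intro k hk
      obtain ⟨c1, c2, c3⟩ := hbase k hk
      refine ⟨?_, ?_, ?_⟩
      · exact hmemP k hk 0 hB0 c1
      · exact hmemP k hk _ (by have := hpQ (τ k); omega) c2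
      · exact hmemP k hk _ (by have := hpQ (τ k); omega) c3
    · rw [hτ]; exact a2
    · rw [hτ]; exact a3
    · rw [hτ]; exact b2
    · rw [hτ]; exact b3
  -- reading
  have hread : ∀ i t, mem (i * B + 𝒯.p t) → mem (i * B + (𝒯.p t + Q)) → t = τ i := by
    intro i t h5 h6
    by_contra hne'
    have h7 : 𝒯.p t ≠ 𝒯.p (τ i) := fun h => hne' (hpi h)
    have a1 := hp3 t
    have a2 := hpQ t
    have a3 := hp3 (τ i)
    have a4 := hpQ (τ i)
    have := huniq i i (𝒯.p t) (𝒯.p t + Q) (by omega) (by omega) h5 h6 (by omega) h7 (by omega)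
      (by omega) (by omega) (by omega)
    omega
  have hτω : ∀ i, (ω i).1 = τ i := by
    intro i
    apply hread
    · exact hω2 i _ (by simp [ruleM])
    · exact hω2 i _ (by simp [ruleM, hQ])
  have hRτ : ∀ i, 𝒯.R (τ i) (τ (i + 1)) (τ (i + N)) (τ (i + N + 1)) := by
    intro i
    have e1 : (ω i).2.1 = τ (i + 1) := by
      apply hread
      · have := hω2 i (8 * Q + 𝒯.p (ω i).2.1) (by simp [ruleM, hQ])
        have e : (i + 1) * B + 𝒯.p (ω i).2.1 = i * B + (8 * Q + 𝒯.p (ω i).2.1) := by
          rw [hB]; ring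
        rw [e]; exact this
      · have := hω2 i (8 * Q + 𝒯.p (ω i).2.1 + Q) (by simp [ruleM, hQ])
        have e : (i + 1) * B + (𝒯.p (ω i).2.1 + Q) = i * B + (8 * Q + 𝒯.p (ω i).2.1 + Q) := by
          rw [hB]; ring
        rw [e]; exact this
    have e2 : (ω i).2.2.1 = τ (i + N) := by
      apply hread
      · have := hω2 i (N * (8 * Q) + 𝒯.p (ω i).2.2.1) (by simp [ruleM, hQ])
        have e : (i + N) * B + 𝒯.p (ω i).2.2.1 = i * B + (N * (8 * Q) + 𝒯.p (ω i).2.2.1) := by
          rw [hB]; ring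
        rw [e]; exact this
      · have := hω2 i (N * (8 * Q) + 𝒯.p (ω i).2.2.1 + Q) (by simp [ruleM, hQ])
        have e : (i + N) * B + (𝒯.p (ω i).2.2.1 + Q) =
            i * B + (N * (8 * Q) + 𝒯.p (ω i).2.2.1 + Q) := by
          rw [hB]; ring
        rw [e]; exact this
    have e3 : (ω i).2.2.2 = τ (i + N + 1) := by
      apply hread
      · have := hω2 i ((N + 1) * (8 * Q) + 𝒯.p (ω i).2.2.2) (by simp [ruleM, hQ])
        have e : (i + N + 1) * B + 𝒯.p (ω i).2.2.2 =
            i * B + ((N + 1) * (8 * Q) + 𝒯.p (ω i).2.2.2) := by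
          rw [hB]; ring
        rw [e]; exact this
      · have := hω2 i ((N + 1) * (8 * Q) + 𝒯.p (ω i).2.2.2 + Q) (by simp [ruleM, hQ])
        have e : (i + N + 1) * B + (𝒯.p (ω i).2.2.2 + Q) =
            i * B + ((N + 1) * (8 * Q) + 𝒯.p (ω i).2.2.2 + Q) := by
          rw [hB]; ring
        rw [e]; exact this
    rw [← e1, ← e2, ← e3, ← hτω i]
    exact hω1 i
  -- special tiles
  have hspec : ∀ i, 𝒯.sp (τ i) → mem (i * B + 1) := by
    intro i hi
    rw [← hτω i] at hi
    exact hω2 i 1 (by simp [ruleM, hi])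
  have hspu : ∀ i j, 𝒯.sp (τ i) → 𝒯.sp (τ j) → i % M = j % M := by
    intro i j hi hj
    have a3 := hp3 (τ i)
    have b3 := hp3 (τ j)
    exact (huniq i j 1 1 (by omega) (by omega) (hspec i hi) (hspec j hj) (by omega) (by omega)
      (by omega) (by omega) (by omega) (by omega)).1
  have hτM : ∀ i, τ (i + M) = τ i := by
    intro i
    rw [← hτ (i + M), Nat.add_mod_right, hτ]
  obtain ⟨c, hcM, hcs⟩ : ∃ c < M, 𝒯.sp (τ c) := by
    by_contra hno
    push Not at hno
    have hno' : ∀ i, ¬ 𝒯.sp (τ i) := by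
      intro i
      rw [← hτ i]
      exact hno _ (Nat.mod_lt i hMpos)
    have hpar : ∀ i, 𝒯.par (τ (i + 1)) = !𝒯.par (τ i) := by
      intro i
      exact 𝒯.hpar _ _ _ _ (hRτ i) (hno' _)
    have hpar2 : ∀ k, 𝒯.par (τ (2 * k)) = 𝒯.par (τ 0) := by
      intro k
      induction k with
      | zero => rfl
      | succ k ih =>
        have e1 : 2 * (k + 1) = 2 * k + 1 + 1 := by ring
        rw [e1, hpar, hpar, ih, Bool.not_not]
    obtain ⟨k, hk⟩ := hMo
    have h8 := hpar (2 * k)
    rw [← hk, hpar2] at h8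
    have h9 := hτM 0
    rw [zero_add] at h9
    rw [h9] at h8
    cases h10 : 𝒯.par (τ 0) <;> rw [h10] at h8 <;> simp at h8
  have hcm : c % M = c := Nat.mod_eq_of_lt hcM
  have hex := hspec c hcs
  have a3 := hp3 (τ c)
  -- the rule at the extra point
  obtain ⟨s, hs, hd⟩ := hc (b + ((c * B + 1 : ℕ) : ZMod (M * (8 * Q)))) hex
  have hd' : ∀ d ∈ s, mem (c * B + 1 + d) := by
    intro d hds
    have := hd d hds
    show b + ((c * B + 1 + d : ℕ) : ZMod (M * (8 * Q))) ∈ P
    rw [Nat.cast_add (c * B + 1) d, ← add_assoc]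
    exact this
  have hpinc : 𝒯.pin (τ (c + X)) := by
    rcases 𝒯.toc_cases hs with ⟨w, _, rfl⟩ | ⟨t, rfl⟩ | ⟨t, rfl⟩ | ⟨w, hw1, hw2, rfl⟩
    · exfalso
      have h5 := hd' (8 * Q) (by simp [ruleM, hQ])
      have e : c * B + 1 + 8 * Q = (c + 1) * B + 1 := by rw [hB]; ring
      rw [e] at h5
      have b3 := hp3 (τ (c + 1))
      have := (huniq (c + 1) c 1 1 (by omega) (by omega) h5 hex (by omega) (by omega) (by omega)
        (by omega) (by omega) (by omega)).1
      rw [hcm] at this
      rcases Nat.lt_or_ge (c + 1) M with h6 | h6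
      · rw [Nat.mod_eq_of_lt h6] at this; omega
      · have h7 : c + 1 = M := by omega
        rw [h7, Nat.mod_self] at this
        omega
    · exfalso
      have h5 := hd' Q (by simp [ruleD, hQ])
      have e : c * B + 1 + Q = c * B + (1 + Q) := by ring
      rw [e] at h5
      have b4 := hpQ (τ c)
      have := (huniq c c (1 + Q) 1 (by omega) (by omega) h5 hex (by omega) (by omega) (by omega)
        (by omega) (by omega) (by omega)).2
      omega
    · exfalso
      have h5 := hd' (M * (8 * Q) - Q) (by simp [ruleD', hQ, hM])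
      have e : c * B + 1 + (M * (8 * Q) - Q) = (c + (M - 1)) * B + (1 + 7 * Q) := by
        obtain ⟨m, hm⟩ : ∃ m, M = m + 1 := ⟨M - 1, by omega⟩
        rw [hm]
        have e1 : (m + 1) * (8 * Q) - Q = m * (8 * Q) + 7 * Q := by
          have : (m + 1) * (8 * Q) = m * (8 * Q) + 7 * Q + Q := by ring
          omega
        rw [e1, hB, Nat.add_sub_cancel]; ring
      rw [e] at h5
      have b3 := hp3 (τ (c + (M - 1)))
      have b4 := hpQ (τ (c + (M - 1)))
      have := (huniq (c + (M - 1)) c (1 + 7 * Q) 1 (by omega) (by omega) h5 hex (by omega)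
        (by omega) (by omega) (by omega) (by omega) (by omega)).2
      omega
    · have h5 := hd' (X * (8 * Q) + 𝒯.p w.2 - 1) (by simp [ruleE, hQ])
      have h6 := hd' (X * (8 * Q) + 𝒯.p w.2 + Q - 1) (by simp [ruleE, hQ])
      have b3 := hp3 w.2
      have e1 : c * B + 1 + (X * (8 * Q) + 𝒯.p w.2 - 1) = (c + X) * B + 𝒯.p w.2 := by
        have : (c + X) * B = c * B + X * (8 * Q) := by rw [hB]; ring
        rw [this]
        omega
      have e2 : c * B + 1 + (X * (8 * Q) + 𝒯.p w.2 + Q - 1) = (c + X) * B + (𝒯.p w.2 + Q) := by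
        have : (c + X) * B = c * B + X * (8 * Q) := by rw [hB]; ring
        rw [this]
        omega
      rw [e1] at h5
      rw [e2] at h6
      rw [← hread _ _ h5 h6]
      exact hw2
  refine ⟨fun i => τ (c + i), ?_, ?_, ?_, ?_, ?_⟩
  · intro i
    rw [← hM]
    show τ (c + (i + M)) = τ (c + i)
    rw [← add_assoc, hτM]
  · intro i
    have := hRτ (c + i)
    show 𝒯.R (τ (c + i)) (τ (c + (i + 1))) (τ (c + (i + N))) (τ (c + (i + N + 1)))
    have e1 : c + (i + 1) = c + i + 1 := by ring
    have e2 : c + (i + N) = c + i + N := by ring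
    have e3 : c + (i + N + 1) = c + i + N + 1 := by ring
    rw [e1, e2, e3]
    exact this
  · exact hcs
  · intro i hi0 hiM hsp
    rw [← hM] at hiM
    have := hspu (c + i) c hsp hcs
    rw [hcm] at this
    rcases Nat.lt_or_ge (c + i) M with h6 | h6
    · rw [Nat.mod_eq_of_lt h6] at this; omega
    · have h7 : c + i = (c + i - M) + M := by omega
      rw [h7, Nat.add_mod_right, Nat.mod_eq_of_lt (by omega)] at this
      omega
  · exact hpinc

/-- A closed set with at most `3M + 1` elements gives a tiling. -/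
theorem exists_tiling_of_closed {N X : ℕ} (hN : 2 ≤ N) (hN2 : Even N) (hX : 1 ≤ X)
    (hXN : X < N ^ 2 + 1) (P : Finset (ZMod ((N ^ 2 + 1) * (8 * 𝒯.Q)))) (hne : P.Nonempty)
    (hcard : P.card ≤ 3 * (N ^ 2 + 1) + 1) (hc : Closed (𝒯.rules N X) P) :
    ∃ τ : ℕ → 𝒯.T, 𝒯.Tiling N X τ :=
  𝒯.toc_main rfl rfl hN hN2 P hne hcard hc

end TileSys

end Pool.Agent.Lib.MP_3da8ac_lc
end
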