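import Pool.Agent.Lib.MP_3da8ac_lc.MTile

/-!
# An accepting run gives a tiling
-/

set_option autoImplicit false

namespace Pool.Agent.Lib.MP_3da8ac_lc

open Pool.Agent.Lib.PolyTime

/-- The phases of the first row. -/
private def torPh (X m p : ℕ) : Ph :=
  if p < X then .Z else if p = X then .P else if p < X + 1 + m then .G else .B

/-- The tile at a position. -/
private def torT {M : Flat} (A : ℕ → ℕ → M.Cell) (N X m c : ℕ) : MTile M :=
  ⟨ptAt N c, decide (c % 2 = 1), torPh X m c, A (c / N) 0, (A (c / N) (c % N)).2⟩

private theorem torPh_next (X m p : ℕ) : phNext (torPh X m p) (torPh X m (p + 1)) := by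
  unfold torPh
  split_ifs <;> first | omega | trivial

private theorem torPh_sym {A : Type} (sy : Bool → A) (X : ℕ) (w : List Bool) (p : ℕ) :
    phSym sy (torPh X w.length p) (((List.replicate X false ++ true :: w).map sy)[p]?) := by
  unfold torPh
  split_ifs with h1 h2 h3
  · have h : (List.replicate X false ++ true :: w)[p]? = some false := by
      rw [List.getElem?_append_left (by simpa using h1), List.getElem?_replicate, if_pos h1]
    rw [List.getElem?_map, h]
    rfl
  · have h : (List.replicate X false ++ true :: w)[p]? = some true := by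
      rw [List.getElem?_append_right (by simp; omega)]
      simp [h2]
    rw [List.getElem?_map, h]
    rfl
  · have hlt : p < (List.replicate X false ++ true :: w).length := by
      simp
      omega
    exact ⟨(List.replicate X false ++ true :: w)[p], by
      rw [List.getElem?_map, List.getElem?_eq_getElem hlt]
      rfl⟩
  · have h : (List.replicate X false ++ true :: w)[p]? = none := by
      apply List.getElem?_eq_none
      simp
      omega
    rw [List.getElem?_map, h]
    rfl

private theorem ptAt_row {N t p : ℕ} (hp : p < N) : ptAt N (t * N + p) =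
    if t = 0 then (if p = 0 then PT.S else PT.I) else (if p = 0 then PT.D else PT.O) := by
  unfold ptAt
  have hdvd : N ∣ t * N + p ↔ p = 0 := by
    rw [← Nat.dvd_add_iff_right (Dvd.intro_left t rfl)]
    constructor
    · intro h
      exact Nat.eq_zero_of_dvd_of_lt h hp
    · rintro rfl
      exact dvd_zero N
  by_cases ht : t = 0
  · subst ht
    simp only [Nat.zero_mul, Nat.zero_add, if_true]
    by_cases h0 : p = 0
    · simp [h0]
    · simp [h0, hp]
  · have h1 : N ≤ t * N + p := by
      have : N * 1 ≤ t * N := by
        rw [Nat.mul_comm t N]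
        exact Nat.mul_le_mul_left _ (by omega)
      omega
    rw [if_neg (by omega), if_neg (by omega), if_neg ht]
    by_cases h0 : p = 0
    · rw [if_pos (hdvd.2 h0), if_pos h0]
    · rw [if_neg (fun h => h0 (hdvd.1 h)), if_neg h0]

private theorem div_row {N t p : ℕ} (hp : p < N) : (t * N + p) / N = t := by
  rw [Nat.mul_comm, Nat.mul_add_div (by omega), Nat.div_eq_of_lt hp]
  omega

private theorem mod_row {N t p : ℕ} (hp : p < N) : (t * N + p) % N = p := by
  rw [Nat.mul_comm, Nat.mul_add_mod, Nat.mod_eq_of_lt hp]

variable {M : Flat} (kin : M.K) (q₀ : M.Q) (sy : Bool → M.A)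
  (acc : M.Q → (M.K → Option M.A) → Prop)

/-- The window condition at the positions of the square. -/
private theorem tor_win {N X : ℕ} (hN : 4 ≤ N) (hX : 1 ≤ X) (w : List Bool)
    {A : ℕ → ℕ → M.Cell} (hD : Diag M kin q₀ acc N A)
    (hrow : ∀ p, (A 0 p).2 kin = ((List.replicate X false ++ true :: w).map sy)[p]?)
    {t p : ℕ} (ht : t < N) (hp : p < N) (t₃ t₄ : MTile M)
    (hlast : lastRow t₃ t₄ ↔ t + 1 = N)
    (h₃ : t + 1 < N → t₃ = torT A N X w.length ((t + 1) * N + p))
    (h₄ : t + 1 < N → t₄ = torT A N X w.length ((t + 1) * N + p + 1)) :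
    MWin kin q₀ sy acc (torT A N X w.length (t * N + p)) (torT A N X w.length (t * N + p + 1))
      t₃ t₄ := by
  have hpt₁ : (torT A N X w.length (t * N + p)).pt = 
      if t = 0 then (if p = 0 then PT.S else PT.I) else (if p = 0 then PT.D else PT.O) :=
    ptAt_row hp
  have hhd₁ : (torT A N X w.length (t * N + p)).hd = A t 0 := by
    change A ((t * N + p) / N) 0 = A t 0
    rw [div_row hp]
  have hsym₁ : (torT A N X w.length (t * N + p)).sym = (A t p).2 := by
    change (A ((t * N + p) / N) ((t * N + p) % N)).2 = _
    rw [div_row hp, mod_row hp]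
  have hpt₂ : (torT A N X w.length (t * N + p + 1)).pt = 
      if p + 1 = N then PT.D else (if t = 0 then PT.I else PT.O) := by
    change ptAt N (t * N + p + 1) = _
    by_cases h : p + 1 = N
    · have e : t * N + p + 1 = (t + 1) * N + 0 := by
        rw [Nat.add_mul]
        omega
      rw [e, ptAt_row (by omega), if_neg (by omega), if_pos rfl, if_pos h]
    · have e : t * N + p + 1 = t * N + (p + 1) := rfl
      rw [e, ptAt_row (by omega), if_neg h]
      simp
  have hhd₂ : p + 1 ≠ N → (torT A N X w.length (t * N + p + 1)).hd = A t 0 := by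
    intro h
    change A ((t * N + (p + 1)) / N) 0 = A t 0
    rw [div_row (by omega)]
  have hsym₂ : p + 1 ≠ N → (torT A N X w.length (t * N + p + 1)).sym = (A t (p + 1)).2 := by
    intro h
    change (A ((t * N + (p + 1)) / N) ((t * N + (p + 1)) % N)).2 = _
    rw [div_row (by omega), mod_row (by omega)]
  have hSD : ((torT A N X w.length (t * N + p)).pt = PT.S ∨
      (torT A N X w.length (t * N + p)).pt = PT.D) ↔ p = 0 := by
    rw [hpt₁]
    split_ifs with h1 h2 h3 <;> simp [*]
  have hSI : ((torT A N X w.length (t * N + p)).pt = PT.S ∨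
      (torT A N X w.length (t * N + p)).pt = PT.I) ↔ t = 0 := by
    rw [hpt₁]
    split_ifs with h1 h2 h3 <;> simp [*]
  have hD₂ : (torT A N X w.length (t * N + p + 1)).pt = PT.D ↔ p + 1 = N := by
    rw [hpt₂]
    split_ifs with h1 h2 <;> simp [*]
  refine ⟨?_, ?_, ?_, ?_, ?_, ?_, ?_, ?_, ?_⟩
  · intro h
    rw [hhd₁, hhd₂ (fun h' => h (hD₂.2 h'))]
  · intro h
    have h0 : p = 0 := hSD.1 h
    rw [hsym₁, hhd₁, h0]
  · intro h k
    have h0 : p = N - 1 := by
      have := hD₂.1 h
      omega
    rw [hsym₁, h0]
    exact hD.last t ht k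
  · intro h k hk
    have h0 : t = 0 := hSI.1 h
    rw [hsym₁, h0]
    exact hD.start p hp k hk
  · intro h
    rw [hpt₁] at h
    have h0 : t = 0 ∧ p = 0 := by
      split_ifs at h with h1 h2
      exact ⟨h1, h2⟩
    obtain ⟨rfl, rfl⟩ := h0
    refine ⟨?_, ?_⟩
    · rw [hhd₁]
      exact hD.state
    · change torPh X w.length (0 * N + 0) = Ph.Z
      unfold torPh
      rw [if_pos (by omega)]
  · intro h
    have h0 : t = 0 := hSI.1 h
    rw [hsym₁]
    subst h0
    rw [hrow p]
    change phSym sy (torPh X w.length (0 * N + p)) _
    rw [Nat.zero_mul, Nat.zero_add]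
    exact torPh_sym sy X w p
  · intro _ _
    exact torPh_next X w.length (t * N + p)
  · intro h h'
    have h0 : p = 0 := hSD.1 h'
    have h1 : t = N - 1 := by
      have := hlast.1 h
      omega
    rw [hhd₁, h1]
    exact hD.accepts
  · intro h
    have h1 : t + 1 < N := by
      have : ¬ (t + 1 = N) := fun h' => h (hlast.2 h')
      omega
    rw [h₃ h1, h₄ h1]
    have htr := hD.trans t h1 p hp
    have e₃ : (torT A N X w.length ((t + 1) * N + p)).cell = ((A (t + 1) 0).1, (A (t + 1) p).2) := by
      change ((A (((t + 1) * N + p) / N) 0).1,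
        (A (((t + 1) * N + p) / N) (((t + 1) * N + p) % N)).2) = _
      rw [div_row hp, mod_row hp]
    have e₄ : p + 1 ≠ N → (torT A N X w.length ((t + 1) * N + p + 1)).cell.2 =
        (A (t + 1) (p + 1)).2 := by
      intro h
      change (A (((t + 1) * N + (p + 1)) / N) (((t + 1) * N + (p + 1)) % N)).2 = _
      rw [div_row (by omega), mod_row (by omega)]
    have d0 : decide ((torT A N X w.length (t * N + p)).pt = PT.S ∨
      (torT A N X w.length (t * N + p)).pt = PT.D) = decide (p = 0) := by
      rw [decide_eq_decide]
      exact hSD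
    have dL : decide ((torT A N X w.length (t * N + p + 1)).pt = PT.D) = decide (p + 1 = N) := by
      rw [decide_eq_decide]
      exact hD₂
    unfold Pool.Agent.Lib.PolyTime.trans at htr ⊢
    refine ⟨?_, ?_⟩
    · intro h0
      have h0' : p = 0 := hSD.1 (by simpa using h0)
      have := htr.1 (by simpa using h0')
      rw [hhd₁, e₃]
      subst h0'
      exact this
    · intro k
      have := htr.2 k
      rw [hhd₁, e₃]
      refine ⟨?_, ?_, ?_⟩
      · intro ho
        change _ = (torT A N X w.length (t * N + p)).sym k
        rw [hsym₁]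
        exact this.1 ho
      · intro ho hL
        have hL' : p + 1 ≠ N := by
          intro hh
          have := hD₂.2 hh
          simp [this] at hL
        change _ = (torT A N X w.length (t * N + p + 1)).sym k
        rw [hsym₂ hL']
        exact this.2.1 ho (by simpa using hL')
      · intro a ho hL
        have hL' : p + 1 ≠ N := by
          intro hh
          have := hD₂.2 hh
          simp [this] at hL
        change _ = (torT A N X w.length (t * N + p)).sym k
        rw [hsym₁, e₄ hL']
        exact this.2.2 a ho (by simpa using hL')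

/-- An accepting run on an input `0^X 1 w` gives a tiling. -/
theorem tiling_of_run {N X : ℕ} (hN : 4 ≤ N) (hX : 1 ≤ X) (w : List Bool)
    (hlen : ∀ t < N, ∀ k, ((M.step^[t] (startConf M kin q₀
      ((List.replicate X false ++ true :: w).map sy))).2 k).length < N)
    (hacc : acc (M.step^[N - 1] (startConf M kin q₀
          ((List.replicate X false ++ true :: w).map sy))).1
        (fun k => ((M.step^[N - 1] (startConf M kin q₀
          ((List.replicate X false ++ true :: w).map sy))).2 k)[0]?)) :
    ∃ τ : ℕ → MTile M, (mtiles kin q₀ sy acc).Tiling N X τ := by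
  have hD := diag_of_run M kin q₀ acc (by omega : 0 < N)
    ((List.replicate X false ++ true :: w).map sy) hlen hacc
  set A : ℕ → ℕ → M.Cell := fun t p => row M (M.step^[t] (startConf M kin q₀
      ((List.replicate X false ++ true :: w).map sy))) p with hA
  have hrow : ∀ p, (A 0 p).2 kin = ((List.replicate X false ++ true :: w).map sy)[p]? := by
    intro p
    simp only [hA, Function.iterate_zero, id_eq, row, startConf, if_true]
  have hXw : X + 1 + w.length < N := by
    have := hlen 0 (by omega) kin
    simp only [Function.iterate_zero, id_eq, startConf, if_true, List.length_map,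
      List.length_append, List.length_replicate, List.length_cons] at this
    omega
  have hNN : N ^ 2 = N * N := by ring
  have hNN4 : 4 * N ≤ N * N := Nat.mul_le_mul_right N hN
  set T : ℕ → MTile M := torT A N X w.length with hT
  have hptT : ∀ c, (T c).pt = ptAt N c := fun c => rfl
  have hS : ∀ c, (T c).pt = PT.S ↔ c = 0 := by
    intro c
    rw [hptT]
    unfold ptAt
    split_ifs <;> simp_all
  have hI : ∀ c, 0 < c → c < N → (T c).pt = PT.I := by
    intro c h1 h2
    rw [hptT]
    unfold ptAt
    rw [if_neg (by omega), if_pos h2]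
  have hnSI : ∀ c, N ≤ c → ¬ ((T c).pt = PT.S ∨ (T c).pt = PT.I) := by
    intro c h1
    rw [hptT]
    unfold ptAt
    rw [if_neg (by omega), if_neg (by omega)]
    split_ifs <;> simp
  have hDD : ∀ c, (T c).pt = PT.D ↔ N ≤ c ∧ N ∣ c := by
    intro c
    rw [hptT]
    unfold ptAt
    split_ifs with h1 h2 h3
    · simp
      omega
    · simp
      omega
    · simp [h3]
      omega
    · simp [h3]
  refine ⟨fun c => T (c % (N ^ 2 + 1)), ?_, ?_, ?_, ?_, ?_⟩
  · intro c
    change T ((c + (N ^ 2 + 1)) % (N ^ 2 + 1)) = T (c % (N ^ 2 + 1))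
    rw [Nat.add_mod_right]
  · intro c'
    -- reduce to `c < N ^ 2 + 1`
    obtain ⟨c, hc, hcc⟩ : ∃ c, c < N ^ 2 + 1 ∧ c' % (N ^ 2 + 1) = c :=
      ⟨_, Nat.mod_lt _ (by omega), rfl⟩
    have m1 : (c' + 1) % (N ^ 2 + 1) = (c + 1) % (N ^ 2 + 1) := by
      rw [← hcc, Nat.mod_add_mod]
    have m2 : (c' + N) % (N ^ 2 + 1) = (c + N) % (N ^ 2 + 1) := by
      rw [← hcc, Nat.mod_add_mod]
    have m3 : (c' + N + 1) % (N ^ 2 + 1) = (c + N + 1) % (N ^ 2 + 1) := by
      rw [← hcc, Nat.add_assoc, Nat.add_assoc, Nat.mod_add_mod]
    change (mtiles kin q₀ sy acc).R (T (c' % (N ^ 2 + 1))) (T ((c' + 1) % (N ^ 2 + 1)))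
      (T ((c' + N) % (N ^ 2 + 1))) (T ((c' + N + 1) % (N ^ 2 + 1)))
    rw [hcc, m1, m2, m3]
    rcases Nat.lt_or_ge c (N ^ 2) with hlt | hge
    · -- positions of the square
      have e1 : (c + 1) % (N ^ 2 + 1) = c + 1 := Nat.mod_eq_of_lt (by omega)
      rw [e1]
      refine ⟨?_, ?_, ?_⟩
      · intro _
        change decide ((c + 1) % 2 = 1) = !decide (c % 2 = 1)
        rcases Nat.mod_two_eq_zero_or_one c with h | h
        · have : (c + 1) % 2 = 1 := by omega
          simp [h, this]
        · have : (c + 1) % 2 = 0 := by omega
          simp [h, this]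
      · rcases Nat.lt_trichotomy (c + N + 1) (N ^ 2 + 1) with h | h | h
        · rw [Nat.mod_eq_of_lt (by omega : c + N < N ^ 2 + 1), Nat.mod_eq_of_lt h]
          intro _
          unfold nextPT
          rw [if_neg (hnSI (c + N) (by omega))]
          have hd : N ∣ c + N + 1 ↔ N ∣ c + 1 := by
            have : c + N + 1 = (c + 1) + N := by omega
            rw [this, Nat.dvd_add_self_right]
          by_cases hu : (T (c + 1)).pt = PT.D
          · rw [if_pos hu]
            have := (hDD (c + 1)).1 hu
            exact (hDD (c + N + 1)).2 ⟨by omega, hd.2 this.2⟩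
          · rw [if_neg hu]
            have h1 : ¬ (N ∣ c + N + 1) := by
              intro hh
              have h2 := hd.1 hh
              exact hu ((hDD (c + 1)).2 ⟨Nat.le_of_dvd (by omega) h2, h2⟩)
            rw [hptT]
            unfold ptAt
            rw [if_neg (by omega), if_neg (by omega), if_neg h1]
        · have e3 : (c + N + 1) % (N ^ 2 + 1) = 0 := by rw [h, Nat.mod_self]
          rw [e3]
          intro hh
          exact absurd ((hS 0).2 rfl) hh
        · intro _
          have e2 : (c + N) % (N ^ 2 + 1) = c + N - (N ^ 2 + 1) := by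
            rw [Nat.mod_eq_sub_mod (by omega), Nat.mod_eq_of_lt (by omega)]
          have e3 : (c + N + 1) % (N ^ 2 + 1) = c + N + 1 - (N ^ 2 + 1) := by
            rw [Nat.mod_eq_sub_mod (by omega), Nat.mod_eq_of_lt (by omega)]
          rw [e2, e3, hI (c + N + 1 - (N ^ 2 + 1)) (by omega) (by omega)]
          unfold nextPT
          have hl : (T (c + N - (N ^ 2 + 1))).pt = PT.S ∨ (T (c + N - (N ^ 2 + 1))).pt = PT.I := by
            by_cases h0 : c + N - (N ^ 2 + 1) = 0
            · left
              exact (hS _).2 h0
            · right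
              exact hI _ (by omega) (by omega)
          rw [if_pos hl, if_neg]
          intro hu
          have := (hS (c + 1)).1 hu
          omega
      · intro _
        have hNpos : 0 < N := by omega
        have hct : c / N < N := by
          rw [Nat.div_lt_iff_lt_mul hNpos, ← hNN]
          exact hlt
        have hcp : c % N < N := Nat.mod_lt _ hNpos
        have hcdec : c = c / N * N + c % N := by
          rw [Nat.mul_comm]
          exact (Nat.div_add_mod c N).symm
        generalize c / N = t at hct hcdec
        generalize c % N = p at hcp hcdec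
        subst hcdec
        have hsucc : (t + 1) * N = t * N + N := by ring
        have e2lt : t + 1 < N → (t * N + p + N) % (N ^ 2 + 1) = (t + 1) * N + p ∧
            (t * N + p + N + 1) % (N ^ 2 + 1) = (t + 1) * N + p + 1 := by
          intro h
          have h2 : (t + 2) * N ≤ N * N := Nat.mul_le_mul_right N (by omega)
          have h3 : (t + 2) * N = t * N + N + N := by ring
          constructor
          · rw [Nat.mod_eq_of_lt (by omega)]
            omega
          · rw [Nat.mod_eq_of_lt (by omega)]
            omega
        refine tor_win kin q₀ sy acc hN hX w hD hrow hct hcp _ _ ?_ ?_ ?_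
        · constructor
          · intro hl
            by_contra hne
            have hlt' : t + 1 < N := by omega
            rw [(e2lt hlt').1, (e2lt hlt').2] at hl
            have hN1 : N ≤ (t + 1) * N + p := by
              rw [hsucc]
              omega
            rcases hl with h | h | ⟨h1, h2⟩
            · exact hnSI _ hN1 (Or.inl h)
            · exact hnSI _ hN1 (Or.inr h)
            · have := (hS _).1 h2
              omega
          · intro htN
            have htN' : t * N + N = N * N := by
              rw [← hsucc, htN]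
            by_cases hp0 : p = 0
            · right
              right
              subst hp0
              have e2 : (t * N + 0 + N) % (N ^ 2 + 1) = N ^ 2 := by
                rw [Nat.mod_eq_of_lt (by omega)]
                omega
              have e3 : (t * N + 0 + N + 1) % (N ^ 2 + 1) = 0 := by
                have : t * N + 0 + N + 1 = N ^ 2 + 1 := by omega
                rw [this, Nat.mod_self]
              rw [e2, e3]
              refine ⟨(hDD _).2 ⟨by omega, ?_⟩, (hS 0).2 rfl⟩
              rw [hNN]
              exact Dvd.intro N rfl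
            · have e2 : (t * N + p + N) % (N ^ 2 + 1) = p - 1 := by
                rw [Nat.mod_eq_sub_mod (by omega), Nat.mod_eq_of_lt (by omega)]
                omega
              rw [e2]
              by_cases h1 : p - 1 = 0
              · left
                exact (hS _).2 h1
              · right
                left
                exact hI _ (by omega) (by omega)
        · intro h
          rw [(e2lt h).1]
        · intro h
          rw [(e2lt h).2]
    · -- the extra position
      have hcN : c = N ^ 2 := by omega
      subst hcN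
      have e1 : (N ^ 2 + 1) % (N ^ 2 + 1) = 0 := Nat.mod_self _
      have e2 : (N ^ 2 + N) % (N ^ 2 + 1) = N - 1 := by
        rw [Nat.mod_eq_sub_mod (by omega), Nat.mod_eq_of_lt (by omega)]
        omega
      have e3 : (N ^ 2 + N + 1) % (N ^ 2 + 1) = N := by
        rw [Nat.mod_eq_sub_mod (by omega), Nat.mod_eq_of_lt (by omega)]
        omega
      rw [e1, e2, e3]
      refine ⟨?_, ?_, ?_⟩
      · intro h
        exact absurd ((hS 0).2 rfl) h
      · intro _
        rw [(hDD N).2 ⟨le_rfl, dvd_rfl⟩]
        unfold nextPT
        rw [if_pos (Or.inr (hI (N - 1) (by omega) (by omega))), if_pos ((hS 0).2 rfl)]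
      · intro h
        refine absurd ⟨(hDD (N ^ 2)).2 ⟨by omega, ?_⟩, (hS 0).2 rfl⟩ h
        rw [hNN]
        exact Dvd.intro N rfl
  · change (T (0 % (N ^ 2 + 1))).pt = PT.S
    rw [Nat.zero_mod]
    exact (hS 0).2 rfl
  · intro c h0 hc h
    have h' : (T (c % (N ^ 2 + 1))).pt = PT.S := h
    rw [Nat.mod_eq_of_lt hc] at h'
    have := (hS c).1 h'
    omega
  · have e : X % (N ^ 2 + 1) = X := Nat.mod_eq_of_lt (by omega)
    change (T (X % (N ^ 2 + 1))).pt = PT.I ∧ (T (X % (N ^ 2 + 1))).ph = Ph.P
    rw [e]
    refine ⟨hI X (by omega) (by omega), ?_⟩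
    change torPh X w.length X = Ph.P
    unfold torPh
    rw [if_neg (by omega), if_pos rfl]

end Pool.Agent.Lib.MP_3da8ac_lc
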