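import Pool.Agent.Lib.MP_3da8ac_lc.MTile
import Pool.Agent.Lib.MP_3da8ac_lc.Sym
import Pool.Agent.Lib.MP_3da8ac_lc.Next
import Pool.Agent.Lib.MP_3da8ac_lc.Iterate
import Pool.Agent.Lib.MP_3da8ac_lc.RunOfTiling
import Pool.Agent.Lib.MP_3da8ac_lc.TilingOfRun
import Pool.Agent.Lib.MP_3da8ac_lc.Machine
import Pool.Agent.Lib.MP_3da8ac_lc.SymPoly
import Pool.Agent.Lib.MP_3da8ac_lc.ClosedOfTiling
import Pool.Agent.Lib.MP_3da8ac_lc.TilingOfClosed

section

/-!
# The template of the family of a tile system
-/

set_option autoImplicit false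

namespace Pool.Agent.Lib.MP_3da8ac_lc

private theorem exists_posNum (l : List Bool) : ∃ q : PosNum,
    Computability.encodePosNum q = l ++ [true] ∧ ((q : PosNum) : ℕ) = val (l ++ [true]) := by
  induction l with
  | nil => exact ⟨PosNum.one, rfl, rfl⟩
  | cons b l ih =>
    obtain ⟨q, hq, hv⟩ := ih
    cases b with
    | false =>
      refine ⟨PosNum.bit0 q, ?_, ?_⟩
      · rw [List.cons_append, ← hq]
        rfl
      · rw [List.cons_append, PosNum.cast_bit0, hv]
        simp only [val, Bool.toNat_false]
        ring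
    | true =>
      refine ⟨PosNum.bit1 q, ?_, ?_⟩
      · rw [List.cons_append, ← hq]
        rfl
      · rw [List.cons_append, PosNum.cast_bit1, hv]
        simp only [val, Bool.toNat_true]
        ring

/-- The binary representation of the Prelude. -/
theorem encodeNat_val {l : List Bool} (h : l = [] ∨ ∃ l', l = l' ++ [true]) :
    Computability.encodeNat (val l) = l := by
  rcases h with rfl | ⟨l', rfl⟩
  · rfl
  · obtain ⟨q, hq, hv⟩ := exists_posNum l'
    rw [← hv, ← hq]
    unfold Computability.encodeNat
    rw [PosNum.of_to_nat]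
    rfl

/-! ### Representable functions -/

/-- The function is given by a template. -/
private def Has (d : ℕ) (f : List Bool → ℕ → List Bool) : Prop :=
  ∃ T : List Sym, (∀ s ∈ T, Sym.DepthLt d s) ∧ ∀ y a, evalT T y a = f y a

private theorem Has.congr {d : ℕ} {f g : List Bool → ℕ → List Bool} (hf : Has d f)
    (h : ∀ y a, f y a = g y a) : Has d g := by
  obtain ⟨T, hT, he⟩ := hf
  exact ⟨T, hT, fun y a => (he y a).trans (h y a)⟩

private theorem depthLt_mono {d d' : ℕ} (h : d ≤ d') {s : Sym} (hs : Sym.DepthLt d s) :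
    Sym.DepthLt d' s := by
  cases s with
  | bit b => trivial
  | clk i => exact lt_of_lt_of_le hs h
  | arg i => exact lt_of_lt_of_le hs h
  | skip => trivial

private theorem Has.mono {d d' : ℕ} {f : List Bool → ℕ → List Bool} (hf : Has d f)
    (h : d ≤ d') : Has d' f := by
  obtain ⟨T, hT, he⟩ := hf
  exact ⟨T, fun s hs => depthLt_mono h (hT s hs), he⟩

private theorem Has.append {d : ℕ} {f g : List Bool → ℕ → List Bool} (hf : Has d f)
    (hg : Has d g) : Has d (fun y a => f y a ++ g y a) := by
  obtain ⟨T, hT, he⟩ := hf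
  obtain ⟨T', hT', he'⟩ := hg
  refine ⟨T ++ T', ?_, fun y a => ?_⟩
  · intro s hs
    rcases List.mem_append.1 hs with h | h
    · exact hT s h
    · exact hT' s h
  · rw [evalT_append, he, he']

private theorem Has.delimit {d : ℕ} {f : List Bool → ℕ → List Bool} (hf : Has d f) :
    Has (d + 1) (fun y a => N487b59b3.delimit (f y a)) := by
  obtain ⟨T, hT, he⟩ := hf
  exact ⟨delimitT T, depthLt_delimitT hT, fun y a => by rw [evalT_delimitT, he]⟩

private theorem Has.const (d : ℕ) (l : List Bool) : Has d (fun _ _ => l) := by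
  refine ⟨l.map Sym.bit, ?_, fun y a => ?_⟩
  · intro s hs
    obtain ⟨b, _, rfl⟩ := List.mem_map.1 hs
    trivial
  · induction l with
    | nil => rfl
    | cons b l ih =>
      have h1 : evalT ((b :: l).map Sym.bit) y a = b :: evalT (l.map Sym.bit) y a := rfl
      rw [h1, ih]

private theorem Has.clock : Has 1 (fun _ a => List.replicate a false) := by
  refine ⟨[Sym.clk 0], ?_, fun y a => ?_⟩
  · intro s hs
    rw [List.mem_singleton] at hs
    rw [hs]
    exact Nat.zero_lt_one
  · simp [evalT, Sym.eval, dup]

private theorem Has.arg : Has 1 (fun y _ => y) := by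
  refine ⟨[Sym.arg 0], ?_, fun y a => ?_⟩
  · intro s hs
    rw [List.mem_singleton] at hs
    rw [hs]
    exact Nat.zero_lt_one
  · simp [evalT, Sym.eval, dup]

private theorem Has.clocks (i : ℕ) : Has 1 (fun _ a => List.replicate (i * a) false) := by
  induction i with
  | zero => exact (Has.const 1 []).congr fun y a => by simp
  | succ i ih =>
    refine (ih.append Has.clock).congr fun y a => ?_
    rw [← List.replicate_add, Nat.succ_mul]

private theorem Has.flatMap {γ : Type} {d : ℕ} (L : List γ)
    (f : γ → List Bool → ℕ → List Bool) (h : ∀ x ∈ L, Has d (f x)) :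
    Has d (fun y a => L.flatMap (fun x => f x y a)) := by
  induction L with
  | nil => exact Has.const d []
  | cons x L ih =>
    have h1 := (h x List.mem_cons_self).append (ih fun x' hx' => h x' (List.mem_cons_of_mem _ hx'))
    exact h1.congr fun y a => by rw [List.flatMap_cons]

/-- The number is given by a template. -/
private def HasN (g : List Bool → ℕ → ℕ) : Prop :=
  Has 1 (fun y a => Computability.encodeNat (g y a))

private theorem HasN.congr {f g : List Bool → ℕ → ℕ} (hf : HasN f)
    (h : ∀ y a, f y a = g y a) : HasN g :=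
  Has.congr hf fun y a => by rw [h]

private theorem exists_word_eq (L v : ℕ) (hv : v < 2 ^ L) :
    ∃ c : List Bool, c.length = L ∧ val c = v := by
  induction L generalizing v with
  | zero =>
    refine ⟨[], rfl, ?_⟩
    simp at hv
    simp [val, hv]
  | succ L ih =>
    obtain ⟨c, hc, hv'⟩ := ih (v / 2) (by rw [pow_succ] at hv; omega)
    refine ⟨decide (v % 2 = 1) :: c, by simp [hc], ?_⟩
    simp only [val, hv']
    by_cases h : v % 2 = 1
    · simp only [h, decide_true, Bool.toNat_true]
      omega
    · simp only [h, decide_false, Bool.toNat_false]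
      omega

private theorem exists_word_pos (v : ℕ) (hv : 1 ≤ v) : ∃ c : List Bool, val (c ++ [true]) = v := by
  induction v using Nat.strong_induction_on with
  | _ v ih =>
    rcases Nat.lt_or_ge v 2 with h | h
    · refine ⟨[], ?_⟩
      have : v = 1 := by omega
      rw [this]
      rfl
    · obtain ⟨c, hc⟩ := ih (v / 2) (by omega) (by omega)
      refine ⟨decide (v % 2 = 1) :: c, ?_⟩
      rw [List.cons_append]
      simp only [val, hc]
      by_cases h : v % 2 = 1
      · simp only [h, decide_true, Bool.toNat_true]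
        omega
      · simp only [h, decide_false, Bool.toNat_false]
        omega

private theorem val_replicate_false (k : ℕ) : val (List.replicate k false) = 0 := by
  induction k with
  | zero => rfl
  | succ k ih => simp [List.replicate_succ, val, ih]

private theorem HasN.form (i L v v' : ℕ) (hv : v < 2 ^ L) (hv' : 1 ≤ v') :
    HasN (fun _ a => v + 2 ^ L * (2 ^ (i * a) * v')) := by
  obtain ⟨c, hc, hcv⟩ := exists_word_eq L v hv
  obtain ⟨c', hcv'⟩ := exists_word_pos v' hv'
  have h1 := (Has.const 1 c).append ((Has.clocks i).append (Has.const 1 (c' ++ [true])))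
  refine h1.congr fun y a => ?_
  rw [← encodeNat_val (l := c ++ (List.replicate (i * a) false ++ (c' ++ [true])))
    (Or.inr ⟨c ++ (List.replicate (i * a) false ++ c'), by simp⟩)]
  rw [val_append, val_append, val_replicate_false, hc, hcv, hcv', List.length_replicate]
  ring_nf

private theorem HasN.const (v : ℕ) (hv : 1 ≤ v) : HasN (fun _ _ => v) :=
  (HasN.form 0 0 0 v (by norm_num) hv).congr fun y a => by simp

private theorem HasN.formX (L v : ℕ) (hv : v < 2 ^ L) :
    HasN (fun y _ => v + 2 ^ L * val (false :: (y ++ [true]))) := by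
  obtain ⟨c, hc, hcv⟩ := exists_word_eq L v hv
  have h1 := (Has.const 1 (c ++ [false])).append (Has.arg.append (Has.const 1 [true]))
  refine h1.congr fun y a => ?_
  rw [← encodeNat_val (l := c ++ [false] ++ (y ++ [true]))
    (Or.inr ⟨c ++ [false] ++ y, by simp⟩)]
  have h2 : c ++ [false] ++ (y ++ [true]) = c ++ (false :: (y ++ [true])) := by simp
  rw [h2, val_append, hc, hcv]

/-! ### Integers, points, rules -/

private theorem enc_list {α : Type} [N487b59b3 α] (l : List α) :
    N487b59b3.bitEncode l = l.flatMap (fun x => N487b59b3.delimit (N487b59b3.bitEncode x)) := by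
  change ((l.map N487b59b3.bitEncode).map N487b59b3.delimit).flatten = _
  rw [List.map_map, List.flatMap_def]
  rfl

private theorem enc_pair {α β : Type} [N487b59b3 α] [N487b59b3 β] (p : α × β) :
    N487b59b3.bitEncode p = N487b59b3.delimit (N487b59b3.bitEncode p.1) ++
      N487b59b3.bitEncode p.2 := rfl

private theorem enc_nat (n : ℕ) : N487b59b3.bitEncode n = Computability.encodeNat n := rfl

private theorem enc_int (z : ℤ) :
    N487b59b3.bitEncode z = N487b59b3.bitEncode (z.toNat, (-z).toNat) := rfl

private theorem encodeNat_zero : Computability.encodeNat 0 = [] := rfl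

private theorem HasN.int {g : List Bool → ℕ → ℕ} (hg : HasN g) :
    Has 2 (fun y a => N487b59b3.bitEncode ((g y a : ℕ) : ℤ)) := by
  have h1 : Has 2 (fun y a => N487b59b3.delimit (Computability.encodeNat (g y a))) :=
    Has.delimit hg
  refine h1.congr fun y a => ?_
  rw [enc_int, enc_pair, enc_nat, enc_nat]
  simp only [Int.toNat_natCast, Int.toNat_neg_natCast, encodeNat_zero, List.append_nil]

private theorem HasN.intNeg {g : List Bool → ℕ → ℕ} (hg : HasN g) :
    Has 2 (fun y a => N487b59b3.bitEncode (-((g y a : ℕ) : ℤ))) := by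
  have h1 : Has 2 (fun y a => [false] ++ Computability.encodeNat (g y a)) :=
    (Has.const 2 [false]).append (Has.mono hg (by norm_num))
  refine h1.congr fun y a => ?_
  rw [enc_int, enc_pair, enc_nat, enc_nat]
  simp only [neg_neg, Int.toNat_natCast, Int.toNat_neg_natCast, encodeNat_zero]
  rfl

/-- The encoding of a rule. -/
private theorem Has.rule {r : List (List Bool → ℕ → ℕ)} (hr : ∀ g ∈ r, HasN g) (σ : Bool) :
    Has 4 (fun y a => N487b59b3.bitEncode (((0 : ℤ), (-1 : ℤ)) :: (r.map (fun g => g y a)).map
      (fun d : ℕ => (bif σ then (d : ℤ) else -(d : ℤ), (0 : ℤ))))) := by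
  have h1 : ∀ g ∈ r, Has 4 (fun y a => N487b59b3.delimit (N487b59b3.bitEncode
      ((bif σ then ((g y a : ℕ) : ℤ) else -((g y a : ℕ) : ℤ), (0 : ℤ)) : ℤ × ℤ))) := by
    intro g hg
    have h2 : Has 2 (fun y a => N487b59b3.bitEncode
        (bif σ then ((g y a : ℕ) : ℤ) else -((g y a : ℕ) : ℤ))) := by
      cases σ
      · exact (hr g hg).intNeg
      · exact (hr g hg).int
    exact (h2.delimit.append (Has.const 3 (N487b59b3.bitEncode (0 : ℤ)))).delimit
  have h3 := (Has.const 4 (N487b59b3.delimit (N487b59b3.bitEncode ((0 : ℤ), (-1 : ℤ))))).append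
    (Has.flatMap r _ h1)
  refine h3.congr fun y a => ?_
  rw [enc_list, List.flatMap_cons, List.map_map, List.flatMap_map]
  rfl

private theorem map_coe_list (l : List ℕ) (f : ℤ → ℤ × ℤ) :
    List.map f (do let d ← l; pure ((d : ℕ) : ℤ)) = l.map (fun d : ℕ => f (d : ℤ)) := by
  induction l with
  | nil => rfl
  | cons d l ih =>
    rw [List.map_cons, ← ih]
    rfl

/-- The encoding of a family. -/
private theorem Has.family {L : List (List (List Bool → ℕ → ℕ))}
    (hL : ∀ r ∈ L, ∀ g ∈ r, HasN g) :
    Has 5 (fun y a => N487b59b3.bitEncode (fam (L.map (fun r => r.map (fun g => g y a))))) := by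
  have h1 := Has.flatMap L (d := 5) (fun r y a =>
    N487b59b3.delimit (N487b59b3.bitEncode (((0 : ℤ), (-1 : ℤ)) ::
      (r.map (fun g => g y a)).map (fun d : ℕ => (bif true then (d : ℤ) else -(d : ℤ), (0 : ℤ))))) ++
    N487b59b3.delimit (N487b59b3.bitEncode (((0 : ℤ), (-1 : ℤ)) ::
      (r.map (fun g => g y a)).map (fun d : ℕ => (bif false then (d : ℤ) else -(d : ℤ), (0 : ℤ))))))
    (fun r hr => (Has.rule (hL r hr) true).delimit.append (Has.rule (hL r hr) false).delimit)
  refine h1.congr fun y a => ?_
  rw [enc_list, fam, List.flatMap_assoc, List.flatMap_map]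
  refine List.flatMap_congr fun r _ => ?_
  simp only [List.flatMap_cons, List.flatMap_nil, List.append_nil, cond_true, cond_false,
    map_coe_list]

/-! ### The rules of a tile system -/

section
variable (𝒯 : TileSys)

open Classical in
private noncomputable def fM (w : 𝒯.T × 𝒯.T × 𝒯.T × 𝒯.T) : List (List Bool → ℕ → ℕ) :=
  (if 𝒯.sp w.1 then [fun _ _ => 1] else []) ++
  [fun _ _ => 𝒯.p w.1, fun _ _ => 𝒯.p w.1 + 𝒯.Q,
    fun _ _ => 8 * 𝒯.Q, fun _ _ => 8 * 𝒯.Q + 𝒯.p w.2.1, fun _ _ => 8 * 𝒯.Q + 𝒯.p w.2.1 + 𝒯.Q,
    fun _ a => 2 ^ (a + 2) * (8 * 𝒯.Q), fun _ a => 2 ^ (a + 2) * (8 * 𝒯.Q) + 𝒯.p w.2.2.1,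
    fun _ a => 2 ^ (a + 2) * (8 * 𝒯.Q) + 𝒯.p w.2.2.1 + 𝒯.Q,
    fun _ a => (2 ^ (a + 2) + 1) * (8 * 𝒯.Q),
    fun _ a => (2 ^ (a + 2) + 1) * (8 * 𝒯.Q) + 𝒯.p w.2.2.2,
    fun _ a => (2 ^ (a + 2) + 1) * (8 * 𝒯.Q) + 𝒯.p w.2.2.2 + 𝒯.Q,
    fun _ a => ((2 ^ (a + 2)) ^ 2 + 1) * (8 * 𝒯.Q)]

private noncomputable def fD (t : 𝒯.T) : List (List Bool → ℕ → ℕ) :=
  [fun _ _ => 𝒯.Q, fun _ _ => 8 * 𝒯.Q - 𝒯.p t,
    fun _ a => ((2 ^ (a + 2)) ^ 2 + 1) * (8 * 𝒯.Q) - 𝒯.p t,
    fun _ a => ((2 ^ (a + 2)) ^ 2 + 1) * (8 * 𝒯.Q)]

private noncomputable def fD' (t : 𝒯.T) : List (List Bool → ℕ → ℕ) :=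
  [fun _ a => ((2 ^ (a + 2)) ^ 2 + 1) * (8 * 𝒯.Q) - 𝒯.Q, fun _ _ => 8 * 𝒯.Q - 𝒯.p t - 𝒯.Q,
    fun _ a => ((2 ^ (a + 2)) ^ 2 + 1) * (8 * 𝒯.Q) - 𝒯.p t - 𝒯.Q,
    fun _ a => ((2 ^ (a + 2)) ^ 2 + 1) * (8 * 𝒯.Q)]

private noncomputable def fE (w : 𝒯.T × 𝒯.T) : List (List Bool → ℕ → ℕ) :=
  [fun _ a => ((2 ^ (a + 2)) ^ 2 + 1) * (8 * 𝒯.Q) - 1, fun _ _ => 8 * 𝒯.Q - 1,
    fun _ _ => 𝒯.p w.1 - 1, fun _ _ => 𝒯.p w.1 + 𝒯.Q - 1,
    fun y _ => val (false :: (y ++ [true])) * (8 * 𝒯.Q) + 𝒯.p w.2 - 1,
    fun y _ => val (false :: (y ++ [true])) * (8 * 𝒯.Q) + 𝒯.p w.2 + 𝒯.Q - 1,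
    fun _ a => ((2 ^ (a + 2)) ^ 2 + 1) * (8 * 𝒯.Q)]

private theorem Q_pos : 0 < 𝒯.Q := by
  unfold TileSys.Q
  positivity

private theorem hN1 (v : ℕ) (hv : v < 8 * 𝒯.Q) :
    HasN (fun _ a => 2 ^ (a + 2) * (8 * 𝒯.Q) + v) := by
  refine (HasN.form 1 (𝒯.n + 5) v 4 ?_ (by norm_num)).congr fun y a => ?_
  · unfold TileSys.Q at hv
    rw [pow_add] at hv ⊢
    omega
  · unfold TileSys.Q
    ring

private theorem hN2 (v : ℕ) (hv : v < 8 * 𝒯.Q) :
    HasN (fun _ a => (2 ^ (a + 2) + 1) * (8 * 𝒯.Q) + v) := by
  refine (HasN.form 1 (𝒯.n + 6) (8 * 𝒯.Q + v) 2 ?_ (by norm_num)).congr fun y a => ?_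
  · unfold TileSys.Q at hv ⊢
    rw [pow_add] at hv ⊢
    rw [pow_add]
    omega
  · unfold TileSys.Q
    ring

private theorem hW (v : ℕ) (hv : v ≤ 8 * 𝒯.Q) :
    HasN (fun _ a => (2 ^ (a + 2)) ^ 2 * (8 * 𝒯.Q) + v) := by
  refine (HasN.form 2 (𝒯.n + 6) v 8 ?_ (by norm_num)).congr fun y a => ?_
  · have := Q_pos 𝒯
    unfold TileSys.Q at hv this
    rw [pow_add] at hv this ⊢
    omega
  · unfold TileSys.Q
    ring

private theorem hX (v : ℕ) (hv : v < 8 * 𝒯.Q) :
    HasN (fun y _ => val (false :: (y ++ [true])) * (8 * 𝒯.Q) + v) := by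
  refine (HasN.formX (𝒯.n + 5) v ?_).congr fun y a => ?_
  · unfold TileSys.Q at hv
    rw [pow_add] at hv ⊢
    omega
  · unfold TileSys.Q
    ring

private theorem hasN_fM (w : 𝒯.T × 𝒯.T × 𝒯.T × 𝒯.T) : ∀ g ∈ fM 𝒯 w, HasN g := by
  classical
  have hQ := Q_pos 𝒯
  have p1 := 𝒯.three_le_p w.1
  have q1 := 𝒯.p_lt w.1
  have q2 := 𝒯.p_lt w.2.1
  have q3 := 𝒯.p_lt w.2.2.1
  have q4 := 𝒯.p_lt w.2.2.2
  intro g hg
  unfold fM at hg
  rw [List.mem_append] at hg
  rcases hg with hg | hg
  · split_ifs at hg with h
    · rw [List.mem_singleton] at hg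
      rw [hg]
      exact HasN.const 1 le_rfl
    · simp at hg
  · simp only [List.mem_cons, List.not_mem_nil, or_false] at hg
    rcases hg with rfl | rfl | rfl | rfl | rfl | rfl | rfl | rfl | rfl | rfl | rfl | rfl
    · exact HasN.const _ (by omega)
    · exact HasN.const _ (by omega)
    · exact HasN.const _ (by omega)
    · exact HasN.const _ (by omega)
    · exact HasN.const _ (by omega)
    · exact (hN1 𝒯 0 (by omega)).congr fun y a => by rw [add_zero]
    · exact hN1 𝒯 _ (by omega)
    · exact (hN1 𝒯 (𝒯.p w.2.2.1 + 𝒯.Q) (by omega)).congr fun y a => by rw [add_assoc]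
    · exact (hN2 𝒯 0 (by omega)).congr fun y a => by rw [add_zero]
    · exact hN2 𝒯 _ (by omega)
    · exact (hN2 𝒯 (𝒯.p w.2.2.2 + 𝒯.Q) (by omega)).congr fun y a => by rw [add_assoc]
    · exact (hW 𝒯 (8 * 𝒯.Q) le_rfl).congr fun y a => by ring

private theorem W_sub (a v : ℕ) (hv : v ≤ 8 * 𝒯.Q) :
    (2 ^ (a + 2)) ^ 2 * (8 * 𝒯.Q) + (8 * 𝒯.Q - v) = ((2 ^ (a + 2)) ^ 2 + 1) * (8 * 𝒯.Q) - v := by
  rw [add_mul, one_mul]
  omega

private theorem hasN_fD (t : 𝒯.T) : ∀ g ∈ fD 𝒯 t, HasN g := by
  have hQ := Q_pos 𝒯
  have q1 := 𝒯.p_lt t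
  intro g hg
  unfold fD at hg
  simp only [List.mem_cons, List.not_mem_nil, or_false] at hg
  rcases hg with rfl | rfl | rfl | rfl
  · exact HasN.const _ (by omega)
  · exact HasN.const _ (by omega)
  · exact (hW 𝒯 (8 * 𝒯.Q - 𝒯.p t) (by omega)).congr fun y a => W_sub 𝒯 a _ (by omega)
  · exact (hW 𝒯 (8 * 𝒯.Q) le_rfl).congr fun y a => by ring

private theorem hasN_fD' (t : 𝒯.T) : ∀ g ∈ fD' 𝒯 t, HasN g := by
  have hQ := Q_pos 𝒯
  have q1 := 𝒯.p_lt t
  intro g hg
  unfold fD' at hg
  simp only [List.mem_cons, List.not_mem_nil, or_false] at hg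
  rcases hg with rfl | rfl | rfl | rfl
  · exact (hW 𝒯 (8 * 𝒯.Q - 𝒯.Q) (by omega)).congr fun y a => W_sub 𝒯 a _ (by omega)
  · exact HasN.const _ (by omega)
  · refine (hW 𝒯 (8 * 𝒯.Q - (𝒯.p t + 𝒯.Q)) (by omega)).congr fun y a => ?_
    rw [W_sub 𝒯 a _ (by omega), Nat.sub_sub]
  · exact (hW 𝒯 (8 * 𝒯.Q) le_rfl).congr fun y a => by ring

private theorem hasN_fE (w : 𝒯.T × 𝒯.T) : ∀ g ∈ fE 𝒯 w, HasN g := by
  have hQ := Q_pos 𝒯
  have p1 := 𝒯.three_le_p w.1
  have q1 := 𝒯.p_lt w.1
  have p2 := 𝒯.three_le_p w.2
  have q2 := 𝒯.p_lt w.2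
  intro g hg
  unfold fE at hg
  simp only [List.mem_cons, List.not_mem_nil, or_false] at hg
  rcases hg with rfl | rfl | rfl | rfl | rfl | rfl | rfl
  · exact (hW 𝒯 (8 * 𝒯.Q - 1) (by omega)).congr fun y a => W_sub 𝒯 a _ (by omega)
  · exact HasN.const _ (by omega)
  · exact HasN.const _ (by omega)
  · exact HasN.const _ (by omega)
  · refine (hX 𝒯 (𝒯.p w.2 - 1) (by omega)).congr fun y a => ?_
    omega
  · refine (hX 𝒯 (𝒯.p w.2 + 𝒯.Q - 1) (by omega)).congr fun y a => ?_
    omega
  · exact (hW 𝒯 (8 * 𝒯.Q) le_rfl).congr fun y a => by ring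

end

/-- The instance built from a tile system, as a template. -/
theorem exists_template (𝒯 : TileSys) : ∃ T : List Sym, (∀ s ∈ T, Sym.DepthLt 8 s) ∧
    ∀ (y : List Bool) (a : ℕ), evalT T y a = N487b59b3.bitEncode
      (fam (𝒯.rules (2 ^ (a + 2)) (val (false :: (y ++ [true])))),
        3 * ((2 ^ (a + 2)) ^ 2 + 1) + 1) := by
  classical
  set L : List (List (List Bool → ℕ → ℕ)) :=
    𝒯.windows.map (fM 𝒯) ++ (𝒯.tiles.map (fD 𝒯) ++ (𝒯.tiles.map (fD' 𝒯) ++
      𝒯.pins.map (fE 𝒯))) with hL
  have h1 : ∀ r ∈ L, ∀ g ∈ r, HasN g := by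
    intro r hr
    rw [hL] at hr
    simp only [List.mem_append, List.mem_map] at hr
    rcases hr with ⟨w, _, rfl⟩ | ⟨w, _, rfl⟩ | ⟨w, _, rfl⟩ | ⟨w, _, rfl⟩
    · exact hasN_fM 𝒯 w
    · exact hasN_fD 𝒯 w
    · exact hasN_fD' 𝒯 w
    · exact hasN_fE 𝒯 w
  have h2 : ∀ (y : List Bool) (a : ℕ), L.map (fun r => r.map (fun g => g y a)) =
      𝒯.rules (2 ^ (a + 2)) (val (false :: (y ++ [true]))) := by
    intro y a
    rw [hL]
    unfold TileSys.rules
    simp only [List.map_append, List.map_map]
    refine congrArg₂ (· ++ ·) (List.map_congr_left fun w _ => ?_)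
      (congrArg₂ (· ++ ·) (List.map_congr_left fun w _ => rfl)
        (congrArg₂ (· ++ ·) (List.map_congr_left fun w _ => rfl)
          (List.map_congr_left fun w _ => rfl)))
    simp only [Function.comp_apply, fM, TileSys.ruleM, List.map_append, List.map_cons,
      List.map_nil]
    congr 1
    split_ifs <;> rfl
  have hk : HasN (fun _ a => 3 * ((2 ^ (a + 2)) ^ 2 + 1) + 1) :=
    (HasN.form 2 3 4 6 (by norm_num) (by norm_num)).congr fun y a => by ring
  have h3 := ((Has.family h1).delimit.append (Has.mono hk (d' := 6) (by norm_num))).mono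
    (d' := 8) (by norm_num)
  obtain ⟨T, hT, he⟩ := h3
  refine ⟨T, hT, fun y a => ?_⟩
  rw [he]
  beta_reduce
  rw [h2, enc_pair]
  rfl

end Pool.Agent.Lib.MP_3da8ac_lc
end

section

/-!
# Reading the argument from the number of leading zeros
-/

set_option autoImplicit false

namespace Pool.Agent.Lib.MP_3da8ac_lc

open Pool.Agent.Lib.PolyTime

/-- The leading zeros. -/
def zerosOf (v : List Bool) : List Bool := v.takeWhile (fun b => !b)

/-- The part after the first `true`. -/
def restOf (v : List Bool) : List Bool := (v.dropWhile (fun b => !b)).tail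

theorem zerosOf_append (m : ℕ) (w : List Bool) :
    zerosOf (List.replicate m false ++ true :: w) = List.replicate m false := by
  unfold zerosOf
  induction m with
  | zero => simp
  | succ m ih => simp [List.replicate_succ]

theorem restOf_append (m : ℕ) (w : List Bool) :
    restOf (List.replicate m false ++ true :: w) = w := by
  unfold restOf
  induction m with
  | zero => simp
  | succ m ih => simp [List.replicate_succ]

private theorem transduce_zeros_false (v : List Bool) :
    transduce (fun q b => q && !b) (fun q b => if q && !b then [b] else []) false v = [] := by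
  induction v with
  | nil => rfl
  | cons b v ih => simpa [transduce] using ih

private theorem transduce_zeros (v : List Bool) :
    transduce (fun q b => q && !b) (fun q b => if q && !b then [b] else []) true v =
      zerosOf v := by
  unfold zerosOf
  induction v with
  | nil => rfl
  | cons b v ih =>
    cases b
    · simpa [transduce] using ih
    · simpa [transduce] using transduce_zeros_false v

theorem isPoly_zerosOf : IsPoly (fun _ => True) (fun v : List Bool => v) zerosOf :=
  (IsPoly.transduce (X := fun _ => True) (ea := fun v : List Bool => v)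
    (fun (q b : Bool) => q && !b) (fun (q b : Bool) => if q && !b then [b] else []) true).congr
    (fun v _ => transduce_zeros v)

private theorem transduce_rest_true (v : List Bool) :
    transduce (fun q b => q || b) (fun (q b : Bool) => if q then [b] else []) true v = v := by
  induction v with
  | nil => rfl
  | cons b v ih => simpa [transduce] using ih

private theorem transduce_rest (v : List Bool) :
    transduce (fun q b => q || b) (fun (q b : Bool) => if q then [b] else []) false v =
      restOf v := by
  unfold restOf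
  induction v with
  | nil => rfl
  | cons b v ih =>
    cases b
    · simpa [transduce] using ih
    · simpa [transduce] using transduce_rest_true v

theorem isPoly_restOf : IsPoly (fun _ => True) (fun v : List Bool => v) restOf :=
  (IsPoly.transduce (X := fun _ => True) (ea := fun v : List Bool => v)
    (fun (q b : Bool) => q || b) (fun (q b : Bool) => if q then [b] else []) false).congr
    (fun v _ => transduce_rest v)

/-- The string with number `|v| / 2 - 1`. -/
def argOf (v : List Bool) : List Bool := next^[(zerosOf v).length / 2 - 1] []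

theorem argOf_append (y w : List Bool) :
    argOf (List.replicate (val (false :: (y ++ [true]))) false ++ true :: w) = y := by
  unfold argOf
  rw [zerosOf_append, List.length_replicate]
  have h : val (false :: (y ++ [true])) / 2 - 1 = val (y ++ [true]) - 1 := by
    have : val (false :: (y ++ [true])) = 2 * val (y ++ [true]) := by
      simp [val]
    omega
  rw [h, next_iterate_val]

private def halfStep (q : Bool × Bool) (_ : Bool) : Bool × Bool := (!q.1, q.2 || q.1)

private def halfOut (q : Bool × Bool) (b : Bool) : List Bool := if q.1 && q.2 then [b] else []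

private theorem length_half (v : List Bool) :
    (transduce halfStep halfOut (false, true) v).length = v.length / 2 ∧
    (transduce halfStep halfOut (true, true) v).length = (v.length + 1) / 2 ∧
    (transduce halfStep halfOut (false, false) v).length = v.length / 2 - 1 ∧
    (transduce halfStep halfOut (true, false) v).length = (v.length + 1) / 2 - 1 := by
  induction v with
  | nil => simp [transduce]
  | cons b v ih =>
    obtain ⟨h1, h2, h3, h4⟩ := ih
    refine ⟨?_, ?_, ?_, ?_⟩
    · simp [transduce, halfStep, halfOut, h2]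
    · simp [transduce, halfStep, halfOut, h1]
      omega
    · simp [transduce, halfStep, halfOut, h4]
    · simp [transduce, halfStep, halfOut, h1]
      omega

theorem isPoly_argOf : IsPoly (fun _ => True) (fun v : List Bool => v) argOf := by
  have hcnt : IsPoly (fun _ => True) (fun v : List Bool => v)
      (fun v => transduce halfStep halfOut (false, false) (zerosOf v)) :=
    IsPoly.comp (φ := zerosOf)
      (IsPoly.transduce (X := fun _ => True) (ea := fun v : List Bool => v) halfStep halfOut
        (false, false)) isPoly_zerosOf (fun _ _ => trivial)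
  have h := isPoly_iterate (X := fun _ => True) (ea := fun v : List Bool => v)
    (es := fun v : List Bool => v) (Y := fun _ => True) (init := fun _ => []) (f := next)
    (cnt := fun v => transduce halfStep halfOut (false, false) (zerosOf v)) Polynomial.X
    isPoly_next (fun _ _ => trivial) (PolyTime.IsPoly.const _ _ _) (fun _ _ => trivial) hcnt ?_
  · refine h.congr ?_
    intro v _
    simp only [(length_half (zerosOf v)).2.2.1]
    rfl
  · intro v _ i hi
    simp only [(length_half (zerosOf v)).2.2.1] at hi
    have h1 := length_next_iterate_le i []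
    have h2 : (zerosOf v).length ≤ v.length := (List.takeWhile_sublist _).length_le
    simp only [List.length_nil, Polynomial.eval_X] at h1 ⊢
    omega

/-- The encoding of pairs of strings. -/
def enc2args (p : List Bool × List Bool) : List Bool := N487b59b3.delimit p.1 ++ p.2

/-- The predicate `V`, with the argument encoded in unary. -/
theorem isPoly_unary {V : List Bool → List Bool → Bool}
    (hV : IsPoly (fun _ => True) enc2args (fun p => [V p.1 p.2])) :
    IsPoly (fun _ => True) (fun v : List Bool => v) (fun v => [V (argOf v) (restOf v)]) := by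
  have h : IsPoly (fun _ => True) (fun v : List Bool => v)
      (fun v => enc2args (argOf v, restOf v)) :=
    (isPoly_delimit isPoly_argOf).append isPoly_restOf
  exact IsPoly.comp (φ := fun v => (argOf v, restOf v)) hV h (fun _ _ => trivial)

end Pool.Agent.Lib.MP_3da8ac_lc
end

section

/-!
# Exhaustive search over the witnesses
-/

set_option autoImplicit false

namespace Pool.Agent.Lib.MP_3da8ac_lc

open Pool.Agent.Lib.PolyTime

/-- One step of the search: `s.1` says whether a witness has been found, `s.2` is the next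
candidate. -/
def searchStep (R : List Bool → List Bool → Bool) (z : List Bool) (s : Bool × List Bool) :
    Bool × List Bool := (s.1 || R z s.2, next s.2)

/-- The search, with a number of steps given in unary. -/
def search (R : List Bool → List Bool → Bool) (z : List Bool) (m : ℕ) : Bool × List Bool :=
  (searchStep R z)^[m] (false, [])

/-- The verifier for the complement: all strings of length at most `p |z|` have been tried without
success. -/
def coVer (R : List Bool → List Bool → Bool) (p : Polynomial ℕ) (z Y : List Bool) : Bool :=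
  !(search R z Y.length).1 && decide (p.eval z.length + 1 ≤ (search R z Y.length).2.length)

theorem search_snd (R : List Bool → List Bool → Bool) (z : List Bool) (m : ℕ) :
    (search R z m).2 = next^[m] [] := by
  induction m with
  | zero => rfl
  | succ m ih =>
    rw [search, Function.iterate_succ_apply', Function.iterate_succ_apply', ← ih]
    rfl

theorem search_fst (R : List Bool → List Bool → Bool) (z : List Bool) (m : ℕ) :
    (search R z m).1 = true ↔ ∃ i < m, R z (next^[i] []) = true := by
  induction m with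
  | zero =>
    constructor
    · intro h
      exact absurd h (by simp [search])
    · rintro ⟨i, hi, -⟩
      exact absurd hi (by omega)
  | succ m ih =>
    have h1 : (search R z (m + 1)).1 = ((search R z m).1 || R z (search R z m).2) := by
      rw [search, Function.iterate_succ_apply']
      rfl
    rw [h1, Bool.or_eq_true, ih, search_snd]
    constructor
    · rintro (⟨i, hi, h⟩ | h)
      · exact ⟨i, by omega, h⟩
      · exact ⟨m, by omega, h⟩
    · rintro ⟨i, hi, h⟩
      by_cases him : i = m
      · subst him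
        exact Or.inr h
      · exact Or.inl ⟨i, by omega, h⟩

theorem not_exists_of_coVer {R : List Bool → List Bool → Bool} {p : Polynomial ℕ}
    {z Y : List Bool} (h : coVer R p z Y = true) :
    ¬ ∃ w : List Bool, w.length ≤ p.eval z.length ∧ R z w = true := by
  rintro ⟨w, hw, hR⟩
  rw [coVer, Bool.and_eq_true, Bool.not_eq_true', decide_eq_true_eq, search_snd] at h
  obtain ⟨h1, h2⟩ := h
  have hi : next^[val (w ++ [true]) - 1] [] = w := next_iterate_val w
  have h3 : val (w ++ [true]) - 1 < 2 ^ (p.eval z.length + 1) - 1 := by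
    rw [← length_next_iterate_lt_iff, hi]
    exact hw
  have h4 : ¬ Y.length < 2 ^ (p.eval z.length + 1) - 1 := by
    rw [← length_next_iterate_lt_iff]
    omega
  have h5 : (search R z Y.length).1 = true := by
    rw [search_fst]
    exact ⟨val (w ++ [true]) - 1, by omega, by rw [hi]; exact hR⟩
  rw [h5] at h1
  exact absurd h1 (by simp)

theorem coVer_of_not_exists {R : List Bool → List Bool → Bool} {p : Polynomial ℕ}
    {z : List Bool} (h : ¬ ∃ w : List Bool, w.length ≤ p.eval z.length ∧ R z w = true) :
    coVer R p z (List.replicate (2 ^ (p.eval z.length + 1) - 1) true) = true := by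
  rw [coVer, Bool.and_eq_true, Bool.not_eq_true', decide_eq_true_eq, search_snd,
    List.length_replicate]
  constructor
  · rw [← Bool.not_eq_true, search_fst]
    rintro ⟨i, hi, hR⟩
    exact h ⟨next^[i] [], (length_next_iterate_lt_iff i _).2 hi, hR⟩
  · have h4 : ¬ (next^[2 ^ (p.eval z.length + 1) - 1] []).length ≤ p.eval z.length := by
      rw [length_next_iterate_lt_iff]
      omega
    omega

/-- The encoding of the states of the search. -/
def encSearch (s : List Bool × (Bool × List Bool)) : List Bool :=
  s.2.1 :: enc2args (s.1, s.2.2)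

/-- The step of the search, on the states that remember the argument. -/
def searchFull (R : List Bool → List Bool → Bool) (s : List Bool × (Bool × List Bool)) :
    List Bool × (Bool × List Bool) := (s.1, searchStep R s.1 s.2)

theorem searchFull_iterate (R : List Bool → List Bool → Bool) (z : List Bool)
    (s : Bool × List Bool) (m : ℕ) :
    (searchFull R)^[m] (z, s) = (z, (searchStep R z)^[m] s) := by
  induction m with
  | zero => rfl
  | succ m ih => rw [Function.iterate_succ_apply', Function.iterate_succ_apply', ih]; rfl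

theorem isPoly_encSearch_flag :
    IsPoly (fun _ => True) encSearch (fun s => [s.2.1]) := by
  refine (IsPoly.out (X := fun _ => True) (ea := encSearch)
    (fun (q : Option Bool) (b : Bool) => if q.isSome then q else some b) none
    (fun q => [q.getD false])).congr ?_
  rintro ⟨z, b, w⟩ -
  have key : ∀ (l : List Bool) (c : Bool),
      l.foldl (fun (q : Option Bool) (b : Bool) => if q.isSome then q else some b) (some c) =
        some c := by
    intro l c
    induction l with
    | nil => rfl
    | cons d l ih => simpa using ih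
  simp only [encSearch, List.foldl_cons, Option.isSome_none]
  rw [if_neg (by simp), key]
  rfl

theorem isPoly_encSearch_tail :
    IsPoly (fun _ => True) encSearch (fun s => enc2args (s.1, s.2.2)) := by
  refine (IsPoly.transduce (X := fun _ => True) (ea := encSearch)
    (fun (_ : Bool) (_ : Bool) => true) (fun (q : Bool) (b : Bool) => if q then [b] else [])
    false).congr ?_
  rintro ⟨z, b, w⟩ -
  have key : ∀ l : List Bool, transduce (fun (_ : Bool) (_ : Bool) => true)
      (fun (q : Bool) (b : Bool) => if q then [b] else []) true l = l := by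
    intro l
    induction l with
    | nil => rfl
    | cons d l ih =>
      have : transduce (fun (_ : Bool) (_ : Bool) => true)
        (fun (q : Bool) (b : Bool) => if q then [b] else []) true (d :: l) =
        d :: transduce (fun (_ : Bool) (_ : Bool) => true)
        (fun (q : Bool) (b : Bool) => if q then [b] else []) true l := rfl
      rw [this, ih]
  exact key _

theorem isPoly_encSearch_comp {B : Type} [Encodable B] {F : List Bool × List Bool → List B}
    (hF : IsPoly (fun _ => True) enc2args F) :
    IsPoly (fun _ => True) encSearch (fun s => F (s.1, s.2.2)) :=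
  IsPoly.comp (φ := fun s : List Bool × (Bool × List Bool) => (s.1, s.2.2)) hF
    isPoly_encSearch_tail (fun _ _ => trivial)

theorem isPoly_bruteFst {B : Type} [Encodable B] {F : List Bool → List B}
    (hF : IsPoly (fun _ => True) (fun l : List Bool => l) F) :
    IsPoly (fun _ => True) enc2args (fun p => F p.1) :=
  isPoly_fst (ea := fun l : List Bool => l) (eb := fun l : List Bool => l) (F := F) hF

theorem isPoly_bruteSnd {B : Type} [Encodable B] {F : List Bool → List B}
    (hF : IsPoly (fun _ => True) (fun l : List Bool => l) F) :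
    IsPoly (fun _ => True) enc2args (fun p => F p.2) :=
  isPoly_snd (ea := fun l : List Bool => l) (eb := fun l : List Bool => l) (F := F) hF

theorem isPoly_bruteId : IsPoly (fun _ => True) (fun l : List Bool => l) (fun l => l) :=
  (IsPoly.flatMap (X := fun _ => True) (ea := fun l : List Bool => l) (fun b => [b])).congr
    (fun x _ => by simp)

/-- Disjunctions. -/
theorem isPoly_bruteOr {α A : Type} [Encodable A] {X : α → Prop} {ea : α → List A}
    {b c : α → Bool} (hb : IsPoly X ea (fun a => [b a])) (hc : IsPoly X ea (fun a => [c a])) :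
    IsPoly X ea (fun a => [b a || c a]) := by
  have h : IsPoly (fun _ => True) (fun l : List Bool => l)
      (fun l => [l.foldl (fun x y => x || y) false]) :=
    IsPoly.out (fun (x y : Bool) => x || y) false (fun q => [q])
  refine (IsPoly.comp (φ := fun a => [b a, c a]) h (hb.append hc) (fun _ _ => trivial)).congr ?_
  intro a _
  simp

/-- Negations. -/
theorem isPoly_bruteNot {α A : Type} [Encodable A] {X : α → Prop} {ea : α → List A}
    {b : α → Bool} (hb : IsPoly X ea (fun a => [b a])) :
    IsPoly X ea (fun a => [!(b a)]) := by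
  have h : IsPoly (fun _ => True) (fun l : List Bool => l)
      (fun l => l.flatMap (fun x => [!x])) :=
    IsPoly.flatMap (fun x => [!x])
  refine (IsPoly.comp (φ := fun a => [b a]) h hb (fun _ _ => trivial)).congr ?_
  intro a _
  rfl

theorem isPoly_coVer {R : List Bool → List Bool → Bool}
    (hR : IsPoly (fun _ => True) enc2args (fun s => [R s.1 s.2])) (p : Polynomial ℕ) :
    IsPoly (fun _ => True) enc2args (fun s => [coVer R p s.1 s.2]) := by
  -- the step
  have hstep : IsPoly (fun _ => True) encSearch (fun s => encSearch (searchFull R s)) := by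
    have h1 : IsPoly (fun _ => True) encSearch (fun s => [s.2.1 || R s.1 s.2.2]) :=
      isPoly_bruteOr isPoly_encSearch_flag (isPoly_encSearch_comp hR)
    have h2 : IsPoly (fun _ => True) encSearch
        (fun s => N487b59b3.delimit s.1) :=
      isPoly_encSearch_comp (F := fun p => N487b59b3.delimit p.1)
        (isPoly_delimit (isPoly_bruteFst isPoly_bruteId))
    have h3 : IsPoly (fun _ => True) encSearch (fun s => next s.2.2) :=
      isPoly_encSearch_comp (F := fun p => next p.2) (isPoly_bruteSnd isPoly_next)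
    exact (h1.append (h2.append h3)).congr (fun _ _ => rfl)
  -- the initial state
  have hinit : IsPoly (fun _ => True) enc2args
      (fun a => encSearch (a.1, (false, ([] : List Bool)))) := by
    have h1 : IsPoly (fun _ => True) enc2args (fun _ : List Bool × List Bool => [false]) :=
      Pool.Agent.Lib.PolyTime.IsPoly.const _ _ _
    have h2 : IsPoly (fun _ => True) enc2args
        (fun a : List Bool × List Bool => N487b59b3.delimit a.1) :=
      isPoly_delimit (isPoly_bruteFst isPoly_bruteId)
    have h3 : IsPoly (fun _ => True) enc2args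
        (fun _ : List Bool × List Bool => ([] : List Bool)) := Pool.Agent.Lib.PolyTime.IsPoly.const _ _ _
    exact (h1.append (h2.append h3)).congr (fun _ _ => rfl)
  have hcnt : IsPoly (fun _ => True) enc2args (fun a : List Bool × List Bool => a.2) :=
    isPoly_bruteSnd isPoly_bruteId
  have hiter := isPoly_iterate (X := fun _ : List Bool × List Bool => True)
    (Y := fun _ : List Bool × (Bool × List Bool) => True)
    (ea := enc2args) (es := encSearch) (f := searchFull R)
    (init := fun a : List Bool × List Bool => (a.1, (false, ([] : List Bool))))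
    (cnt := fun a : List Bool × List Bool => a.2) (Polynomial.X + 1)
    hstep (fun _ _ => trivial) hinit (fun _ _ => trivial) hcnt (by
      rintro ⟨z, Y⟩ - i hi
      dsimp only at hi ⊢
      rw [searchFull_iterate]
      have hw : ((searchStep R z)^[i] (false, [])).2 = next^[i] [] := search_snd R z i
      have hlen : (next^[i] ([] : List Bool)).length ≤ i := by
        have := length_next_iterate_le i []
        simpa using this
      simp only [encSearch, enc2args, List.length_cons, List.length_append,
        N487b59b3.length_delimit, hw, Polynomial.eval_add, Polynomial.eval_X,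
        Polynomial.eval_one]
      omega)
  -- the final test
  have htest : IsPoly (fun _ => True) encSearch
      (fun s => [!s.2.1 && decide (p.eval s.1.length + 1 ≤ s.2.2.length)]) := by
    have h1 : IsPoly (fun _ => True) encSearch (fun s => [!s.2.1]) :=
      isPoly_bruteNot isPoly_encSearch_flag
    have h2 : IsPoly (fun _ => True) (fun l : List Bool => l)
        (fun z => (List.replicate (p.eval z.length) [true]).flatten ++ [true]) :=
      (IsPoly.rep (fun _ => True) (fun x : List Bool => x) p [true]).append (Pool.Agent.Lib.PolyTime.IsPoly.const _ _ _)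
    have h3 : IsPoly (fun _ => True) encSearch
        (fun s => (List.replicate (p.eval s.1.length) [true]).flatten ++ [true]) :=
      isPoly_encSearch_comp
        (F := fun q => (List.replicate (p.eval q.1.length) [true]).flatten ++ [true])
        (isPoly_bruteFst h2)
    have h4 : IsPoly (fun _ => True) encSearch (fun s => s.2.2) :=
      isPoly_encSearch_comp (F := fun q => q.2) (isPoly_bruteSnd isPoly_bruteId)
    refine h1.and ((h3.lenLe h4).congr ?_)
    intro s _
    simp
  refine (IsPoly.comp (φ := fun a : List Bool × List Bool =>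
    (searchFull R)^[a.2.length] (a.1, (false, ([] : List Bool)))) htest hiter
    (fun _ _ => trivial)).congr ?_
  rintro ⟨z, Y⟩ -
  dsimp only
  rw [searchFull_iterate]
  rfl

end Pool.Agent.Lib.MP_3da8ac_lc
end

section

/-!
# The tile system of a polynomial-time predicate
-/

set_option autoImplicit false

namespace Pool.Agent.Lib.MP_3da8ac_lc

open Pool.Agent.Lib.PolyTime

/-- The tile system of a polynomial-time predicate. -/
theorem exists_tileSys {R : List Bool → Bool}
    (h : IsPoly (fun _ => True) (fun v : List Bool => v) (fun v => [R v])) :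
    ∃ (𝒯 : TileSys) (q : Polynomial ℕ), Nonempty 𝒯.T ∧ ∀ N X, 4 ≤ N → 1 ≤ X → X < N →
      ((∃ τ, 𝒯.Tiling N X τ) → ∃ w, R (List.replicate X false ++ true :: w) = true) ∧
      (∀ w, R (List.replicate X false ++ true :: w) = true →
        q.eval (X + 1 + w.length) < N → ∃ τ, 𝒯.Tiling N X τ) := by
  obtain ⟨M, kin, q₀, sy, acc, q, hM⟩ := exists_machine h
  refine ⟨mtiles kin q₀ sy acc, q, nonempty_mtile q₀, ?_⟩
  intro N X hN hX hXN
  constructor
  · rintro ⟨τ, hτ⟩
    obtain ⟨w, -, hacc⟩ := run_of_tiling kin q₀ sy acc hN hX hXN hτ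
    exact ⟨w, (hM _).1 (N - 1) hacc⟩
  · intro w hw hq
    have hlen : (List.replicate X false ++ true :: w).length = X + 1 + w.length := by
      simp
      omega
    refine tiling_of_run kin q₀ sy acc hN hX w ?_ ?_
    · intro t _ k
      have := (hM (List.replicate X false ++ true :: w)).2.2 t k
      rw [hlen] at this
      exact lt_of_le_of_lt this hq
    · refine (hM (List.replicate X false ++ true :: w)).2.1 hw (N - 1) ?_
      rw [hlen]
      omega

end Pool.Agent.Lib.MP_3da8ac_lc
end

section

/-!
# Diagonalization: preliminaries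
-/

set_option autoImplicit false

namespace Pool.Agent.Lib.MP_3da8ac_lc

open Pool.Agent.Lib.PolyTime

/-- The identity is polynomial-time. -/
theorem isPoly_idList_diag :
    IsPoly (fun _ => True) (fun l : List Bool => l) (fun l => l) :=
  (IsPoly.flatMap (fun b => [b])).congr (fun x _ => by simp)

/-- A verifier for a language in NP, with raw encodings. -/
theorem exists_raw_verifier {L : List Bool → Bool} (hL : L ∈ N68a2faeb.NP) :
    ∃ (p : Polynomial ℕ) (R : List Bool → List Bool → Bool),
      IsPoly (fun _ => True) enc2args (fun s => [R s.1 s.2]) ∧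
      ∀ x, L x = true ↔ ∃ w : List Bool, w.length ≤ p.eval x.length ∧ R x w = true := by
  obtain ⟨p, R', hR', hLR⟩ := hL
  refine ⟨p, fun x w => R' (x, w), ?_, hLR⟩
  have h1 : IsPoly (fun _ => True) (N487b59b3.bitEncode : List Bool × List Bool → List Bool)
      (fun s => [R' s]) := (isPolyTime_iff.1 hR').congr (fun s _ => rfl)
  have hfst : IsPoly (fun _ => True) enc2args (fun s => s.1) :=
    isPoly_fst (ea := fun l : List Bool => l) (eb := fun l : List Bool => l) isPoly_idList_diag
  have hsnd : IsPoly (fun _ => True) enc2args (fun s => s.2) :=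
    isPoly_snd (ea := fun l : List Bool => l) (eb := fun l : List Bool => l) isPoly_idList_diag
  have h2 : IsPoly (fun _ => True) enc2args
      (fun s => (N487b59b3.bitEncode : List Bool × List Bool → List Bool) s) :=
    ((isPoly_delimit (isPoly_encode hfst)).append (isPoly_encode hsnd)).congr
      (fun s _ => (bitEncode_pair s.1 s.2).symm)
  exact IsPoly.comp (φ := fun s => s) h1 h2 (fun _ _ => trivial)

/-- Polynomials are bounded by exponentials. -/
theorem exists_eval_le (q : Polynomial ℕ) :
    ∃ C : ℕ, ∀ n : ℕ, q.eval (2 ^ n) ≤ 2 ^ (C * (n + 1)) := by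
  induction q using Polynomial.induction_on' with
  | add q r hq hr =>
    obtain ⟨C, hC⟩ := hq
    obtain ⟨D, hD⟩ := hr
    refine ⟨C + D + 1, fun n => ?_⟩
    rw [Polynomial.eval_add]
    have h1 : 2 ^ (C * (n + 1)) ≤ 2 ^ ((C + D) * (n + 1)) :=
      Nat.pow_le_pow_right (by norm_num) (Nat.mul_le_mul_right _ (Nat.le_add_right _ _))
    have h2 : 2 ^ (D * (n + 1)) ≤ 2 ^ ((C + D) * (n + 1)) :=
      Nat.pow_le_pow_right (by norm_num) (Nat.mul_le_mul_right _ (Nat.le_add_left _ _))
    have h3 : 2 * 2 ^ ((C + D) * (n + 1)) ≤ 2 ^ ((C + D + 1) * (n + 1)) := by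
      rw [← pow_succ']
      refine Nat.pow_le_pow_right (by norm_num) ?_
      nlinarith
    have := hC n
    have := hD n
    omega
  | monomial k a =>
    refine ⟨a + k, fun n => ?_⟩
    rw [Polynomial.eval_monomial, ← pow_mul]
    calc a * 2 ^ (n * k) ≤ 2 ^ a * 2 ^ (n * k) :=
          Nat.mul_le_mul_right _ (Nat.lt_two_pow_self).le
      _ = 2 ^ (a + n * k) := by rw [← pow_add]
      _ ≤ 2 ^ ((a + k) * (n + 1)) := by
          refine Nat.pow_le_pow_right (by norm_num) ?_
          nlinarith [Nat.zero_le (a * n), Nat.zero_le k]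

/-- The universality property. -/
def Universal (L : List Bool → Bool) : Prop :=
  ∀ V : List Bool → List Bool → Bool,
    IsPoly (fun _ => True) enc2args (fun p => [V p.1 p.2]) →
    ∃ q : Polynomial ℕ, ∀ n : ℕ, ∃ e : List Bool, n ≤ e.length ∧
      ∀ (y : List Bool) (a : ℕ), y.length ≤ a →
        (L (G e y a) = true → ∃ w, V y w = true) ∧
        (∀ w, V y w = true → q.eval (2 ^ (y.length + 2) + w.length) ≤ 2 ^ a →
          L (G e y a) = true)

/-- The diagonal instance for a code `x` and a clock `m`. -/
def diagIn (x : List Bool) (m : ℕ) : List Bool := G x x m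

/-- The complementary instance. -/
noncomputable def coIn (e : List Bool) (b : Polynomial ℕ) (z : List Bool) : List Bool :=
  G e z (b.eval z.length)

/-- The verifier of the diagonal language. -/
noncomputable def diagVer (R : List Bool → List Bool → Bool) (p b : Polynomial ℕ)
    (e x Y : List Bool) : Bool :=
  decide (next^[(zerosOf Y).length] [] = List.replicate (x.length + 1) false) &&
    (decide ((restOf Y).length ≤ p.eval (coIn e b (diagIn x (zerosOf Y).length)).length) &&
      R (coIn e b (diagIn x (zerosOf Y).length)) (restOf Y))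

/-- The length of the complementary diagonal instance. -/
theorem exists_length_le (e : List Bool) (b : Polynomial ℕ) :
    ∃ r : Polynomial ℕ, ∀ (x : List Bool) (m : ℕ),
      (coIn e b (diagIn x m)).length ≤ r.eval (x.length + m) := by
  obtain ⟨_, _, _, _, _, P, hlen, -⟩ := isPoly_G
  have hG : ∀ (e y : List Bool) (a : ℕ),
      (G e y a).length ≤ P.eval (2 * e.length + 2 * y.length + 2 + a) := by
    intro e y a
    have h := hlen (e, y, List.replicate a true) trivial
    have h2 : (enc3args (e, y, List.replicate a true)).length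
        = 2 * e.length + 2 * y.length + 2 + a := by
      simp only [enc3args, List.length_append, N487b59b3.length_delimit, List.length_replicate]
      omega
    rw [h2] at h
    simpa using h
  let Q : Polynomial ℕ := P.comp (4 * Polynomial.X + 2)
  refine ⟨P.comp (Polynomial.C (2 * e.length + 2) + 2 * Q + b.comp Q), fun x m => ?_⟩
  have h1 : (diagIn x m).length ≤ Q.eval (x.length + m) := by
    refine (hG x x m).trans ?_
    simp only [Q, Polynomial.eval_comp, Polynomial.eval_add, Polynomial.eval_mul,
      Polynomial.eval_X, Polynomial.eval_ofNat]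
    exact eval_mono P (by omega)
  refine (hG e (diagIn x m) (b.eval (diagIn x m).length)).trans ?_
  have h2 := eval_mono b h1
  simp only [Polynomial.eval_comp, Polynomial.eval_add, Polynomial.eval_mul,
    Polynomial.eval_ofNat, Polynomial.eval_C]
  exact eval_mono P (by omega)

end Pool.Agent.Lib.MP_3da8ac_lc
end

section

/-!
# A universal language in NP reduces to its complement
-/

set_option autoImplicit false

namespace Pool.Agent.Lib.MP_3da8ac_lc

open Pool.Agent.Lib.PolyTime

/-- A universal language in NP is reducible to its complement by the universal function with a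
polynomial clock. -/
theorem exists_compl {L : List Bool → Bool} (hU : Universal L) {p : Polynomial ℕ}
    {R : List Bool → List Bool → Bool}
    (hR : IsPoly (fun _ => True) enc2args (fun s => [R s.1 s.2]))
    (hLR : ∀ x, L x = true ↔ ∃ w : List Bool, w.length ≤ p.eval x.length ∧ R x w = true) :
    ∃ (e : List Bool) (b : Polynomial ℕ), ∀ z : List Bool,
      (L (G e z (b.eval z.length)) = true ↔ ¬ L z = true) := by
  obtain ⟨q, hq⟩ := hU (fun z Y => coVer R p z Y) (isPoly_coVer hR p)
  obtain ⟨e, -, he⟩ := hq 0
  obtain ⟨C, hC⟩ := exists_eval_le q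
  refine ⟨e, Polynomial.C C * (Polynomial.X + p + 4) + Polynomial.X, ?_⟩
  intro z
  set a := (Polynomial.C C * (Polynomial.X + p + 4) + Polynomial.X : Polynomial ℕ).eval z.length
    with ha
  have hae : a = C * (z.length + p.eval z.length + 4) + z.length := by
    rw [ha]; simp
  obtain ⟨h1, h2⟩ := he z a (by rw [hae]; omega)
  constructor
  · intro h hz
    obtain ⟨Y, hY⟩ := h1 h
    exact not_exists_of_coVer hY ((hLR z).1 hz)
  · intro hz
    have hne : ¬ ∃ w : List Bool, w.length ≤ p.eval z.length ∧ R z w = true :=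
      fun hw => hz ((hLR z).2 hw)
    refine h2 _ (coVer_of_not_exists hne) ?_
    rw [List.length_replicate]
    have hb : 2 ^ (z.length + 2) + (2 ^ (p.eval z.length + 1) - 1) ≤
        2 ^ (z.length + p.eval z.length + 3) := by
      have e1 : 2 ^ (z.length + 2) ≤ 2 ^ (z.length + p.eval z.length + 2) :=
        Nat.pow_le_pow_right (by norm_num) (by omega)
      have e2 : 2 ^ (p.eval z.length + 1) ≤ 2 ^ (z.length + p.eval z.length + 2) :=
        Nat.pow_le_pow_right (by norm_num) (by omega)
      have e3 : 2 ^ (z.length + p.eval z.length + 3) =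
          2 ^ (z.length + p.eval z.length + 2) + 2 ^ (z.length + p.eval z.length + 2) := by
        rw [pow_succ _ (z.length + p.eval z.length + 2)]; ring
      rw [e3]
      exact add_le_add e1 ((Nat.sub_le _ _).trans e2)
    refine (eval_mono q hb).trans ((hC _).trans (Nat.pow_le_pow_right (by norm_num) ?_))
    rw [hae]
    exact Nat.le_add_right _ _

end Pool.Agent.Lib.MP_3da8ac_lc
end

section

/-!
# The diagonal verifier is polynomial-time
-/

set_option autoImplicit false

namespace Pool.Agent.Lib.MP_3da8ac_lc

open Pool.Agent.Lib.PolyTime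

/-- Comparison with a string of zeros. -/
theorem decide_eq_replicate_diag (l : List Bool) (n : ℕ) :
    decide (l = List.replicate n false) =
      (l.foldl (fun x y => x && !y) true && (decide (l.length ≤ n) && decide (n ≤ l.length))) := by
  have key : ∀ (l : List Bool) (q : Bool),
      l.foldl (fun x y => x && !y) q = true ↔ q = true ∧ ∀ b ∈ l, b = false := by
    intro l
    induction l with
    | nil => intro q; simp
    | cons a l ih =>
      intro q
      rw [List.foldl_cons, ih]
      simp only [List.mem_cons, forall_eq_or_imp, Bool.and_eq_true, Bool.not_eq_true']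
      tauto
  rw [Bool.eq_iff_iff]
  simp only [decide_eq_true_eq, Bool.and_eq_true, key, true_and, List.eq_replicate_iff]
  constructor
  · rintro ⟨h1, h2⟩
    exact ⟨h2, h1.le, h1.ge⟩
  · rintro ⟨h1, h2, h3⟩
    exact ⟨le_antisymm h2 h3, h1⟩

/-- A unary polynomial of the length. -/
theorem isPoly_replicate_diag (p : Polynomial ℕ) :
    IsPoly (fun _ => True) (fun l : List Bool => l)
      (fun l => List.replicate (p.eval l.length) true) :=
  (IsPoly.rep (fun _ => True) (fun x : List Bool => x) p [true]).congr (fun l _ => by simp)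

/-- The complementary instance is polynomial-time. -/
theorem isPoly_coIn (e : List Bool) (b : Polynomial ℕ) :
    IsPoly (fun _ => True) (fun l : List Bool => l) (fun z => coIn e b z) := by
  have h : IsPoly (fun _ => True) (fun l : List Bool => l)
      (fun z => enc3args (e, z, List.replicate (b.eval z.length) true)) :=
    (Pool.Agent.Lib.PolyTime.IsPoly.const _ _ (N487b59b3.delimit e)).append
      ((isPoly_delimit isPoly_idList_diag).append (isPoly_replicate_diag b))
  refine (IsPoly.comp (φ := fun z => (e, z, List.replicate (b.eval z.length) true)) isPoly_G h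
    (fun _ _ => trivial)).congr (fun z _ => ?_)
  simp [coIn]

theorem isPoly_diagVer {R : List Bool → List Bool → Bool}
    (hR : IsPoly (fun _ => True) enc2args (fun s => [R s.1 s.2])) (p b : Polynomial ℕ)
    (e : List Bool) :
    IsPoly (fun _ => True) enc2args (fun s => [diagVer R p b e s.1 s.2]) := by
  have hx : IsPoly (fun _ => True) enc2args (fun s => s.1) :=
    isPoly_fst (ea := fun l : List Bool => l) (eb := fun l : List Bool => l) isPoly_idList_diag
  have hz : IsPoly (fun _ => True) enc2args (fun s => zerosOf s.2) :=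
    isPoly_snd (ea := fun l : List Bool => l) (eb := fun l : List Bool => l) isPoly_zerosOf
  have hr : IsPoly (fun _ => True) enc2args (fun s => restOf s.2) :=
    isPoly_snd (ea := fun l : List Bool => l) (eb := fun l : List Bool => l) isPoly_restOf
  have hn : IsPoly (fun _ => True) enc2args (fun s => next^[(zerosOf s.2).length] []) := by
    refine isPoly_iterate (es := fun l : List Bool => l) (Y := fun _ => True)
      (init := fun _ : List Bool × List Bool => ([] : List Bool)) (f := next)
      (cnt := fun s => zerosOf s.2) Polynomial.X isPoly_next (fun _ _ => trivial)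
      (Pool.Agent.Lib.PolyTime.IsPoly.const _ _ []) (fun _ _ => trivial) hz ?_
    intro s _ i hi
    refine (length_next_iterate_le i []).trans ?_
    rw [Polynomial.eval_X, List.length_nil, zero_add]
    refine hi.trans ?_
    have h1 : (zerosOf s.2).length ≤ s.2.length := by
      unfold zerosOf
      exact (List.takeWhile_sublist _).length_le
    refine h1.trans ?_
    simp [enc2args]
  have hall : IsPoly (fun _ => True) enc2args
      (fun s => [(next^[(zerosOf s.2).length] []).foldl (fun x y => x && !y) true]) := by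
    have h : IsPoly (fun _ => True) (fun l : List Bool => l)
        (fun l => [l.foldl (fun x y => x && !y) true]) :=
      IsPoly.out (fun (x y : Bool) => x && !y) true (fun q => [q])
    exact IsPoly.comp (φ := fun s : List Bool × List Bool =>
      next^[(zerosOf s.2).length] []) h hn (fun _ _ => trivial)
  have hx1 : IsPoly (fun _ => True) enc2args (fun s => s.1 ++ [true]) :=
    hx.append (Pool.Agent.Lib.PolyTime.IsPoly.const _ _ [true])
  have heq : IsPoly (fun _ => True) enc2args
      (fun s => [decide (next^[(zerosOf s.2).length] [] =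
        List.replicate (s.1.length + 1) false)]) := by
    refine (hall.and ((hn.lenLe hx1).and (hx1.lenLe hn))).congr (fun s _ => ?_)
    rw [decide_eq_replicate_diag, List.length_append, List.length_singleton]
  have hD : IsPoly (fun _ => True) enc2args (fun s => diagIn s.1 (zerosOf s.2).length) := by
    have h : IsPoly (fun _ => True) enc2args
        (fun s => enc3args (s.1, s.1, zerosOf s.2)) :=
      (isPoly_delimit hx).append ((isPoly_delimit hx).append hz)
    exact IsPoly.comp (φ := fun s : List Bool × List Bool => (s.1, s.1, zerosOf s.2)) isPoly_G h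
      (fun _ _ => trivial)
  have hC : IsPoly (fun _ => True) enc2args
      (fun s => coIn e b (diagIn s.1 (zerosOf s.2).length)) :=
    IsPoly.comp (φ := fun s : List Bool × List Bool => diagIn s.1 (zerosOf s.2).length)
      (isPoly_coIn e b) hD (fun _ _ => trivial)
  have hrep : IsPoly (fun _ => True) enc2args
      (fun s => List.replicate
        (p.eval (coIn e b (diagIn s.1 (zerosOf s.2).length)).length) true) :=
    IsPoly.comp (φ := fun s : List Bool × List Bool =>
      coIn e b (diagIn s.1 (zerosOf s.2).length)) (isPoly_replicate_diag p) hC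
      (fun _ _ => trivial)
  have hle : IsPoly (fun _ => True) enc2args
      (fun s => [decide ((restOf s.2).length ≤
        p.eval (coIn e b (diagIn s.1 (zerosOf s.2).length)).length)]) := by
    refine (hr.lenLe hrep).congr (fun s _ => ?_)
    rw [List.length_replicate]
  have hRR : IsPoly (fun _ => True) enc2args
      (fun s => [R (coIn e b (diagIn s.1 (zerosOf s.2).length)) (restOf s.2)]) := by
    have h : IsPoly (fun _ => True) enc2args
        (fun s => enc2args (coIn e b (diagIn s.1 (zerosOf s.2).length), restOf s.2)) :=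
      (isPoly_delimit hC).append hr
    exact IsPoly.comp (φ := fun s : List Bool × List Bool =>
      (coIn e b (diagIn s.1 (zerosOf s.2).length), restOf s.2)) hR h (fun _ _ => trivial)
  exact (heq.and (hle.and hRR)).congr (fun s _ => rfl)

end Pool.Agent.Lib.MP_3da8ac_lc
end

section

/-!
# Diagonalization
-/

set_option autoImplicit false

namespace Pool.Agent.Lib.MP_3da8ac_lc

open Pool.Agent.Lib.PolyTime

private theorem dg_sq_le (k : ℕ) : (k + 4) ^ 2 ≤ 2 ^ (k + 4) := by
  induction k with
  | zero => norm_num
  | succ k ih =>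
    calc (k + 1 + 4) ^ 2 ≤ (k + 1 + 4) ^ 2 + (k ^ 2 + 6 * k + 7) := Nat.le_add_right _ _
      _ = 2 * (k + 4) ^ 2 := by ring
      _ ≤ 2 * 2 ^ (k + 4) := by omega
      _ = 2 ^ (k + 1 + 4) := by ring

private theorem dg_exp_large (C n : ℕ) (hn : 2 * C + 6 ≤ n) : C * (n + 3) ≤ 2 ^ (n + 1) - 1 := by
  obtain ⟨k, rfl⟩ : ∃ k, n = k + 3 := ⟨n - 3, by omega⟩
  have h1 := dg_sq_le k
  have h2 : C * (k + 3 + 3) + 1 ≤ (k + 4) ^ 2 := by nlinarith
  have h3 : 2 ^ (k + 3 + 1) = 2 ^ (k + 4) := by ring
  rw [h3]
  omega

private theorem dg_mono (q : Polynomial ℕ) {a b : ℕ} (h : a ≤ b) : q.eval a ≤ q.eval b := by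
  rw [Polynomial.eval_eq_sum, Polynomial.eval_eq_sum]
  exact Finset.sum_le_sum fun i _ => Nat.mul_le_mul_left _ (Nat.pow_le_pow_left h i)

/-- No universal language is in NP. -/
theorem not_mem_NP {L : List Bool → Bool} (hU : Universal L) : L ∉ N68a2faeb.NP := by
  intro hL
  obtain ⟨p, R, hR, hLR⟩ := exists_raw_verifier hL
  obtain ⟨e₂, b, hcomp⟩ := exists_compl hU hR hLR
  obtain ⟨r, hr⟩ := exists_length_le e₂ b
  obtain ⟨q, hq⟩ := hU (diagVer R p b e₂) (isPoly_diagVer hR p b e₂)
  obtain ⟨C, hC⟩ := exists_eval_le (q.comp (Polynomial.C 2 * Polynomial.X + p.comp r))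
  obtain ⟨e, hn, he⟩ := hq (2 * C + 6)
  set n := e.length with hnn
  set m : ℕ := 2 ^ (n + 1) - 1 with hm
  have hnm : n ≤ m := by
    have h1 : n + 1 ≤ 2 ^ (n + 1) := Nat.lt_two_pow_self.le
    omega
  have hm1 : m + 1 = 2 ^ (n + 1) := by
    have : 0 < 2 ^ (n + 1) := by positivity
    omega
  obtain ⟨h1, h2⟩ := he e m hnm
  -- the diagonal verifier
  have hver : ∀ Y, diagVer R p b e₂ e Y = true → ¬ L (G e e m) = true := by
    intro Y hY
    unfold diagVer at hY
    rw [Bool.and_eq_true, Bool.and_eq_true, decide_eq_true_eq, decide_eq_true_eq] at hY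
    obtain ⟨a1, a2, a3⟩ := hY
    rw [next_iterate_eq_replicate, ← hnn, ← hm] at a1
    rw [a1] at a2 a3
    have a4 : L (coIn e₂ b (diagIn e m)) = true := (hLR _).2 ⟨_, a2, a3⟩
    exact (hcomp _).1 a4
  have hnot : ¬ L (G e e m) = true := by
    intro hT
    obtain ⟨w, hw⟩ := h1 hT
    exact hver w hw hT
  have hco : L (coIn e₂ b (diagIn e m)) = true := (hcomp _).2 hnot
  obtain ⟨w, hw1, hw2⟩ := (hLR _).1 hco
  apply hnot
  refine h2 (List.replicate m false ++ true :: w) ?_ ?_
  · unfold diagVer
    rw [Bool.and_eq_true, Bool.and_eq_true, decide_eq_true_eq, decide_eq_true_eq, zerosOf_append,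
      restOf_append, List.length_replicate, next_iterate_eq_replicate]
    exact ⟨rfl, hw1, hw2⟩
  · have hlen : (List.replicate m false ++ true :: w).length = m + 1 + w.length := by
      rw [List.length_append, List.length_replicate, List.length_cons]; ring
    rw [hlen]
    have b1 : (coIn e₂ b (diagIn e m)).length ≤ r.eval (2 ^ (n + 2)) := by
      refine (hr e m).trans (dg_mono r ?_)
      have h3 : 2 ^ (n + 2) = 2 * 2 ^ (n + 1) := by ring
      rw [← hnn, h3]
      omega
    have b2 : w.length ≤ p.eval (r.eval (2 ^ (n + 2))) := hw1.trans (dg_mono p b1)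
    have b3 : 2 ^ (n + 2) + (m + 1 + w.length) ≤
        2 * 2 ^ (n + 2) + p.eval (r.eval (2 ^ (n + 2))) := by
      have h3 : 2 ^ (n + 2) = 2 * 2 ^ (n + 1) := by ring
      omega
    have b4 := hC (n + 2)
    rw [Polynomial.eval_comp, Polynomial.eval_add, Polynomial.eval_mul, Polynomial.eval_C,
      Polynomial.eval_X, Polynomial.eval_comp] at b4
    calc q.eval (2 ^ (n + 2) + (m + 1 + w.length))
        ≤ q.eval (2 * 2 ^ (n + 2) + p.eval (r.eval (2 ^ (n + 2)))) := dg_mono q b3
      _ ≤ 2 ^ (C * (n + 2 + 1)) := b4
      _ ≤ 2 ^ m := by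
          refine Nat.pow_le_pow_right (by norm_num) ?_
          exact dg_exp_large C n hn

end Pool.Agent.Lib.MP_3da8ac_lc
end

section

/-!
# A correct answer to the difficulty problem is a universal problem
-/

set_option autoImplicit false

namespace Pool.Agent.Lib.MP_3da8ac_lc

open Pool.Agent.Lib.PolyTime

/-- The instance of a tile system is a yes-instance iff there is a tiling. -/
theorem difficulty_le_iff_tiling (𝒯 : TileSys) [Nonempty 𝒯.T] {N X : ℕ} (hN : 2 ≤ N)
    (hN2 : Even N) (hX : 1 ≤ X) (hXN : X < N ^ 2 + 1) :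
    difficulty (fam (𝒯.rules N X)) ≤ ((3 * (N ^ 2 + 1) + 1 : ℕ) : ℕ∞) ↔
      ∃ τ : ℕ → 𝒯.T, 𝒯.Tiling N X τ := by
  have hok := 𝒯.rules_ok hN hX hXN
  have hQ : 0 < 𝒯.Q := by
    unfold TileSys.Q
    positivity
  rw [difficulty_fam_le (W := (N ^ 2 + 1) * (8 * 𝒯.Q)) (by positivity) (𝒯.rules_ne_nil N X)
    (fun s hs => ⟨(hok s hs).2.1, (hok s hs).2.2.1, (hok s hs).2.2.2⟩)]
  constructor
  · rintro ⟨P, h1, h2, h3⟩
    exact 𝒯.exists_tiling_of_closed hN hN2 hX hXN P h1 h2 h3
  · rintro ⟨τ, hτ⟩
    exact 𝒯.exists_closed_of_tiling hN hX hXN hτ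

theorem isFamily_rules (𝒯 : TileSys) [Nonempty 𝒯.T] {N X : ℕ} (hN : 2 ≤ N)
    (hX : 1 ≤ X) (hXN : X < N ^ 2 + 1) : IsFamily (fam (𝒯.rules N X)) :=
  isFamily_fam (𝒯.rules_ne_nil N X) (fun s hs =>
    ⟨(𝒯.rules_ok hN hX hXN s hs).1, (𝒯.rules_ok hN hX hXN s hs).2.1⟩)

theorem critical_rules (𝒯 : TileSys) [Nonempty 𝒯.T] {N X : ℕ} (hN : 2 ≤ N)
    (hX : 1 ≤ X) (hXN : X < N ^ 2 + 1) : Critical (fam (𝒯.rules N X)) :=
  critical_fam (𝒯.rules_ne_nil N X) (fun s hs =>
    ⟨List.ne_nil_of_mem (𝒯.rules_ok hN hX hXN s hs).2.2.1, (𝒯.rules_ok hN hX hXN s hs).2.1⟩)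

theorem val_arg_bounds (y : List Bool) :
    1 ≤ val (false :: (y ++ [true])) ∧ val (false :: (y ++ [true])) < 2 ^ (y.length + 2) := by
  have h1 := val_lt (false :: (y ++ [true]))
  have h2 := val_append y [true]
  have h3 : val [true] = 1 := rfl
  have h4 : val (false :: (y ++ [true])) = 2 * val (y ++ [true]) := by simp [val]
  have h5 : 0 < 2 ^ y.length := by positivity
  have h6 : (false :: (y ++ [true])).length = y.length + 2 := by simp
  rw [h6] at h1
  rw [h3] at h2
  exact ⟨by omega, h1⟩

/-- The universality of the difficulty problem. -/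
theorem universal {L : List Bool → Bool} (hL : Decides L) {V : List Bool → List Bool → Bool}
    (hV : IsPoly (fun _ => True) enc2args (fun p => [V p.1 p.2])) :
    ∃ q : Polynomial ℕ, ∀ n : ℕ, ∃ e : List Bool, n ≤ e.length ∧
      ∀ (y : List Bool) (a : ℕ), y.length ≤ a →
        (L (G e y a) = true → ∃ w, V y w = true) ∧
        (∀ w, V y w = true → q.eval (2 ^ (y.length + 2) + w.length) ≤ 2 ^ a →
          L (G e y a) = true) := by
  obtain ⟨𝒯, q, hne, hT⟩ := exists_tileSys (isPoly_unary hV)
  obtain ⟨T, hT8, hTe⟩ := exists_template 𝒯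
  refine ⟨q, fun n => ?_⟩
  obtain ⟨e, hen, he⟩ := exists_code T hT8 n
  refine ⟨e, hen, fun y a hya => ?_⟩
  obtain ⟨hX, hX2⟩ := val_arg_bounds y
  set X := val (false :: (y ++ [true])) with hXdef
  set N := 2 ^ (a + 2) with hNdef
  have hXN : X < N := lt_of_lt_of_le hX2 (Nat.pow_le_pow_right (by norm_num) (by omega))
  have hN4 : 4 ≤ N := by
    rw [hNdef, pow_add]
    have : 0 < 2 ^ a := by positivity
    omega
  have hNe : Even N := by
    rw [hNdef, pow_succ]
    exact even_iff_two_dvd.2 (dvd_mul_left _ _)
  have hXN2 : X < N ^ 2 + 1 := by nlinarith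
  have hLG : L (G e y a) = true ↔ ∃ τ : ℕ → 𝒯.T, 𝒯.Tiling N X τ := by
    rw [he, hTe, hL _ _ (isFamily_rules 𝒯 (by omega) hX hXN2)
      (critical_rules 𝒯 (by omega) hX hXN2)]
    exact difficulty_le_iff_tiling 𝒯 (by omega) hNe hX hXN2
  rw [hLG]
  obtain ⟨h1, h2⟩ := hT N X hN4 hX hXN
  constructor
  · intro h
    obtain ⟨w, hw⟩ := h1 h
    refine ⟨w, ?_⟩
    rwa [restOf_append, hXdef, argOf_append] at hw
  · intro w hw hq
    refine h2 w ?_ ?_
    · rwa [restOf_append, hXdef, argOf_append]
    · refine lt_of_le_of_lt ((eval_mono q ?_).trans hq) ?_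
      · omega
      · rw [hNdef, pow_add]
        have : 0 < 2 ^ a := by positivity
        omega

end Pool.Agent.Lib.MP_3da8ac_lc
end

section

/-!
# The difficulty of critical models is not in NP
-/

set_option autoImplicit false

namespace Pool.Agent.Lib.MP_3da8ac_lc

/-- No language in NP answers the difficulty question for critical families. -/
theorem main (L : List Bool → Bool) (hL : Decides L) : L ∉ N68a2faeb.NP :=
  not_mem_NP (fun _ hV => universal hL hV)

end Pool.Agent.Lib.MP_3da8ac_lc
end
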